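import Pool.Agent.Run7.h243.G.Cores
import Pool.Agent.Run7.h243.Fam

set_option linter.unusedSectionVars false
set_option linter.unusedSimpArgs false
set_option maxRecDepth 100000

/-! The third family: two parts per country. -/

namespace Run7.h243.G

open Equiv Run7.B243 Run7.h243

section chain1

variable {N J : ℕ} {K : Core N J}

/-- one more reversal at the end of the ladder -/
theorem chain1 (hK : K.Ok) {l : ℕ} {val : LL N (2 * l + 1) → ℤ} (hv : Tri val (ptau hK (2 * l + 1)))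
    (hb : K.nm K.bT ≠ 0) :
    ∃ t : Perm (LL N (2 * l + 1)), Tri val t ∧
      cyc (t * pnu hK (2 * l + 1)) + 2 * (l + 1) = J + (2 * l + 1) ∧
      (∀ x y, cl (ppi hK (2 * l + 1)) x = cl (ppi hK (2 * l + 1)) y →
        cl (t * pnu hK (2 * l + 1)) x = cl (t * pnu hK (2 * l + 1)) y) ∧
      (∀ c : Fin N, t (Sum.inl c) = Sum.inl (K.tau c)) := by
  obtain ⟨t, ht⟩ := st_ladder hK hv l (by omega)
  let i : Fin (2 * l + 1 + 1) := Fin.last _
  have hi : i.val = 2 * l + 1 := rfl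
  have n1 : name K (2 * l + 1) (ltau K (2 * l + 1) (Sum.inr (i, K6.tn))) = K.nm K.bT := by
    show (if i.val = 2 * l + 1 then K.nm K.bT else J + i.val) = _
    rw [if_pos hi]
  have n2 : name K (2 * l + 1) (ltau K (2 * l + 1) (ltau K (2 * l + 1) (Sum.inr (i, K6.tn)))) =
      J + 2 * l := by
    show (if i.val = 0 then K.nm K.aU else J + i.val - 1) = _
    rw [if_neg (by omega)]; omega
  have hbJ := hK.nm9 K.bT
  have s := ht.step (Sum.inr (i, K6.tn)) (by
      show ¬ (N ≤ N + 2 * i.val ∧ N + 2 * i.val < N + 4 * l)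
      omega)
    (by show K.nm K.aT ∈ _; rw [hK.nmaT]; simp)
    (by rw [n1]; simp; omega) (by rw [n2]; have := hK.nm9 K.aT; simp; omega) (by rw [n1, n2]; omega)
  refine ⟨_, s.tri, s.num, s.coarse, ?_⟩
  intro c
  refine s.same _ ?_
  show ¬ ((N ≤ c.val / 3 ∧ c.val / 3 < N + 4 * l) ∨ c.val / 3 = N + 2 * i.val)
  have := c.isLt
  omega

end chain1

theorem cayL (l : ℕ) : Nonempty (CayU (fun u => (u = 2 ∨ u = 5 ∨ 7 ≤ u) ∧ u ≤ 3 * (2 * l + 13) + 4)
    (2 * l + 13) 1 (-2) (-(6 * l + 41))) := by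
  have hb : coreL.nm coreL.bT ≠ 0 := by decide
  obtain ⟨t, t1, t2, t3, t4⟩ := chain1 coreL_ok (vl_tri (V := corevL) (l := l) coreL_ok corevL_ok) hb
  have := cayU_of (M := 2 * l + 1) (l := l) coreL_ok corevL_ok rfl listL listL_in listL_1 listL_0
    (fun u => (u = 2 ∨ u = 5 ∨ 7 ≤ u) ∧ u ≤ 3 * (2 * l + 13) + 4) (by
    rintro u ⟨hu, hu'⟩
    have hG : corevL.G = 6 := rfl
    refine ⟨by omega, ?_, ?_⟩
    · intro h
      rcases hu with rfl | rfl | hu
      · decide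
      · decide
      · omega
    · have : corevL.a = 9 ∧ corevL.b = 4 ∧ corevL.c = 4 := ⟨rfl, rfl, rfl⟩
      omega) (2 * l + 13) 1 (by omega) t t1 (by omega) t3 0 (t4 0)
  have a : corevL.A 0 = -2 ∧ corevL.B 0 = 0 ∧ corevL.A (coreL.tau 0) = -41 ∧
    corevL.B (coreL.tau 0) = -6 := by decide
  rw [a.1, a.2.1, a.2.2.1, a.2.2.2] at this
  have e1 : (-2 : ℤ) + 0 * l = -2 := by ring
  have e2 : (-41 : ℤ) + -6 * l = -(6 * l + 41) := by ring
  rw [e1, e2] at this
  exact this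

end Run7.h243.G

namespace Run7.h243.Dat

open Equiv Run7.B243 Run7.h243.G

variable {D : Dat}

def offE4 (t : ℕ) : List (ℕ × ℕ) := [(33, 0), (35, 0), (36, 0), (38, 0), (31, 0), (29, 0), (28, 0),
  (26, 0)] ++ (List.range t).map (fun i => (32 + i, 1)) ++ (List.range t).map (fun i => (32 - i, 1))

def offO4 (t : ℕ) : List (ℕ × ℕ) := [(34, 0), (38, 0), (40, 0), (44, 0), (30, 0), (26, 0), (24, 0),
  (20, 0)] ++ (List.range t).map (fun i => (32 + (2 * i + 1), 0)) ++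
  (List.range t).map (fun i => (32 - (2 * i + 1), 0))

theorem good_even4 (ok : D.Ok) (δ t : ℕ) (hδ : D.big.length ≤ 3 + δ) (hw : D.w = 2)
    (hd : D.d = 2 * t + 7) (hoff : D.hasOff (offE4 t)) (l j : ℕ) (hrel : D.relE t 1)
    (hs : 3 * (2 * l + 13) + 4 + t = D.h0 + D.P * j) (ht32 : t ≤ 32) :
    ∃ ε : ℤ, GoodE true ε (6 * (2 * l + 13) + 8 + 2 * t) (1 + D.c0) ∧ Even ε ∧
      ((6 * (2 * l + 13) + 8 + 2 * t : ℕ) : ℤ) * (6 * (1 + D.c0 : ℕ) + 1 -
        (6 * (2 * l + 13) + 8 + 2 * t : ℕ)) - 2 * δ ≤ 6 * ε := by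
  obtain ⟨C⟩ := cayL l
  obtain ⟨s, hsl⟩ : ∃ s, s = 2 * l + 13 := ⟨_, rfl⟩
  have hsl' : (6 * (l : ℤ)) + 41 = 3 * s + 2 := by rw [hsl]; push_cast; ring
  rw [← hsl] at C hs ⊢
  rw [hsl'] at C
  obtain ⟨h, hh⟩ : ∃ h, h = 3 * s + 4 + t := ⟨_, rfl⟩
  rw [← hh] at hs
  have hN : nn D h = 6 * s + 8 + 2 * t := by simp only [nn, hw, hh]; ring
  have hNZ : NeZero (nn D h) := nn_ne ok j hs
  obtain ⟨r1, r2, r3, r4⟩ := hrel
  have hN2 : ((nn D h : ℕ) : ℤ) = 2 * h := by simp only [nn, hw]; push_cast; ring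
  have hNs : ((nn D h : ℕ) : ℤ) = 6 * s + 8 + 2 * t := by rw [hN]; push_cast; ring
  have hμ : ∀ x : ZMod (nn D h), ∃ z : ℤ, x = (((-1 : ℤ) * z : ℤ) : ZMod (nn D h)) := by
    intro x
    refine ⟨-(x.val : ℤ), ?_⟩
    simp
  have hX1 : (rsys ok j hs δ hδ).X 1 = (rsys ok j hs δ hδ).X 0 +
      (C.toN (nn D h) (-1) hμ).val C.t1 := by
    show pt D h _ _ = pt D h _ _ + (((-1 : ℤ) * C.val C.t1 : ℤ) : ZMod (nn D h))
    rw [C.h1, r1, r2, pt_int, pt_int, ← Int.cast_add]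
    refine zeq _ _ 0 ?_
    push_cast; ring
  have hX2 : (rsys ok j hs δ hδ).X 2 = (rsys ok j hs δ hδ).X 1 +
      (C.toN (nn D h) (-1) hμ).val ((C.toN (nn D h) (-1) hμ).τ C.t1) := by
    show pt D h _ _ = pt D h _ _ + (((-1 : ℤ) * C.val (C.τ C.t1) : ℤ) : ZMod (nn D h))
    have he : (D.hc 1).2 < 2 := by have := (ok.hv 1).2; omega
    rw [C.h2, pt_int, pt_int, ← Int.cast_add]
    have h3 : ((h : ℕ) : ℤ) = 3 * s + 4 + t := by rw [hh]; push_cast; ring
    rw [if_pos rfl] at r4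
    have r4' : ((D.hc 1).1 : ℤ) = (D.hc 2).1 + (t + 2) := by rw [← r4]; push_cast; ring
    interval_cases h12 : (D.hc 1).2
    · rw [r3]
      refine zeq _ _ 0 ?_
      push_cast; rw [r4', h3]; ring
    · rw [r3]
      refine zeq _ _ (-1) ?_
      rw [hNs]
      push_cast; rw [r4', h3]; ring
  have hcard : 6 * s + Fintype.card (rsys ok j hs δ hδ).F + 1 = nn D h := by
    show 6 * s + Fintype.card (Fin D.d) + 1 = _
    rw [Fintype.card_fin, hd, hN]; ring
  have hcov : ∀ g : ZMod (nn D h), g ≠ 0 → (∃ x, (C.toN (nn D h) (-1) hμ).val x = g) ∨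
      ∃ p, (rsys ok j hs δ hδ).off p = g := by
    intro g hg
    have hlt := ZMod.val_lt g
    have hne : g.val ≠ 0 := fun e => hg ((ZMod.val_eq_zero g).mp e)
    have hgv : g = ((g.val : ℤ) : ZMod (nn D h)) := by simp
    obtain ⟨y, hy⟩ : ∃ y, y = g.val := ⟨_, rfl⟩
    rw [← hy] at hlt hne hgv
    have hlt' : y < 2 * h := by rw [hN] at hlt; omega
    have off : ∀ q ∈ offE4 t, ∀ k : ℤ, (((q.1 : ℤ) - 32) + q.2 * h) - y = (nn D h : ℕ) * k →
        ∃ p, (rsys ok j hs δ hδ).off p = g := by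
      intro q hq k hk
      obtain ⟨p, hp1, hp2⟩ := hoff q hq
      refine ⟨p, ?_⟩
      show offz D h p.val = g
      unfold offz
      rw [hp1, hp2, hgv]
      exact zeq _ _ k hk
    have mem1 : ∀ i < t, (32 + i, 1) ∈ offE4 t := by
      intro i hi
      simp only [offE4, List.mem_append, List.mem_map, List.mem_range]
      exact Or.inl (Or.inr ⟨i, hi, rfl⟩)
    have mem2 : ∀ i < t, (32 - i, 1) ∈ offE4 t := by
      intro i hi
      simp only [offE4, List.mem_append, List.mem_map, List.mem_range]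
      exact Or.inr ⟨i, hi, rfl⟩
    by_cases hyh : y ≤ h
    · by_cases c1 : y = 1
      · right; exact off (33, 0) (by simp [offE4]) 0 (by subst c1; push_cast; ring)
      by_cases c3 : y = 3
      · right; exact off (35, 0) (by simp [offE4]) 0 (by subst c3; push_cast; ring)
      by_cases c4 : y = 4
      · right; exact off (36, 0) (by simp [offE4]) 0 (by subst c4; push_cast; ring)
      by_cases c6 : y = 6
      · right; exact off (38, 0) (by simp [offE4]) 0 (by subst c6; push_cast; ring)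
      by_cases cN : y ≤ 3 * s + 4
      · left
        obtain ⟨x, hx⟩ := C.cov y ⟨by omega, by omega⟩
        refine ⟨C.ν x, ?_⟩
        show (((-1 : ℤ) * C.val (C.ν x) : ℤ) : ZMod (nn D h)) = g
        rw [C.nuval, hx, hgv]; congr 1; ring
      · right
        refine off (32 - (h - y), 1) (mem2 _ (by omega)) 0 ?_
        simp only
        have : ((32 - (h - y) : ℕ) : ℤ) = 32 - (h - y) := by omega
        rw [this]; push_cast; ring
    · by_cases c1 : y + 1 = 2 * h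
      · right; exact off (31, 0) (by simp [offE4]) (-1) (by rw [hN2]; push_cast; omega)
      by_cases c3 : y + 3 = 2 * h
      · right; exact off (29, 0) (by simp [offE4]) (-1) (by rw [hN2]; push_cast; omega)
      by_cases c4 : y + 4 = 2 * h
      · right; exact off (28, 0) (by simp [offE4]) (-1) (by rw [hN2]; push_cast; omega)
      by_cases c6 : y + 6 = 2 * h
      · right; exact off (26, 0) (by simp [offE4]) (-1) (by rw [hN2]; push_cast; omega)
      by_cases cN : 2 * h - y ≤ 3 * s + 4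
      · left
        obtain ⟨x, hx⟩ := C.cov (2 * h - y) ⟨by omega, by omega⟩
        refine ⟨x, ?_⟩
        show (((-1 : ℤ) * C.val x : ℤ) : ZMod (nn D h)) = g
        rw [hx, hgv]
        refine zeq _ _ (-1) ?_
        rw [hN2]
        have : ((2 * h - y : ℕ) : ℤ) = 2 * h - y := by omega
        rw [this]; ring
      · right
        refine off (32 + (y - h), 1) (mem1 _ (by omega)) 0 ?_
        simp only
        have : ((32 + (y - h) : ℕ) : ℤ) = 32 + (y - h) := by omega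
        rw [this]; push_cast; ring
  have := Run7.h243.G.glue_goodE (C.toN (nn D h) (-1) hμ) (rsys ok j hs δ hδ) C.t1 hX1 hX2 hcov hcard
  rw [hN] at this
  exact this

theorem good_odd4 (ok : D.Ok) (δ t : ℕ) (hδ : D.big.length ≤ 3 + δ) (hw : D.w = 1)
    (hd : D.d = 2 * t + 8) (hoff : D.hasOff (offO4 t)) (l j : ℕ) (hrel : D.relO t 1)
    (hs : 6 * (2 * l + 13) + 8 + (2 * t + 1) = D.h0 + D.P * j) (ht15 : t ≤ 15) :
    ∃ ε : ℤ, GoodE true ε (6 * (2 * l + 13) + 8 + (2 * t + 1)) (1 + D.c0) ∧ Even ε ∧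
      ((6 * (2 * l + 13) + 8 + (2 * t + 1) : ℕ) : ℤ) * (6 * (1 + D.c0 : ℕ) + 1 -
        (6 * (2 * l + 13) + 8 + (2 * t + 1) : ℕ)) - 2 * δ ≤ 6 * ε := by
  obtain ⟨C⟩ := cayL l
  obtain ⟨s, hsl⟩ : ∃ s, s = 2 * l + 13 := ⟨_, rfl⟩
  have hsl' : (6 * (l : ℤ)) + 41 = 3 * s + 2 := by rw [hsl]; push_cast; ring
  rw [← hsl] at C hs ⊢
  rw [hsl'] at C
  obtain ⟨h, hh⟩ : ∃ h, h = 6 * s + 8 + (2 * t + 1) := ⟨_, rfl⟩
  rw [← hh] at hs
  have hN : nn D h = 6 * s + 8 + (2 * t + 1) := by simp only [nn, hw, hh]; ring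
  have hNZ : NeZero (nn D h) := nn_ne ok j hs
  obtain ⟨r1, r2, r3, r4, r5⟩ := hrel
  have hNs : ((nn D h : ℕ) : ℤ) = 6 * s + 8 + (2 * t + 1) := by rw [hN]; push_cast; ring
  have hμ : ∀ x : ZMod (nn D h), ∃ z : ℤ, x = (((-2 : ℤ) * z : ℤ) : ZMod (nn D h)) := by
    intro x
    have hx : x = ((x.val : ℤ) : ZMod (nn D h)) := by simp
    rcases Nat.even_or_odd' x.val with ⟨q, hq | hq⟩
    · refine ⟨-(q : ℤ), ?_⟩
      rw [hx, hq]; congr 1; push_cast; ring
    · refine ⟨-((q + (3 * s + 4 + t + 1) : ℕ) : ℤ), ?_⟩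
      rw [hx, hq]
      refine zeq _ _ (-1) ?_
      rw [hNs]; push_cast; ring
  have hX1 : (rsys ok j hs δ hδ).X 1 = (rsys ok j hs δ hδ).X 0 +
      (C.toN (nn D h) (-2) hμ).val C.t1 := by
    show pt D h _ _ = pt D h _ _ + (((-2 : ℤ) * C.val C.t1 : ℤ) : ZMod (nn D h))
    rw [C.h1, r1, r2, r3]
    unfold pt
    push_cast; ring
  have hX2 : (rsys ok j hs δ hδ).X 2 = (rsys ok j hs δ hδ).X 1 +
      (C.toN (nn D h) (-2) hμ).val ((C.toN (nn D h) (-2) hμ).τ C.t1) := by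
    show pt D h _ _ = pt D h _ _ + (((-2 : ℤ) * C.val (C.τ C.t1) : ℤ) : ZMod (nn D h))
    rw [C.h2, r3, r4, pt_int, pt_int, ← Int.cast_add]
    rw [if_pos rfl] at r5
    have r5' : ((D.hc 1).1 : ℤ) = (D.hc 2).1 + (2 * t + 1 + 4) := by rw [← r5]; push_cast; ring
    refine zeq _ _ (-1) ?_
    rw [hNs]
    push_cast; rw [r5']; ring
  have hcard : 6 * s + Fintype.card (rsys ok j hs δ hδ).F + 1 = nn D h := by
    show 6 * s + Fintype.card (Fin D.d) + 1 = _
    rw [Fintype.card_fin, hd, hN]; ring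
  have hcov : ∀ g : ZMod (nn D h), g ≠ 0 → (∃ x, (C.toN (nn D h) (-2) hμ).val x = g) ∨
      ∃ p, (rsys ok j hs δ hδ).off p = g := by
    intro g hg
    have hlt := ZMod.val_lt g
    have hne : g.val ≠ 0 := fun e => hg ((ZMod.val_eq_zero g).mp e)
    have hgv : g = ((g.val : ℤ) : ZMod (nn D h)) := by simp
    obtain ⟨y, hy⟩ : ∃ y, y = g.val := ⟨_, rfl⟩
    rw [← hy] at hlt hne hgv
    rw [hN] at hlt
    have off : ∀ q ∈ offO4 t, ∀ k : ℤ, (((q.1 : ℤ) - 32) + q.2 * h) - y = (nn D h : ℕ) * k →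
        ∃ p, (rsys ok j hs δ hδ).off p = g := by
      intro q hq k hk
      obtain ⟨p, hp1, hp2⟩ := hoff q hq
      refine ⟨p, ?_⟩
      show offz D h p.val = g
      unfold offz
      rw [hp1, hp2, hgv]
      exact zeq _ _ k hk
    have mem1 : ∀ i < t, (32 + (2 * i + 1), 0) ∈ offO4 t := by
      intro i hi
      simp only [offO4, List.mem_append, List.mem_map, List.mem_range]
      exact Or.inl (Or.inr ⟨i, hi, rfl⟩)
    have mem2 : ∀ i < t, (32 - (2 * i + 1), 0) ∈ offO4 t := by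
      intro i hi
      simp only [offO4, List.mem_append, List.mem_map, List.mem_range]
      exact Or.inr ⟨i, hi, rfl⟩
    rcases Nat.even_or_odd' y with ⟨u, hu | hu⟩
    · by_cases c1 : u = 1
      · right; exact off (34, 0) (by simp [offO4]) 0 (by subst hu c1; push_cast; ring)
      by_cases c3 : u = 3
      · right; exact off (38, 0) (by simp [offO4]) 0 (by subst hu c3; push_cast; ring)
      by_cases c4 : u = 4
      · right; exact off (40, 0) (by simp [offO4]) 0 (by subst hu c4; push_cast; ring)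
      by_cases c6 : u = 6
      · right; exact off (44, 0) (by simp [offO4]) 0 (by subst hu c6; push_cast; ring)
      by_cases cN : u ≤ 3 * s + 4
      · left
        obtain ⟨x, hx⟩ := C.cov u ⟨by omega, by omega⟩
        refine ⟨C.ν x, ?_⟩
        show (((-2 : ℤ) * C.val (C.ν x) : ℤ) : ZMod (nn D h)) = g
        rw [C.nuval, hx, hgv, hu]; congr 1; push_cast; ring
      · right
        -- `y - n` is odd
        refine off (32 - (2 * (3 * s + 4 + t - u) + 1), 0) (mem2 _ (by omega)) (-1) ?_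
        simp only
        rw [hNs]
        have : ((32 - (2 * (3 * s + 4 + t - u) + 1) : ℕ) : ℤ) =
          32 - (2 * (3 * s + 4 + t - u) + 1) := by omega
        rw [this, hu]; push_cast; ring
    · -- `n - y = 2 * u'`
      obtain ⟨u', hu'⟩ : ∃ u', u' + u = 3 * s + 4 + t := ⟨3 * s + 4 + t - u, by omega⟩
      have hy' : (y : ℤ) = 6 * s + 8 + (2 * t + 1) - 2 * u' := by
        rw [hu]; push_cast; linarith [(by exact_mod_cast hu' : (u' : ℤ) + u = 3 * s + 4 + t)]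
      by_cases c1 : u' = 1
      · right; exact off (30, 0) (by simp [offO4]) (-1) (by rw [hNs, hy', c1]; push_cast; ring)
      by_cases c3 : u' = 3
      · right; exact off (26, 0) (by simp [offO4]) (-1) (by rw [hNs, hy', c3]; push_cast; ring)
      by_cases c4 : u' = 4
      · right; exact off (24, 0) (by simp [offO4]) (-1) (by rw [hNs, hy', c4]; push_cast; ring)
      by_cases c6 : u' = 6
      · right; exact off (20, 0) (by simp [offO4]) (-1) (by rw [hNs, hy', c6]; push_cast; ring)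
      by_cases cN : u' ≤ 3 * s + 4
      · left
        obtain ⟨x, hx⟩ := C.cov u' ⟨by omega, by omega⟩
        refine ⟨x, ?_⟩
        show (((-2 : ℤ) * C.val x : ℤ) : ZMod (nn D h)) = g
        rw [hx, hgv]
        refine zeq _ _ (-1) ?_
        rw [hNs, hy']; ring
      · right
        refine off (32 + (2 * u + 1), 0) (mem1 _ (by omega)) 0 ?_
        simp only
        rw [hu]; push_cast; ring
  have := Run7.h243.G.glue_goodE (C.toN (nn D h) (-2) hμ) (rsys ok j hs δ hδ) C.t1 hX1 hX2 hcov hcard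
  rw [hN] at this
  exact this

/-- the family of a table, even case -/
theorem fam4_even (ok : D.Ok) (t s0 q : ℕ) (hw : D.w = 2) (hδ : D.big.length ≤ 8)
    (hd : D.d = 2 * t + 7) (hoff : D.hasOff (offE4 t)) (hrel : D.relE t 1) (hs0 : s0 % 2 = 1)
    (h0 : 3 * s0 + 4 + t = D.h0) (hq : D.P * q = 6) (ht : t ≤ 32)
    (s : ℕ) (hs : s0 ≤ s) (hs13 : 13 ≤ s) (hpar : s % 2 = 1) :
    Opt (6 * s + 8 + 2 * t) (1 + D.c0) := by
  obtain ⟨u, hu⟩ : ∃ u, s = s0 + 2 * u := ⟨(s - s0) / 2, by omega⟩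
  obtain ⟨l, hl⟩ : ∃ l, s = 2 * l + 13 := ⟨(s - 13) / 2, by omega⟩
  obtain ⟨ε, h1, h2, h3⟩ := good_even4 ok 5 t hδ hw hd hoff l (q * u) hrel
    (by
      have : D.P * (q * u) = 6 * u := by rw [← hq]; ring
      rw [this, ← h0, ← hl, hu]; ring) ht
  rw [← hl] at h1 h3
  refine ⟨ε, h1, h2, ?_⟩
  push_cast at h3 ⊢
  linarith

/-- the family of a table, odd case -/
theorem fam4_odd (ok : D.Ok) (t s0 q : ℕ) (hw : D.w = 1) (hδ : D.big.length ≤ 8)
    (hd : D.d = 2 * t + 8) (hoff : D.hasOff (offO4 t)) (hrel : D.relO t 1) (hs0 : s0 % 2 = 1)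
    (h0 : 6 * s0 + 8 + (2 * t + 1) = D.h0) (hq : D.P * q = 12) (ht : t ≤ 15)
    (s : ℕ) (hs : s0 ≤ s) (hs13 : 13 ≤ s) (hpar : s % 2 = 1) :
    Opt (6 * s + 8 + (2 * t + 1)) (1 + D.c0) := by
  obtain ⟨u, hu⟩ : ∃ u, s = s0 + 2 * u := ⟨(s - s0) / 2, by omega⟩
  obtain ⟨l, hl⟩ : ∃ l, s = 2 * l + 13 := ⟨(s - 13) / 2, by omega⟩
  obtain ⟨ε, h1, h2, h3⟩ := good_odd4 ok 5 t hδ hw hd hoff l (q * u) hrel
    (by
      have : D.P * (q * u) = 12 * u := by rw [← hq]; ring
      rw [this, ← h0, ← hl, hu]; ring) ht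
  rw [← hl] at h1 h3
  refine ⟨ε, h1, h2, ?_⟩
  push_cast at h3 ⊢
  linarith

end Run7.h243.Dat
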