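import Pool.Agent.Run7.h243.G.Cores
import Pool.Agent.Run7.h243.Fam

set_option linter.unusedSectionVars false
set_option linter.unusedSimpArgs false
set_option maxRecDepth 100000

/-! Maps from a current graph alone. -/

namespace Run7.h243.G

open Equiv Run7.B243 Run7.h243

section pure

variable {n e c : ℕ} [NeZero n] (C : CayN n e c)

theorem aC2 (x : ZMod n × C.Lab) : aC C (aC C x) = x := (aC C).left_inv x

theorem aCne (q : ZMod n × C.Lab) : aC C q ≠ q := by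
  intro h
  rcases C.nune q.2 with h1 | h1
  · exact h1 (congrArg Prod.snd h)
  · apply h1
    have h2 := congrArg Prod.fst h
    rw [aC_apply] at h2
    simpa using h2

theorem cyc_sC : n * c ≤ Run7.B243.cyc (sC n C) := by
  classical
  have hcard : Nat.card (ZMod n × Quot (fun a b => b = (C.τ * C.ν) a)) = n * c := by
    have h1 : Nat.card (Quot (fun a b => b = (C.τ * C.ν) a)) = c := C.ncyc
    rw [Nat.card_prod, h1]
    simp only [Nat.card_eq_fintype_card, ZMod.card]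
  rw [← hcard]
  refine card_le_cyc _ (fun q => (q.1, cl (C.τ * C.ν) q.2)) ?_ ?_
  · intro x
    exact Prod.ext rfl (cl_apply (C.τ * C.ν) x.2)
  · rintro ⟨x, Q⟩
    induction Q using Quot.ind with
    | mk l => exact ⟨(x, l), rfl⟩

theorem parts_sC (x : ZMod n) :
    Nat.card {q : Quot (fun a b => b = sC n C a) // ∃ y : ZMod n × C.Lab, y.1 = x ∧ q = cl (sC n C) y} ≤
      c := by
  classical
  have h1 : Nat.card (Quot (fun a b => b = (C.τ * C.ν) a)) = c := C.ncyc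
  refine le_trans ?_ (le_of_eq h1)
  refine Nat.card_le_card_of_surjective (fun Q => ⟨cl (sC n C) (x, Q.out), ⟨_, rfl, rfl⟩⟩) ?_
  rintro ⟨q, y, hy, rfl⟩
  refine ⟨cl (C.τ * C.ν) y.2, Subtype.ext ?_⟩
  have e : cl (C.τ * C.ν) (cl (C.τ * C.ν) y.2).out = cl (C.τ * C.ν) y.2 := Quot.out_eq _
  have e2 := cl_map (C.τ * C.ν) (sC n C) (fun l => (x, l)) (fun _ => rfl) e
  refine e2.trans ?_
  subst hy
  rfl

theorem pure_goodE (l0 : C.Lab) (he : e + 1 = n)
    (hcov : ∀ g : ZMod n, g ≠ 0 → ∃ l, C.val l = g) :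
    ∃ ε : ℤ, GoodE true ε n c ∧ Even ε ∧ (n : ℤ) * (6 * (c : ℕ) + 1 - n) ≤ 6 * ε := by
  classical
  let f : ZMod n ≃ Fin n := Fintype.equivFinOfCardEq (ZMod.card n)
  have hg := goodE_of_rot (sC n C) (aC C) ⟨(0, l0)⟩ (aC2 C) (aCne C)
    (fun x y => C.conn x y) n c (fun x => f x.1) (fun x => rfl) (by
      intro x
      refine exact_parts (sC n C) (fun x => f x.1) (fun x => rfl) c ?_ ?_ x
      · intro x
        refine le_trans (le_of_eq ?_) (parts_sC C (f.symm x))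
        congr 1
        congr 1
        funext q
        apply propext
        constructor
        · rintro ⟨y, hy, hq⟩; exact ⟨y, by rw [← hy]; simp, hq⟩
        · rintro ⟨y, hy, hq⟩; exact ⟨y, by rw [hy]; simp, hq⟩
      · rw [Fintype.card_fin]; exact cyc_sC C) (by
      intro a b hab
      have hne : f.symm b - f.symm a ≠ 0 := by
        intro h; apply hab; exact f.symm.injective (sub_eq_zero.mp h).symm
      obtain ⟨l, hl⟩ := hcov _ hne
      refine ⟨(f.symm a, l), ?_, ?_⟩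
      · show f (f.symm a) = a; simp
      · show f (f.symm a + C.val l) = b
        rw [hl]; simp)
  refine ⟨_, hg, ?_, ?_⟩
  · have h1 := even_euler (sC n C) (aC C) (aC2 C) (aCne C)
    obtain ⟨t, ht⟩ := h1
    refine ⟨(t : ℤ) - Run7.B243.cyc (aC C), ?_⟩
    omega
  · have h1 := cyc_three (sC n C * aC C) ∅ ∅ 0 (by
      intro x _
      simp only [Perm.mul_apply]
      rw [phC, phC, phC]
      refine Prod.ext ?_ (C.cube _)
      show x.1 + C.val x.2 + C.val (C.τ x.2) + C.val (C.τ (C.τ x.2)) = x.1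
      have := C.sum x.2
      linear_combination this) (by simp) (by simp) (by simp)
    rw [cyc_comm] at h1
    have h2 := cyc_invol (aC C) (aC2 C) (aCne C)
    have h3 := cyc_sC C
    have h4 : Fintype.card (ZMod n × C.Lab) = n * (n - 1) := by
      rw [Fintype.card_prod, ZMod.card, C.card]
      congr 1
      omega
    have h5 : (n : ℤ) * (n - 1) = (Fintype.card (ZMod n × C.Lab) : ℕ) := by
      rw [h4]
      have : 1 ≤ n := Nat.one_le_iff_ne_zero.mpr (NeZero.ne n)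
      push_cast [this]; ring
    have h6 : (n : ℤ) * (c : ℕ) ≤ Run7.B243.cyc (sC n C) := by exact_mod_cast h3
    have h7 : ((Fintype.card (ZMod n × C.Lab) : ℕ) : ℤ) ≤
        3 * Run7.B243.cyc (aC C * sC n C) + (0 : ℕ) := by exact_mod_cast h1
    have h8 : 2 * (Run7.B243.cyc (aC C) : ℤ) = (Fintype.card (ZMod n × C.Lab) : ℕ) := by
      exact_mod_cast h2
    have h9 : (n : ℤ) * (6 * (c : ℕ) + 1 - n) = 6 * (n * (c : ℕ)) - n * (n - 1) := by ring
    rw [h9]
    push_cast at h7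
    linarith

end pure

theorem cayE (l k : ℕ) (hk : k ≤ l + 1) :
    ∃ v1 v2, Nonempty (CayU (fun u => 1 ≤ u ∧ u ≤ 3 * (2 * l + 4)) (2 * l + 4) (2 * l + 4 - 2 * k) v1 v2) := by
  obtain ⟨t, t1, t2, t3, t4⟩ := chain coreE_ok (vl_tri (V := corevE) (l := l) coreE_ok corevE_ok) _ okmE k
    (M := 2 * l) (by simp only [List.length_cons, List.length_nil]; omega)
  exact ⟨_, _, cayU_of (M := 2 * l) (l := l) coreE_ok corevE_ok rfl listE listE_in listE_1 listE_0 _ (by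
    intro u hu
    have hG : corevE.G = 1 := rfl
    refine ⟨hu.1, ?_, ?_⟩
    · intro h
      have : u = 1 := by omega
      subst this; decide
    · have : corevE.a = 3 ∧ corevE.b = 1 ∧ corevE.c = 0 := ⟨rfl, rfl, rfl⟩
      omega) _ _ (by omega) t t1 (by omega) t3 0 (t4 0 (by simp))⟩

theorem cayO (l k : ℕ) (hk : k ≤ l + 2) :
    ∃ v1 v2, Nonempty (CayU (fun u => 1 ≤ u ∧ u ≤ 3 * (2 * l + 5)) (2 * l + 5) (2 * l + 5 - 2 * k) v1 v2) := by
  obtain ⟨t, t1, t2, t3, t4⟩ := chain coreO_ok (vl_tri (V := corevO) (l := l) coreO_ok corevO_ok) _ okmO k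
    (M := 2 * l) (by simp only [List.length_cons, List.length_nil]; omega)
  exact ⟨_, _, cayU_of (M := 2 * l) (l := l) coreO_ok corevO_ok rfl listO listO_in listO_1 listO_0 _ (by
    intro u hu
    have hG : corevO.G = 1 := rfl
    refine ⟨hu.1, ?_, ?_⟩
    · intro h
      have : u = 1 := by omega
      subst this; decide
    · have : corevO.a = 4 ∧ corevO.b = 1 ∧ corevO.c = 2 := ⟨rfl, rfl, rfl⟩
      omega) _ _ (by omega) t t1 (by omega) t3 0 (t4 0 (by simp))⟩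

theorem cay_all (k m : ℕ) (hk : 4 ≤ k) (hm : 1 ≤ m) (hmk : m ≤ k) (hp : (m + k) % 2 = 0) :
    ∃ v1 v2, Nonempty (CayU (fun u => 1 ≤ u ∧ u ≤ 3 * k) k m v1 v2) := by
  obtain hk2 | hk2 : k % 2 = 0 ∨ k % 2 = 1 := by omega
  · obtain ⟨l, rfl⟩ : ∃ l, k = 2 * l + 4 := ⟨(k - 4) / 2, by omega⟩
    obtain ⟨j, hj⟩ : ∃ j, m = 2 * l + 4 - 2 * j ∧ j ≤ l + 1 := ⟨(2 * l + 4 - m) / 2, by omega⟩
    rw [hj.1]; exact cayE l j hj.2
  · obtain ⟨l, rfl⟩ : ∃ l, k = 2 * l + 5 := ⟨(k - 5) / 2, by omega⟩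
    obtain ⟨j, hj⟩ : ∃ j, m = 2 * l + 5 - 2 * j ∧ j ≤ l + 2 := ⟨(2 * l + 5 - m) / 2, by omega⟩
    rw [hj.1]; exact cayO l j hj.2

/-- the residue `1`, countries as many as parts modulo `2` -/
theorem opt_pure (k m : ℕ) (hk : 4 ≤ k) (hm : 1 ≤ m) (hmk : m ≤ k) (hp : (m + k) % 2 = 0) :
    Opt (6 * k + 1) m := by
  obtain ⟨v1, v2, ⟨C⟩⟩ := cay_all k m hk hm hmk hp
  have hN : NeZero (6 * k + 1) := ⟨by omega⟩
  have hμ : ∀ x : ZMod (6 * k + 1), ∃ z : ℤ, x = (((1 : ℤ) * z : ℤ) : ZMod (6 * k + 1)) := by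
    intro x
    refine ⟨x.val, ?_⟩
    rw [one_mul]; simp
  obtain ⟨ε, h1, h2, h3⟩ := pure_goodE (C.toN (6 * k + 1) 1 hμ) C.t1 rfl (by
    intro g hg
    have hlt := ZMod.val_lt g
    have hne : g.val ≠ 0 := fun e => hg ((ZMod.val_eq_zero g).mp e)
    have hgv : g = ((g.val : ℤ) : ZMod (6 * k + 1)) := by simp
    by_cases h : g.val ≤ 3 * k
    · obtain ⟨x, hx⟩ := C.cov g.val ⟨by omega, h⟩
      refine ⟨x, ?_⟩
      show (((1 : ℤ) * C.val x : ℤ) : ZMod (6 * k + 1)) = g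
      rw [hx, one_mul]; exact hgv.symm
    · obtain ⟨x, hx⟩ := C.cov (6 * k + 1 - g.val) ⟨by omega, by omega⟩
      refine ⟨C.ν x, ?_⟩
      show (((1 : ℤ) * C.val (C.ν x) : ℤ) : ZMod (6 * k + 1)) = g
      rw [C.nuval, hx, one_mul]
      have e : (-((6 * k + 1 - g.val : ℕ) : ℤ)) = (g.val : ℤ) - (6 * k + 1 : ℕ) := by omega
      rw [e, Int.cast_sub, Int.cast_natCast (6 * k + 1), ZMod.natCast_self, sub_zero]
      exact hgv.symm)
  exact ⟨ε, h1, h2, by linarith⟩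

end Run7.h243.G
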