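import Pool.Agent.Run7.h243.G.Dir

set_option linter.unusedSectionVars false
set_option linter.unusedSimpArgs false

/-! Current graphs given by tables, and the maps they give. -/

namespace Run7.h243

open Equiv Run7.B243 Run7.h243.G

/-- number of cycles from names -/
theorem cyc_eq_of {D : Type} (f : Perm D) (c : ℕ) (G : D → ℕ) (hG : ∀ x, G (f x) = G x)
    (hlt : ∀ x, G x < c) (rep : ∀ i < c, ∃ x, G x = i) (hcl : ∀ x y, G x = G y → cl f x = cl f y) :
    cyc f = c := by
  have h : cyc f = Nat.card (Fin c) := by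
    unfold cyc
    refine Nat.card_eq_of_bijective
      (Quot.lift (fun l => (⟨G l, hlt l⟩ : Fin c)) (by
        intro a b h; subst h; apply Fin.ext; exact (hG a).symm)) ⟨?_, ?_⟩
    · intro q q' h
      induction q using Quot.ind with
      | mk l =>
      induction q' using Quot.ind with
      | mk l' =>
      exact hcl l l' (congrArg Fin.val h)
    · intro j
      obtain ⟨x, hx⟩ := rep j.val j.isLt
      exact ⟨Quot.mk _ x, Fin.ext hx⟩
  rw [h]; simp

structure CTab where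
  n : ℕ
  e : ℕ
  c : ℕ
  T : ℕ
  V : ℕ
  NU : ℕ
  CY : ℕ
  IX : ℕ
  RP : ℕ
  PR : ℕ
  walk : List ℕ

namespace CTab

variable (C : CTab)

def t (l : ℕ) : ℕ := dg 128 C.T l
def v (l : ℕ) : ℕ := dg 128 C.V l
def nu (l : ℕ) : ℕ := dg 128 C.NU l
def cy (l : ℕ) : ℕ := dg 16 C.CY l
def ix (l : ℕ) : ℕ := dg 128 C.IX l
def rp (i : ℕ) : ℕ := dg 128 C.RP i
def pr (i : ℕ) : ℕ := dg 128 C.PR i
/-- previous arc of the circuit -/
def pi' (l : ℕ) : ℕ := C.nu (C.t (C.t l))

def okl (l : ℕ) : Bool :=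
  decide (C.t l < C.e) && decide (C.nu l < C.e) && (C.t (C.t (C.t l)) == l) && (C.nu (C.nu l) == l) &&
  !(C.nu l == l) && ((C.v l + C.v (C.t l) + C.v (C.t (C.t l))) % C.n == 0) &&
  ((C.v l + C.v (C.nu l)) % C.n == 0) && (C.cy (C.t (C.nu l)) == C.cy l) && decide (C.cy l < C.c) &&
  ((l == C.rp (C.cy l)) || (C.ix l == C.ix (C.pi' l) + 1))

def oki (i : ℕ) : Bool := decide (C.rp i < C.e) && (C.cy (C.rp i) == i) &&
  ((i == 0) || (decide (C.pr i < C.e) && (C.cy (C.pr i) == i) && decide (C.cy (C.nu (C.pr i)) < i)))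

def wk : List ℕ → ℕ → ℕ → Bool
  | [], i, s => (i == 0) && (s % C.n == 1)
  | l :: w, i, s => decide (l < C.e) && (C.cy l == i) && wk w (C.cy (C.nu l)) (s + C.v l)

structure Ok : Prop where
  hn : 1 < C.n
  he : 0 < C.e
  hc : 0 < C.c
  k1 : ∀ l < C.e, C.okl l = true
  k2 : ∀ i < C.c, C.oki i = true
  k3 : C.wk C.walk 0 0 = true

variable {C} (ok : C.Ok)

include ok

theorem Ok.l (l : ℕ) (h : l < C.e) : C.t l < C.e ∧ C.nu l < C.e ∧ C.t (C.t (C.t l)) = l ∧
    C.nu (C.nu l) = l ∧ C.nu l ≠ l ∧ (C.v l + C.v (C.t l) + C.v (C.t (C.t l))) % C.n = 0 ∧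
    (C.v l + C.v (C.nu l)) % C.n = 0 ∧ C.cy (C.t (C.nu l)) = C.cy l ∧ C.cy l < C.c ∧
    (l = C.rp (C.cy l) ∨ C.ix l = C.ix (C.pi' l) + 1) := by
  have h := ok.k1 l h
  simp only [okl, Bool.and_eq_true, Bool.or_eq_true, decide_eq_true_eq, beq_iff_eq,
    Bool.not_eq_true', beq_eq_false_iff_ne] at h
  tauto

theorem Ok.i (i : ℕ) (h : i < C.c) : C.rp i < C.e ∧ C.cy (C.rp i) = i ∧
    (i = 0 ∨ (C.pr i < C.e ∧ C.cy (C.pr i) = i ∧ C.cy (C.nu (C.pr i)) < i)) := by
  have h := ok.k2 i h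
  simp only [oki, Bool.and_eq_true, Bool.or_eq_true, decide_eq_true_eq, beq_iff_eq] at h
  tauto

def fe (ok : C.Ok) (k : ℕ) : Fin C.e := ⟨k % C.e, Nat.mod_lt _ ok.he⟩

theorem fe_val {k : ℕ} (hk : k < C.e) : (fe ok k).val = k := Nat.mod_eq_of_lt hk
theorem fe_self (p : Fin C.e) : fe ok p.val = p := Fin.ext (Nat.mod_eq_of_lt p.isLt)

def pt (ok : C.Ok) : Perm (Fin C.e) where
  toFun l := fe ok (C.t l)
  invFun l := fe ok (C.t (C.t l))
  left_inv l := by
    have h := ok.l l l.isLt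
    show fe ok (C.t (C.t (fe ok (C.t l)).val)) = l
    rw [fe_val ok h.1, h.2.2.1, fe_self]
  right_inv l := by
    have h := ok.l l l.isLt
    have h2 := ok.l _ h.1
    show fe ok (C.t (fe ok (C.t (C.t l))).val) = l
    rw [fe_val ok h2.1, h.2.2.1, fe_self]

def pn (ok : C.Ok) : Perm (Fin C.e) where
  toFun l := fe ok (C.nu l)
  invFun l := fe ok (C.nu l)
  left_inv l := by
    have h := ok.l l l.isLt
    show fe ok (C.nu (fe ok (C.nu l)).val) = l
    rw [fe_val ok h.2.1, h.2.2.2.1, fe_self]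
  right_inv l := by
    have h := ok.l l l.isLt
    show fe ok (C.nu (fe ok (C.nu l)).val) = l
    rw [fe_val ok h.2.1, h.2.2.2.1, fe_self]

theorem pt_val (l : Fin C.e) : (pt ok l).val = C.t l := fe_val ok (ok.l l l.isLt).1
theorem pn_val (l : Fin C.e) : (pn ok l).val = C.nu l := fe_val ok (ok.l l l.isLt).2.1

theorem cl_rp (N : ℕ) : ∀ l : Fin C.e, C.ix l < N →
    cl (pt ok * pn ok) l = cl (pt ok * pn ok) (fe ok (C.rp (C.cy l))) := by
  induction N with
  | zero => intro l h; omega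
  | succ N ih =>
    intro l hl
    have h := ok.l l l.isLt
    rcases h.2.2.2.2.2.2.2.2.2 with h7 | h7
    · rw [← h7, fe_self]
    · -- previous arc
      have ht := ok.l _ h.1
      have htt := ok.l _ ht.1
      have hp : C.pi' l < C.e := htt.2.1
      have v : (fe ok (C.pi' l)).val = C.pi' l := fe_val ok hp
      have e : (pt ok * pn ok) (fe ok (C.pi' l)) = l := by
        rw [Perm.mul_apply]
        apply Fin.ext
        rw [pt_val, pn_val, v]
        show C.t (C.nu (C.nu (C.t (C.t l)))) = l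
        rw [htt.2.2.2.1]; exact h.2.2.1
      have e2 : cl (pt ok * pn ok) l = cl (pt ok * pn ok) (fe ok (C.pi' l)) := by
        conv_lhs => rw [← e]
        exact cl_apply _ _
      have e3 : C.cy (C.pi' l) = C.cy l := by
        have := (ok.l _ hp).2.2.2.2.2.2.2.1
        rw [← this]
        congr 1
        show C.t (C.nu (C.nu (C.t (C.t l)))) = l
        rw [htt.2.2.2.1]; exact h.2.2.1
      rw [e2, ih _ (by rw [v]; omega), v, e3]

theorem cl_of_cy (l l' : Fin C.e) (h : C.cy l = C.cy l') :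
    cl (pt ok * pn ok) l = cl (pt ok * pn ok) l' := by
  rw [cl_rp ok _ l (Nat.lt_succ_self _), cl_rp ok _ l' (Nat.lt_succ_self _), h]

theorem nneC : NeZero C.n := ⟨by have := ok.hn; omega⟩

omit ok in
def vz (C : CTab) (l : Fin C.e) : ZMod C.n := (C.v l : ZMod C.n)

omit ok in
/-- moves -/
def RN (ok : C.Ok) (a b : ZMod C.n × Fin C.e) : Prop :=
  b = (a.1, pt ok (pn ok a.2)) ∨ b = (a.1 + vz C a.2, pn ok a.2)

theorem rn_cl {x y : Fin C.e} (h : C.cy x = C.cy y) (z : ZMod C.n) :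
    Relation.EqvGen (RN ok) (z, x) (z, y) := by
  have h' := Quot.eqvGen_exact (cl_of_cy ok x y h)
  clear h
  induction h' with
  | rel a b hr => subst hr; exact Relation.EqvGen.rel _ _ (Or.inl rfl)
  | refl a => exact Relation.EqvGen.refl _
  | symm a b hab ih => exact ih.symm
  | trans a b c hab hbc ih1 ih2 => exact ih1.trans _ _ _ ih2

theorem wk_spec (w : List ℕ) : ∀ (i s : ℕ), C.wk w i s = true → ∀ (l : Fin C.e), C.cy l = i →
    ∀ z : ZMod C.n, ∃ l' : Fin C.e, C.cy l' = 0 ∧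
      Relation.EqvGen (RN ok) (z, l) (z - (s : ZMod C.n) + 1, l') := by
  induction w with
  | nil =>
    intro i s h l hl z
    simp only [wk, Bool.and_eq_true, beq_iff_eq] at h
    have := nneC ok
    refine ⟨l, by rw [hl]; exact h.1, ?_⟩
    have e : (s : ZMod C.n) = 1 := by
      have : ((s % C.n : ℕ) : ZMod C.n) = ((1 : ℕ) : ZMod C.n) := by rw [h.2]
      rw [ZMod.natCast_mod] at this
      simpa using this
    rw [e, sub_add_cancel]
    exact Relation.EqvGen.refl _
  | cons a w ih =>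
    intro i s h l hl z
    simp only [wk, Bool.and_eq_true, decide_eq_true_eq, beq_iff_eq] at h
    obtain ⟨⟨h1, h2⟩, h3⟩ := h
    have va : (fe ok a).val = a := fe_val ok h1
    have s1 := rn_cl ok (x := l) (y := fe ok a) (by rw [va, h2, hl]) z
    have s2 : Relation.EqvGen (RN ok) (z, fe ok a) (z + vz C (fe ok a), pn ok (fe ok a)) :=
      Relation.EqvGen.rel _ _ (Or.inr rfl)
    obtain ⟨l', hl', h4⟩ := ih _ _ h3 (pn ok (fe ok a)) (by rw [pn_val, va]) (z + vz C (fe ok a))
    refine ⟨l', hl', ?_⟩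
    have e : z + vz C (fe ok a) - ((s + C.v a : ℕ) : ZMod C.n) + 1 = z - (s : ZMod C.n) + 1 := by
      unfold vz; rw [va]; push_cast; ring
    rw [e] at h4
    exact (s1.trans _ _ _ s2).trans _ _ _ h4

theorem conn (p q : ZMod C.n × Fin C.e) : Relation.EqvGen (RN ok) p q := by
  have := nneC ok
  obtain ⟨b1, b2, _⟩ := ok.i 0 ok.hc
  set b := fe ok (C.rp 0) with hb
  have vb : b.val = C.rp 0 := fe_val ok b1
  have cb : C.cy b = 0 := by rw [vb]; exact b2
  have step : ∀ z : ZMod C.n, Relation.EqvGen (RN ok) (z, b) (z + 1, b) := by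
    intro z
    obtain ⟨l', h1, h2⟩ := wk_spec ok C.walk 0 0 ok.k3 b cb z
    have h3 := rn_cl ok (x := l') (y := b) (by rw [h1, cb]) (z - ((0 : ℕ) : ZMod C.n) + 1)
    have := h2.trans _ _ _ h3
    simpa using this
  have steps : ∀ (k : ℕ) (z : ZMod C.n), Relation.EqvGen (RN ok) (z, b) (z + k, b) := by
    intro k
    induction k with
    | zero => intro z; simpa using Relation.EqvGen.refl _
    | succ k ih =>
      intro z
      have := (ih z).trans _ _ _ (step _)
      have e : z + (k : ZMod C.n) + 1 = z + ((k + 1 : ℕ) : ZMod C.n) := by push_cast; ring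
      rwa [e] at this
  have tob : ∀ (N : ℕ) (l : Fin C.e), C.cy l < N → ∀ z, ∃ z', Relation.EqvGen (RN ok) (z, l) (z', b) := by
    intro N
    induction N with
    | zero => intro l h; omega
    | succ N ih =>
      intro l hl z
      have hc := (ok.l l l.isLt).2.2.2.2.2.2.2.2.1
      obtain ⟨_, _, h3⟩ := ok.i _ hc
      rcases h3 with h3 | ⟨h3, h4, h5⟩
      · exact ⟨z, rn_cl ok (by rw [h3, cb]) z⟩
      · have vp : (fe ok (C.pr (C.cy l))).val = C.pr (C.cy l) := fe_val ok h3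
        have s1 := rn_cl ok (x := l) (y := fe ok (C.pr (C.cy l))) (by rw [vp, h4]) z
        have s2 : Relation.EqvGen (RN ok) (z, fe ok (C.pr (C.cy l)))
          (z + vz C (fe ok (C.pr (C.cy l))), pn ok (fe ok (C.pr (C.cy l)))) :=
          Relation.EqvGen.rel _ _ (Or.inr rfl)
        obtain ⟨z', hz'⟩ := ih (pn ok (fe ok (C.pr (C.cy l)))) (by rw [pn_val, vp]; omega)
          (z + vz C (fe ok (C.pr (C.cy l))))
        exact ⟨z', (s1.trans _ _ _ s2).trans _ _ _ hz'⟩
  obtain ⟨p1, p2⟩ := p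
  obtain ⟨q1, q2⟩ := q
  obtain ⟨z, hz⟩ := tob _ p2 (Nat.lt_succ_self _) p1
  obtain ⟨z', hz'⟩ := tob _ q2 (Nat.lt_succ_self _) q1
  have m := steps (z' - z).val z
  have e : z + ((z' - z).val : ZMod C.n) = z' := by
    rw [ZMod.natCast_zmod_val]; ring
  rw [e] at m
  exact (hz.trans _ _ _ m).trans _ _ _ hz'.symm

omit ok in
/-- the current graph of a table -/
def toCay (ok : C.Ok) : CayN C.n C.e C.c where
  Lab := Fin C.e
  fin := inferInstance
  dec := inferInstance
  τ := pt ok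
  ν := pn ok
  val := vz C
  cube x := by
    have h := ok.l x x.isLt
    apply Fin.ext
    rw [pt_val, pt_val, pt_val]; exact h.2.2.1
  sum x := by
    have h := ok.l x x.isLt
    unfold vz
    rw [pt_val, pt_val, pt_val, ← Nat.cast_add, ← Nat.cast_add, ZMod.natCast_eq_zero_iff]
    exact Nat.dvd_of_mod_eq_zero h.2.2.2.2.2.1
  nu2 x := by
    have h := ok.l x x.isLt
    apply Fin.ext
    rw [pn_val, pn_val]; exact h.2.2.2.1
  nune x := by
    left
    intro h
    have := congrArg Fin.val h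
    rw [pn_val] at this
    exact (ok.l x x.isLt).2.2.2.2.1 this
  nuval x := by
    have h := ok.l x x.isLt
    unfold vz
    rw [pn_val, eq_neg_iff_add_eq_zero, ← Nat.cast_add, ZMod.natCast_eq_zero_iff, Nat.add_comm]
    exact Nat.dvd_of_mod_eq_zero h.2.2.2.2.2.2.1
  card := Fintype.card_fin _
  ncyc := cyc_eq_of _ C.c (fun x => C.cy x.val) (by
    intro x
    show C.cy (pt ok (pn ok x)).val = C.cy x
    rw [pt_val, pn_val]
    exact (ok.l x x.isLt).2.2.2.2.2.2.2.1) (fun x => (ok.l x x.isLt).2.2.2.2.2.2.2.2.1) (by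
    intro i hi
    obtain ⟨h1, h2, _⟩ := ok.i i hi
    exact ⟨fe ok (C.rp i), by simp only [fe_val ok h1, h2]⟩) (fun x y h => cl_of_cy ok x y h)
  conn := conn ok

end CTab

/-- the map from a table with a hole and a current graph -/
theorem dir_opt {D : Dir} (ok : D.OkH) {C : CTab} (okc : C.Ok) (hn : C.n = D.n)
    (hδ : D.big.length ≤ 8) (t1 : ℕ) (ht1 : t1 < C.e)
    (hX1 : D.X 1 = (D.X 0 + C.v t1) % D.n) (hX2 : D.X 2 = (D.X 1 + C.v (C.t t1)) % D.n)
    (hcov : ∀ g < D.n, g ≠ 0 → (∃ l < C.e, C.v l = g) ∨ ∃ p < D.d, D.of p = g)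
    (hcard : C.e + D.d + 1 = D.n) : Opt D.n (C.c + D.c0) := by
  obtain ⟨cn, e, c, T, V, NU, CY, IX, RP, PR, walk⟩ := C
  simp only at hn
  subst hn
  have := Dir.nne ok.toOk
  have vt : (CTab.fe okc t1).val = t1 := CTab.fe_val okc ht1
  obtain ⟨ε, h1, h2, h3⟩ := G.glue_goodE (CTab.toCay okc) (Dir.rsysD ok 5 (by omega)) (CTab.fe okc t1)
    (by
      show ((D.X 1 : ℕ) : ZMod D.n) = ((D.X 0 : ℕ) : ZMod D.n) + ((CTab.v _ (CTab.fe okc t1).val : ℕ) : ZMod D.n)
      rw [vt, hX1, ZMod.natCast_mod, Nat.cast_add])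
    (by
      show ((D.X 2 : ℕ) : ZMod D.n) = ((D.X 1 : ℕ) : ZMod D.n) +
        ((CTab.v _ (CTab.pt okc (CTab.fe okc t1)).val : ℕ) : ZMod D.n)
      rw [CTab.pt_val, vt, hX2, ZMod.natCast_mod, Nat.cast_add])
    (by
      intro g hg
      have hlt := ZMod.val_lt g
      have hne : g.val ≠ 0 := fun e => hg ((ZMod.val_eq_zero g).mp e)
      rcases hcov _ hlt hne with ⟨l, hl, hv⟩ | ⟨p, hp, hv⟩
      · left
        refine ⟨CTab.fe okc l, ?_⟩
        show ((CTab.v _ (CTab.fe okc l).val : ℕ) : ZMod D.n) = g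
        rw [CTab.fe_val okc hl, hv, ZMod.natCast_zmod_val]
      · right
        refine ⟨Dir.fz ok.toOk p, ?_⟩
        show Dir.off D (Dir.fz ok.toOk p).val = g
        unfold Dir.off
        rw [Dir.fz_val ok.toOk hp, hv, ZMod.natCast_zmod_val])
    (by
      show e + Fintype.card (Fin D.d) + 1 = D.n
      rw [Fintype.card_fin]; exact hcard)
  refine ⟨ε, h1, h2, ?_⟩
  push_cast at h3 ⊢
  linarith

/-- the map from a current graph alone -/
theorem ctab_opt {C : CTab} (okc : C.Ok)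
    (hcov : ∀ g < C.n, g ≠ 0 → ∃ l < C.e, C.v l = g) (hcard : C.e + 1 = C.n) : Opt C.n C.c := by
  have := CTab.nneC okc
  obtain ⟨ε, h1, h2, h3⟩ := G.pure_goodE (CTab.toCay okc) (CTab.fe okc 0) hcard (by
      intro g hg
      have hlt := ZMod.val_lt g
      have hne : g.val ≠ 0 := fun e => hg ((ZMod.val_eq_zero g).mp e)
      obtain ⟨l, hl, hv⟩ := hcov _ hlt hne
      refine ⟨CTab.fe okc l, ?_⟩
      show ((CTab.v _ (CTab.fe okc l).val : ℕ) : ZMod C.n) = g
      rw [CTab.fe_val okc hl, hv, ZMod.natCast_zmod_val])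
  exact ⟨ε, h1, h2, by linarith⟩

/-- the map from a table alone -/
theorem whole_opt {D : Dir} (ok : D.Ok) (hh : D.hole = false) (hδ : D.big.length ≤ 8)
    (hcov : ∀ g < D.n, g ≠ 0 → ∃ p < D.d, D.of p = g) (hcard : D.d + 1 = D.n) : Opt D.n D.c0 := by
  classical
  have := Dir.nne ok
  have hnc : ∀ x, D.nc x = D.c0 := by
    intro x
    rcases Dir.nc_cases (D := D) x with ⟨h, _⟩ | ⟨_, h⟩
    · rw [Dir.isH_iff, hh] at h; simp at h
    · exact h
  have hcyc : Run7.B243.cyc (Dir.sgD ok) = D.n * D.c0 := by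
    have h1 : Run7.B243.cyc (Dir.sgD ok) = Nat.card (ZMod D.n × Fin D.c0) := by
      unfold cyc
      refine Nat.card_eq_of_bijective
        (Quot.lift (fun q => (q.1, (⟨Dir.cyz q, by
          have := Dir.cyz_lt ok q; rwa [hnc] at this⟩ : Fin D.c0))) (by
          intro a b h; subst h
          refine Prod.ext rfl (Fin.ext ?_)
          obtain ⟨h1, h2, h3, h4, h5, _⟩ := ok.c _ _ (Dir.vlt ok a.1) a.2.isLt
          rw [Dir.sgD_apply]
          unfold Dir.cyz
          simp only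
          rw [Dir.fz_val ok h1, h5])) ⟨?_, ?_⟩
      · intro q q' h
        induction q using Quot.ind with
        | mk l =>
        induction q' using Quot.ind with
        | mk l' =>
        exact Dir.cl_cyz' ok l l' (Prod.ext_iff.mp h).1 (congrArg Fin.val (Prod.ext_iff.mp h).2)
      · rintro ⟨x, i⟩
        obtain ⟨h1, h2⟩ := ok.r x.val i.val (Dir.vlt ok x) (by rw [hnc]; exact i.isLt)
        refine ⟨Quot.mk _ (x, Dir.fz ok (D.rp x.val i)), ?_⟩
        refine Prod.ext rfl (Fin.ext ?_)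
        show Dir.cyz (x, Dir.fz ok (D.rp x.val i)) = i
        unfold Dir.cyz
        simp only
        rw [Dir.fz_val ok h1, h2]
    rw [h1, Nat.card_prod]; simp
  have hconn : ∀ x y, Relation.EqvGen (fun a b => b = Dir.sgD ok a ∨ b = Dir.alD ok a) x y := by
    have hcle : ∀ {x y}, cl (Dir.sgD ok) x = cl (Dir.sgD ok) y →
        Relation.EqvGen (fun a b => b = Dir.sgD ok a ∨ b = Dir.alD ok a) x y := by
      intro x y h
      exact Relation.EqvGen.mono (fun a b h => Or.inl h) _ _ (Quot.eqvGen_exact h)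
    obtain ⟨r1, r2⟩ := ok.r 0 0 (by have := ok.hn; omega) (by
      rw [hnc]
      have h := Dir.cyz_lt ok ((0 : ZMod D.n), Dir.fz ok 0)
      rw [hnc] at h; omega)
    have base : ∀ N : ℕ, ∀ q : ZMod D.n × Fin D.d, Dir.rkz q < N →
        Relation.EqvGen (fun a b => b = Dir.sgD ok a ∨ b = Dir.alD ok a) q
          ((0 : ZMod D.n), Dir.fz ok (D.rp 0 0)) := by
      intro N
      induction N with
      | zero => intro q h; omega
      | succ N ih =>
        intro q hq
        rcases Dir.desc_q ok q with h | h | ⟨q', h1, h2, h3⟩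
        · exact absurd h.1 (by rw [hh]; simp)
        · refine hcle (Dir.cl_cyz' ok _ _ h.2.1 ?_)
          rw [h.2.2]
          unfold Dir.cyz
          simp only [ZMod.val_zero]
          rw [Dir.fz_val ok r1, r2]
        · have e1 := hcle (Dir.cl_cyz' ok q q' h1.symm h2.symm)
          have e2 : Relation.EqvGen (fun a b => b = Dir.sgD ok a ∨ b = Dir.alD ok a) q'
            (Dir.alD ok q') := Relation.EqvGen.rel _ _ (Or.inr rfl)
          exact (e1.trans _ _ _ e2).trans _ _ _ (ih _ (by omega))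
    intro x y
    exact (base _ x (Nat.lt_succ_self _)).trans _ _ _ (base _ y (Nat.lt_succ_self _)).symm
  let f : ZMod D.n ≃ Fin D.n := Fintype.equivFinOfCardEq (ZMod.card D.n)
  have hg := goodE_of_rot (Dir.sgD ok) (Dir.alD ok) ⟨(0, Dir.fz ok 0)⟩ (Dir.al2 ok) (Dir.alne ok)
    hconn D.n D.c0 (fun x => f x.1) (fun x => rfl) (by
      intro x
      refine exact_parts (Dir.sgD ok) (fun x => f x.1) (fun x => rfl) D.c0 ?_ ?_ x
      · intro x
        refine le_trans ?_ (le_of_eq (Nat.card_fin D.c0))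
        refine Nat.card_le_card_of_surjective (fun i : Fin D.c0 =>
          ⟨cl (Dir.sgD ok) (f.symm x, Dir.fz ok (D.rp (f.symm x).val i)), ⟨_, by simp, rfl⟩⟩) ?_
        rintro ⟨q, y, hy, rfl⟩
        have hy' : y.1 = f.symm x := by rw [← hy]; simp
        have hlt := Dir.cyz_lt ok y
        rw [hnc] at hlt
        refine ⟨⟨Dir.cyz y, hlt⟩, Subtype.ext ?_⟩
        show cl (Dir.sgD ok) (f.symm x, Dir.fz ok (D.rp (f.symm x).val (Dir.cyz y))) = _
        refine Dir.cl_cyz' ok _ _ hy'.symm ?_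
        obtain ⟨h1, h2⟩ := ok.r (f.symm x).val (Dir.cyz y) (Dir.vlt ok _) (by rw [hnc]; exact hlt)
        show D.cy (f.symm x).val (Dir.fz ok (D.rp (f.symm x).val (Dir.cyz y))).val = _
        rw [Dir.fz_val ok h1, h2]
      · rw [Fintype.card_fin, hcyc]) (by
      intro a b hab
      have hne : f.symm b - f.symm a ≠ 0 := by
        intro h; apply hab; exact f.symm.injective (sub_eq_zero.mp h).symm
      have hlt := ZMod.val_lt (f.symm b - f.symm a)
      have hne' : (f.symm b - f.symm a).val ≠ 0 := fun e => hne ((ZMod.val_eq_zero _).mp e)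
      obtain ⟨p, hp, hv⟩ := hcov _ hlt hne'
      refine ⟨(f.symm a, Dir.fz ok p), ?_, ?_⟩
      · show f (f.symm a) = a; simp
      · show f (f.symm a + Dir.off D (Dir.fz ok p).val) = b
        unfold Dir.off
        rw [Dir.fz_val ok hp, hv, ZMod.natCast_zmod_val]; simp)
  refine ⟨_, hg, ?_, ?_⟩
  · have h1 := even_euler (Dir.sgD ok) (Dir.alD ok) (Dir.al2 ok) (Dir.alne ok)
    obtain ⟨t, ht⟩ := h1
    refine ⟨(t : ℤ) - Run7.B243.cyc (Dir.alD ok), ?_⟩
    omega
  · have h1 := cyc_three (Dir.sgD ok * Dir.alD ok) ((D.big.map (Dir.q3 ok)).toFinset)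
      (((D.big.drop 3).map (Dir.q3 ok)).toFinset) 5 (by
        intro x hx
        simp only [Perm.mul_apply]
        refine Dir.tri_q ok x ?_
        intro hm
        apply hx
        simp only [Dir.exL, hh, Bool.false_eq_true, if_false, List.nil_append, List.mem_map] at hm
        obtain ⟨t, ht, h⟩ := hm
        simp only [List.mem_toFinset, List.mem_map]
        exact ⟨t, ht, (Dir.q3_of_codz ok (ok.vbig t ht).1 _ h).symm⟩) (by
        intro q hq
        simp only [List.mem_toFinset, List.mem_map] at hq ⊢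
        obtain ⟨t, ht, rfl⟩ := hq
        refine ⟨D.nx t, (ok.vbig t ht).2, ?_⟩
        rw [Perm.mul_apply, Dir.ph_q3 ok (ok.vbig t ht).1]) (by
        refine le_trans (List.toFinset_card_le _) ?_
        rw [List.length_map, List.length_drop]; omega) (Dir.toF _ _)
    rw [cyc_comm] at h1
    have h2 := cyc_invol (Dir.alD ok) (Dir.al2 ok) (Dir.alne ok)
    have h4 : Fintype.card (ZMod D.n × Fin D.d) = D.n * (D.n - 1) := by
      rw [Fintype.card_prod, ZMod.card, Fintype.card_fin]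
      congr 1
      omega
    have h5 : (D.n : ℤ) * (D.n - 1) = (Fintype.card (ZMod D.n × Fin D.d) : ℕ) := by
      rw [h4]
      have : 1 ≤ D.n := by have := ok.hn; omega
      push_cast [this]; ring
    have h6 : (Run7.B243.cyc (Dir.sgD ok) : ℤ) = D.n * D.c0 := by rw [hcyc]; push_cast; ring
    have h7 : ((Fintype.card (ZMod D.n × Fin D.d) : ℕ) : ℤ) ≤
        3 * Run7.B243.cyc (Dir.alD ok * Dir.sgD ok) + (5 : ℕ) := by exact_mod_cast h1
    have h8 : 2 * (Run7.B243.cyc (Dir.alD ok) : ℤ) = (Fintype.card (ZMod D.n × Fin D.d) : ℕ) := by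
      exact_mod_cast h2
    have h9 : (D.n : ℤ) * (6 * (D.c0 : ℕ) + 1 - D.n) = 6 * (D.n * D.c0) - D.n * (D.n - 1) := by ring
    rw [h9]
    push_cast at h7
    linarith

end Run7.h243
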