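import Pool.Agent.Run7.h243.G.Lad

set_option linter.unusedSectionVars false
set_option linter.unusedSimpArgs false

/-! Reducing the number of circuits two by two. -/

namespace Run7.h243.G

open Equiv Run7.B243

variable {N J : ℕ} {K : Core N J} {M : ℕ} (hK : K.Ok)

/-- the vertex of an arc -/
def vid {N M : ℕ} : LL N M → ℕ
  | Sum.inl c => c.val / 3
  | Sum.inr (i, K6.tp) => N + 2 * i.val
  | Sum.inr (i, K6.tn) => N + 2 * i.val
  | Sum.inr (i, K6.tr) => N + 2 * i.val
  | Sum.inr (i, K6.up) => N + 1 + 2 * i.val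
  | Sum.inr (i, K6.un) => N + 1 + 2 * i.val
  | Sum.inr (i, K6.ur) => N + 1 + 2 * i.val

include hK in
theorem vid_ltau (l : LL N M) : vid (ltau K M l) = vid l := by
  rcases l with c | ⟨i, k⟩
  · exact hK.tauv c
  · cases k <;> rfl

/-- the state of the process -/
structure St (val : LL N M → ℤ) (t : Perm (LL N M)) (k : ℕ) (B : Finset ℕ) (V : ℕ → Prop) : Prop where
  tri : Tri val t
  num : cyc (t * pnu hK M) + 2 * k = J + M
  coarse : ∀ x y, cl (ppi hK M) x = cl (ppi hK M) y → cl (t * pnu hK M) x = cl (t * pnu hK M) y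
  zero : 0 ∈ B
  inv : ∀ x, col B 0 (name K M ((t * pnu hK M) x)) = col B 0 (name K M x)
  same : ∀ l, ¬ V (vid l) → t l = ltau K M l

variable {hK}

theorem St.step {val : LL N M → ℤ} {t : Perm (LL N M)} {k : ℕ} {B : Finset ℕ} {V : ℕ → Prop}
    (h : St hK val t k B V) (a : LL N M) (hv : ¬ V (vid a)) (ha : name K M a ∈ B)
    (hb : name K M (ltau K M a) ∉ B) (hc : name K M (ltau K M (ltau K M a)) ∉ B)
    (hbc : name K M (ltau K M a) ≠ name K M (ltau K M (ltau K M a))) :
    St hK val (flipv t a) (k + 1) (insert (name K M (ltau K M a))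
      (insert (name K M (ltau K M (ltau K M a))) B)) (fun v => V v ∨ v = vid a) := by
  have e1 : t a = ltau K M a := h.same a hv
  have e2 : t (t a) = ltau K M (ltau K M a) := by
    rw [e1]; exact h.same _ (by rwa [vid_ltau hK])
  obtain ⟨m1, m2, m3⟩ := flip_merge t (pnu hK M) (name K M) B 0 h.zero h.inv a ha
    (by rw [e1]; exact hb) (by rw [e2]; exact hc) (by rw [e2, e1]; exact hbc)
  rw [e2, e1] at m3
  refine ⟨flipv_tri h.tri a, ?_, ?_, ?_, m3, ?_⟩
  · have := h.num; omega
  · intro x y hxy; exact m2 x y (h.coarse x y hxy)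
  · exact Finset.mem_insert_of_mem (Finset.mem_insert_of_mem h.zero)
  · intro l hl
    push Not at hl
    rw [flipv_o h.tri a, h.same l hl.1]
    · rintro rfl; exact hl.2 rfl
    · rintro rfl; rw [e1, vid_ltau hK] at hl; exact hl.2 rfl
    · rintro rfl; rw [e2, vid_ltau hK, vid_ltau hK] at hl; exact hl.2 rfl

variable (hK)

theorem st_zero {val : LL N M → ℤ} (hv : Tri val (ptau hK M)) :
    St hK val (ptau hK M) 0 {0} (fun _ => False) := by
  refine ⟨hv, ?_, fun x y h => h, by simp, ?_, fun l _ => rfl⟩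
  · have := cyc_ppi hK (M := M)
    show cyc (ppi hK M) + 2 * 0 = J + M
    omega
  · intro x
    rw [show ptau hK M * pnu hK M = ppi hK M from rfl, name_pi hK]

theorem st_ladder {val : LL N M → ℤ} (hv : Tri val (ptau hK M)) (j : ℕ) (hj : 2 * j ≤ M) :
    ∃ t, St hK val t j (insert 0 (Finset.Ico J (J + 2 * j))) (fun v => N ≤ v ∧ v < N + 4 * j) := by
  induction j with
  | zero =>
    refine ⟨ptau hK M, ?_⟩
    have := st_zero hK hv
    simpa using ⟨this.tri, this.num, this.coarse, by simp, by simpa using this.inv, fun l _ => rfl⟩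
  | succ j ih =>
    obtain ⟨t, ht⟩ := ih (by omega)
    let i : Fin (M + 1) := ⟨2 * j + 1, by omega⟩
    have hi : i.val = 2 * j + 1 := rfl
    have n1 : name K M (ltau K M (Sum.inr (i, K6.tn))) = J + (2 * j + 1) := by
      show (if i.val = M then K.nm K.bT else J + i.val) = _
      rw [if_neg (by omega)]
    have n2 : name K M (ltau K M (ltau K M (Sum.inr (i, K6.tn)))) = J + 2 * j := by
      show (if i.val = 0 then K.nm K.aU else J + i.val - 1) = _
      rw [if_neg (by omega)]; omega
    have s := ht.step (Sum.inr (i, K6.tn)) (by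
        show ¬ (N ≤ N + 2 * i.val ∧ N + 2 * i.val < N + 4 * j)
        omega)
      (by show K.nm K.aT ∈ _; rw [hK.nmaT]; simp)
      (by rw [n1]; simp) (by rw [n2]; have := hK.nm9 K.aT; simp; omega) (by rw [n1, n2]; omega)
    rw [n1, n2] at s
    refine ⟨flipv t (Sum.inr (i, K6.tn)), ⟨s.tri, s.num, s.coarse, by simp, ?_, ?_⟩⟩
    · have e : (insert 0 (Finset.Ico J (J + 2 * (j + 1))) : Finset ℕ) =
          insert (J + (2 * j + 1)) (insert (J + 2 * j) (insert 0 (Finset.Ico J (J + 2 * j)))) := by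
        ext x; simp only [Finset.mem_insert, Finset.mem_Ico]; omega
      rw [e]; exact s.inv
    · intro l hl
      apply s.same
      rintro (h | h)
      · apply hl; omega
      · apply hl
        rw [h]
        show N ≤ N + 2 * i.val ∧ N + 2 * i.val < N + 4 * (j + 1)
        omega

/-- conditions for the reversals in the core -/
def okm (K : Core N J) : Finset ℕ → List ℕ → List (Fin N) → Prop
  | _, _, [] => True
  | S, W, m :: r => K.nm m ∈ S ∧ K.nm (K.tau m) ∉ S ∧ K.nm (K.tau (K.tau m)) ∉ S ∧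
      K.nm (K.tau m) ≠ K.nm (K.tau (K.tau m)) ∧ m.val / 3 ∉ W ∧
      okm K (insert (K.nm (K.tau m)) (insert (K.nm (K.tau (K.tau m))) S)) (m.val / 3 :: W) r

instance decOkm (K : Core N J) : ∀ S W r, Decidable (okm K S W r)
  | _, _, [] => isTrue trivial
  | S, W, m :: r => by
    have := decOkm K (insert (K.nm (K.tau m)) (insert (K.nm (K.tau (K.tau m))) S)) (m.val / 3 :: W) r
    unfold okm; infer_instance

theorem st_core {val : LL N M → ℤ} : ∀ (r : List (Fin N)) (S : Finset ℕ) (W : List ℕ) (t : Perm (LL N M))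
    (k : ℕ) (B : Finset ℕ) (V : ℕ → Prop), St hK val t k B V → (∀ x, x < J → (x ∈ B ↔ x ∈ S)) →
    (∀ v, v < N → V v → v ∈ W) → okm K S W r → 0 ∈ W →
    ∀ i, i ≤ r.length → ∃ t' B' V', St hK val t' (k + i) B' V' ∧ (V' 0 → V 0) := by
  intro r
  induction r with
  | nil =>
    intro S W t k B V hS hBS hVW _ _ i hi
    simp only [List.length_nil, Nat.le_zero] at hi
    subst hi
    exact ⟨t, B, V, hS, id⟩
  | cons m r ih =>
    intro S W t k B V hS hBS hVW hok h0 i hi
    rcases i with _ | i
    · exact ⟨t, B, V, hS, id⟩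
    obtain ⟨o1, o2, o3, o4, o5, o6⟩ := hok
    have l9 := hK.nm9
    have hm : m.val / 3 < N := by have := m.isLt; omega
    have s := hS.step (Sum.inl m) (fun h => o5 (hVW _ hm h)) ((hBS _ (l9 _)).mpr o1)
      (fun h => o2 ((hBS _ (l9 _)).mp h)) (fun h => o3 ((hBS _ (l9 _)).mp h)) o4
    obtain ⟨t', B', V', h1, h2⟩ := ih _ _ _ _ _ _ s (by
        intro x hx
        simp only [Finset.mem_insert, hBS x hx]
        rfl) (by
        rintro v hv (h | h)
        · exact List.mem_cons_of_mem _ (hVW v hv h)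
        · rw [h]; exact List.mem_cons_self) o6 (List.mem_cons_of_mem _ h0) i (by
        simp only [List.length_cons] at hi; omega)
    refine ⟨t', B', V', ?_, ?_⟩
    · have e : k + (i + 1) = k + 1 + i := by ring
      rw [e]; exact h1
    · intro h
      rcases h2 h with h | h
      · exact h
      · exfalso
        apply o5
        have : m.val / 3 = 0 := h.symm
        rw [this]; exact h0

/-- all numbers of circuits of the right parity -/
theorem chain {val : LL N M → ℤ} (hv : Tri val (ptau hK M)) (r : List (Fin N))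
    (hr : okm K {0} [0] r) (k : ℕ) (hk : k ≤ M / 2 + r.length) :
    ∃ t : Perm (LL N M), Tri val t ∧ cyc (t * pnu hK M) + 2 * k = J + M ∧
      (∀ x y, cl (ppi hK M) x = cl (ppi hK M) y → cl (t * pnu hK M) x = cl (t * pnu hK M) y) ∧
      (∀ c : Fin N, c.val / 3 = 0 → t (Sum.inl c) = Sum.inl (K.tau c)) := by
  by_cases h : k ≤ M / 2
  · obtain ⟨t, ht⟩ := st_ladder hK hv k (by omega)
    refine ⟨t, ht.tri, ht.num, ht.coarse, ?_⟩
    intro c hc
    refine ht.same _ ?_
    show ¬ (N ≤ c.val / 3 ∧ c.val / 3 < N + 4 * k)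
    omega
  · obtain ⟨t, ht⟩ := st_ladder hK hv (M / 2) (by omega)
    obtain ⟨t', B', V', h1, h2⟩ := st_core hK r {0} [0] t _ _ _ ht (by
      intro x hx; simp only [Finset.mem_insert, Finset.mem_Ico, Finset.mem_singleton]; omega) (by
      rintro v hv ⟨h1, h2⟩; omega) hr (by simp) (k - M / 2) (by omega)
    have e : M / 2 + (k - M / 2) = k := by omega
    rw [e] at h1
    refine ⟨t', h1.tri, h1.num, h1.coarse, ?_⟩
    intro c hc
    refine h1.same _ ?_
    show ¬ V' (c.val / 3)
    rw [hc]
    intro h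
    have := (h2 h).1
    omega

end Run7.h243.G
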