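import Pool.Agent.Run7.h243.G.Final

set_option linter.unusedSectionVars false
set_option linter.unusedSimpArgs false
set_option maxRecDepth 100000

/-! One more core. -/

namespace Run7.h243.G

open Equiv

def coreX : Core 78 2 where
  tau := fun c => Fin.ofNat 78 ((([1, 2, 0, 4, 5, 3, 7, 8, 6, 10, 11, 9, 13, 14, 12, 16, 17, 15, 19, 20, 18, 22, 23, 21, 25, 26, 24, 28, 29, 27, 31, 32, 30, 34, 35, 33, 37, 38, 36, 40, 41, 39, 43, 44, 42, 46, 47, 45, 49, 50, 48, 52, 53, 51, 55, 56, 54, 58, 59, 57, 61, 62, 60, 64, 65, 63, 67, 68, 66, 70, 71, 69, 73, 74, 72, 76, 77, 75] : List ℕ)).getD c.val 0)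
  nu := fun c => Fin.ofNat 78 ((([69, 32, 35, 6, 44, 5, 3, 7, 77, 75, 28, 14, 45, 25, 11, 18, 73, 61, 15, 70, 23, 27, 58, 20, 72, 13, 29, 21, 10, 26, 33, 37, 1, 30, 40, 2, 63, 31, 41, 66, 34, 38, 60, 43, 4, 12, 71, 74, 51, 64, 50, 48, 55, 62, 57, 52, 65, 54, 22, 68, 42, 17, 53, 36, 49, 56, 39, 76, 59, 0, 19, 46, 24, 16, 47, 9, 67, 8] : List ℕ)).getD c.val 0)
  aT := 5
  bT := 50
  aU := 43
  bU := 7
  nm := fun c => (([1, 1, 0, 0, 0, 0, 0, 0, 1, 0, 1, 1, 1, 1, 0, 0, 1, 1, 1, 0, 1, 1, 1, 1, 1, 0, 1, 1, 1, 1, 1, 0, 0, 0, 1, 1, 1, 0, 0, 0, 1, 1, 0, 0, 0, 1, 1, 0, 0, 1, 1, 1, 0, 0, 1, 0, 0, 0, 1, 1, 0, 0, 1, 0, 1, 1, 1, 0, 0, 1, 1, 0, 0, 1, 1, 1, 0, 0] : List ℕ)).getD c.val 0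
  rc := fun j => Fin.ofNat 78 ((([5, 0] : List ℕ)).getD j 0)
  pc := fun c => Fin.ofNat 78 ((([0, 69, 32, 43, 6, 0, 77, 3, 50, 14, 75, 28, 11, 45, 25, 61, 18, 73, 23, 15, 70, 20, 27, 58, 29, 72, 13, 26, 21, 10, 1, 33, 37, 2, 30, 40, 41, 63, 31, 38, 66, 34, 4, 60, 7, 74, 12, 71, 5, 51, 64, 62, 48, 55, 65, 57, 52, 68, 54, 22, 53, 42, 17, 56, 36, 49, 59, 39, 76, 46, 0, 19, 47, 24, 16, 8, 9, 67] : List ℕ)).getD c.val 0)
  ic := fun c => (([0, 9, 7, 33, 15, 0, 14, 34, 16, 25, 18, 5, 6, 34, 24, 18, 31, 22, 30, 19, 2, 3, 37, 29, 20, 23, 35, 36, 4, 19, 10, 9, 6, 8, 11, 41, 13, 5, 10, 11, 40, 12, 16, 32, 35, 33, 7, 21, 1, 25, 15, 24, 2, 30, 27, 29, 3, 28, 28, 38, 31, 17, 23, 4, 14, 26, 39, 12, 27, 8, 1, 20, 22, 21, 32, 17, 26, 13] : List ℕ)).getD c.val 0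
  er := fun j => Fin.ofNat 78 ((([0, 2] : List ℕ)).getD j 0)

theorem coreX_ok : coreX.Ok where
  tau3 := by decide +kernel
  taune := by decide +kernel
  tauv := by decide +kernel
  nu2 := by decide +kernel
  nuin := by decide +kernel
  dist := by decide +kernel
  nmP := by decide +kernel
  nm9 := by decide +kernel
  nmr := by decide +kernel
  pcc := by decide +kernel
  nmaT := by decide +kernel
  erc := by decide +kernel

def corevX : CoreV 78 where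
  A := fun c => (([-2, -48, 50, -10, -35, 45, 10, 29, -39, 14, 32, -46, -12, -34, 46, 11, 27, -38, -11, -26, 37, 15, 22, -37, 13, 34, -47, -15, -32, 47, -17, -31, 48, 17, 33, -50, 18, 31, -49, -16, -33, 49, -5, -30, 35, 12, 28, -40, 20, 24, -44, -20, -23, 43, 19, 23, -42, -19, -22, 41, 5, 38, -43, -18, -24, 42, 16, 25, -41, 2, 26, -28, -13, -27, 40, -14, -25, 39] : List ℤ)).getD c.val 0
  B := fun c => (([0, -6, 6, -2, -4, 6, 2, 3, -5, 2, 4, -6, -2, -4, 6, 2, 3, -5, -2, -3, 5, 2, 3, -5, 2, 4, -6, -2, -4, 6, -2, -4, 6, 2, 4, -6, 2, 4, -6, -2, -4, 6, 0, -4, 4, 2, 3, -5, 2, 3, -5, -2, -3, 5, 2, 3, -5, -2, -3, 5, 0, 5, -5, -2, -3, 5, 2, 3, -5, 0, 3, -3, -2, -3, 5, -2, -3, 5] : List ℤ)).getD c.val 0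
  e := 1
  G := 7
  a := 11
  b := 5
  c := 5
  sm := [2, 5]

theorem corevX_ok : Okv coreX corevX where
  he := by decide +kernel
  sA := by decide +kernel
  sB := by decide +kernel
  nA := by decide +kernel
  nB := by decide +kernel
  aT := by decide +kernel
  bT := by decide +kernel
  aU := by decide +kernel
  bU := by decide +kernel
  cs := by decide +kernel
  cA := by decide +kernel
  cB := by decide +kernel
  cC := by decide +kernel
  cg := by decide +kernel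
  ch := by decide +kernel

def listX : List (Fin 78 × ℤ) := [(17, 1), (8, -1)]

theorem listX_in : ∀ q ∈ listX, coreX.inner q.1 := by decide +kernel
theorem listX_1 : (listX.map (fun q => q.2 * hA coreX corevX q.1)).sum = 1 := by
  decide +kernel
theorem listX_0 : (listX.map (fun q => q.2 * hB coreX corevX q.1)).sum = 0 := by
  decide +kernel

end Run7.h243.G
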