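import Pool.Agent.Run7.h243.G.Final

set_option linter.unusedSectionVars false
set_option linter.unusedSimpArgs false
set_option maxRecDepth 100000

/-! Three cores. -/

namespace Run7.h243.G

open Equiv

def coreE : Core 18 4 where
  tau := fun c => Fin.ofNat 18 ((([1, 2, 0, 5, 3, 4, 8, 6, 7, 11, 9, 10, 14, 12, 13, 16, 17, 15] : List ℕ)).getD c.val 0)
  nu := fun c => Fin.ofNat 18 ((([6, 5, 2, 9, 4, 1, 0, 13, 8, 3, 12, 15, 10, 7, 17, 11, 16, 14] : List ℕ)).getD c.val 0)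
  aT := 2
  bT := 8
  aU := 4
  bU := 16
  nm := fun c => (([1, 1, 0, 2, 1, 0, 1, 0, 1, 0, 3, 2, 0, 1, 3, 3, 2, 1] : List ℕ)).getD c.val 0
  rc := fun j => Fin.ofNat 18 ((([2, 0, 3, 10] : List ℕ)).getD j 0)
  pc := fun c => Fin.ofNat 18 ((([0, 6, 0, 0, 1, 9, 13, 2, 0, 12, 0, 3, 7, 17, 10, 14, 11, 8] : List ℕ)).getD c.val 0)
  ic := fun c => (([0, 5, 0, 0, 6, 4, 4, 1, 1, 3, 0, 1, 2, 3, 1, 2, 2, 2] : List ℕ)).getD c.val 0
  er := fun j => Fin.ofNat 18 ((([0, 5, 9, 12] : List ℕ)).getD j 0)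

theorem coreE_ok : coreE.Ok where
  tau3 := by decide +kernel
  taune := by decide +kernel
  tauv := by decide +kernel
  nu2 := by decide +kernel
  nuin := by decide +kernel
  dist := by decide +kernel
  nmP := by decide +kernel
  nm9 := by decide +kernel
  nmr := by decide +kernel
  pcc := by decide +kernel
  nmaT := by decide +kernel
  erc := by decide +kernel

def corevE : CoreV 18 where
  A := fun c => (([-3, -9, 12, -1, -8, 9, 3, 7, -10, 1, 4, -5, -4, -7, 11, 5, 6, -11] : List ℤ)).getD c.val 0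
  B := fun c => (([-2, -4, 6, 0, -4, 4, 2, 3, -5, 0, 2, -2, -2, -3, 5, 2, 3, -5] : List ℤ)).getD c.val 0
  e := 0
  G := 1
  a := 3
  b := 1
  c := 0
  sm := [1]

theorem corevE_ok : Okv coreE corevE where
  he := by decide +kernel
  sA := by decide +kernel
  sB := by decide +kernel
  nA := by decide +kernel
  nB := by decide +kernel
  aT := by decide +kernel
  bT := by decide +kernel
  aU := by decide +kernel
  bU := by decide +kernel
  cs := by decide +kernel
  cA := by decide +kernel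
  cB := by decide +kernel
  cC := by decide +kernel
  cg := by decide +kernel
  ch := by decide +kernel

def listE : List (Fin 18 × ℤ) := [(0, 1), (7, -2)]

theorem listE_in : ∀ q ∈ listE, coreE.inner q.1 := by decide +kernel
theorem listE_1 : (listE.map (fun q => q.2 * hA coreE corevE q.1)).sum = 1 := by
  decide +kernel
theorem listE_0 : (listE.map (fun q => q.2 * hB coreE corevE q.1)).sum = 0 := by
  decide +kernel

theorem okmE : okm coreE {0} [0] [5] := by decide +kernel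

def coreO : Core 24 5 where
  tau := fun c => Fin.ofNat 24 ((([1, 2, 0, 5, 3, 4, 8, 6, 7, 10, 11, 9, 14, 12, 13, 17, 15, 16, 19, 20, 18, 22, 23, 21] : List ℕ)).getD c.val 0)
  nu := fun c => Fin.ofNat 24 ((([6, 14, 5, 8, 4, 2, 0, 9, 3, 7, 10, 17, 15, 19, 1, 12, 22, 11, 21, 13, 20, 18, 16, 23] : List ℕ)).getD c.val 0)
  aT := 20
  bT := 23
  aU := 4
  bU := 10
  nm := fun c => (([1, 0, 2, 3, 2, 1, 0, 3, 1, 0, 3, 4, 0, 0, 2, 2, 4, 0, 2, 0, 0, 0, 2, 4] : List ℕ)).getD c.val 0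
  rc := fun j => Fin.ofNat 24 ((([20, 0, 2, 3, 11] : List ℕ)).getD j 0)
  pc := fun c => Fin.ofNat 24 ((([0, 6, 0, 0, 2, 8, 9, 3, 0, 17, 7, 0, 19, 1, 15, 22, 11, 12, 4, 21, 0, 20, 18, 16] : List ℕ)).getD c.val 0)
  ic := fun c => (([0, 7, 0, 0, 1, 2, 6, 1, 1, 5, 2, 0, 3, 8, 5, 4, 1, 4, 2, 2, 0, 1, 3, 2] : List ℕ)).getD c.val 0
  er := fun j => Fin.ofNat 24 ((([0, 6, 1, 9, 17] : List ℕ)).getD j 0)

theorem coreO_ok : coreO.Ok where
  tau3 := by decide +kernel
  taune := by decide +kernel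
  tauv := by decide +kernel
  nu2 := by decide +kernel
  nuin := by decide +kernel
  dist := by decide +kernel
  nmP := by decide +kernel
  nm9 := by decide +kernel
  nmr := by decide +kernel
  pcc := by decide +kernel
  nmaT := by decide +kernel
  erc := by decide +kernel

def corevO : CoreV 24 where
  A := fun c => (([1, 14, -15, -6, -9, 15, -1, -5, 6, 5, 7, -12, 4, 10, -14, -4, -8, 12, -3, -10, 13, 3, 8, -11] : List ℤ)).getD c.val 0
  B := fun c => (([0, 6, -6, -2, -4, 6, 0, -2, 2, 2, 3, -5, 2, 4, -6, -2, -3, 5, -2, -4, 6, 2, 3, -5] : List ℤ)).getD c.val 0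
  e := 0
  G := 1
  a := 4
  b := 1
  c := 2
  sm := [1]

theorem corevO_ok : Okv coreO corevO where
  he := by decide +kernel
  sA := by decide +kernel
  sB := by decide +kernel
  nA := by decide +kernel
  nB := by decide +kernel
  aT := by decide +kernel
  bT := by decide +kernel
  aU := by decide +kernel
  bU := by decide +kernel
  cs := by decide +kernel
  cA := by decide +kernel
  cB := by decide +kernel
  cC := by decide +kernel
  cg := by decide +kernel
  ch := by decide +kernel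

def listO : List (Fin 24 × ℤ) := [(18, 1), (12, 1)]

theorem listO_in : ∀ q ∈ listO, coreO.inner q.1 := by decide +kernel
theorem listO_1 : (listO.map (fun q => q.2 * hA coreO corevO q.1)).sum = 1 := by
  decide +kernel
theorem listO_0 : (listO.map (fun q => q.2 * hB coreO corevO q.1)).sum = 0 := by
  decide +kernel

theorem okmO : okm coreO {0} [0] [6, 17] := by decide +kernel

def coreL : Core 66 2 where
  tau := fun c => Fin.ofNat 66 ((([1, 2, 0, 4, 5, 3, 7, 8, 6, 10, 11, 9, 13, 14, 12, 16, 17, 15, 19, 20, 18, 22, 23, 21, 25, 26, 24, 28, 29, 27, 31, 32, 30, 34, 35, 33, 37, 38, 36, 40, 41, 39, 43, 44, 42, 46, 47, 45, 49, 50, 48, 52, 53, 51, 55, 56, 54, 58, 59, 57, 61, 62, 60, 64, 65, 63] : List ℕ)).getD c.val 0)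
  nu := fun c => Fin.ofNat 66 ((([15, 20, 23, 48, 17, 8, 9, 22, 5, 6, 19, 14, 21, 13, 11, 0, 25, 4, 54, 10, 1, 12, 7, 2, 51, 16, 26, 30, 49, 43, 27, 55, 53, 36, 46, 65, 33, 40, 62, 63, 37, 50, 45, 29, 44, 42, 34, 47, 3, 28, 41, 24, 58, 32, 18, 31, 59, 60, 52, 56, 57, 64, 38, 39, 61, 35] : List ℕ)).getD c.val 0)
  aT := 26
  bT := 44
  aU := 13
  bU := 47
  nm := fun c => (([0, 1, 1, 1, 1, 1, 1, 0, 1, 0, 1, 1, 1, 1, 0, 1, 0, 1, 1, 1, 1, 1, 1, 0, 1, 1, 0, 1, 0, 1, 0, 1, 1, 1, 0, 0, 0, 1, 0, 0, 0, 1, 0, 1, 1, 1, 0, 0, 1, 1, 0, 1, 1, 0, 1, 1, 1, 1, 0, 1, 0, 1, 0, 0, 0, 1] : List ℕ)).getD c.val 0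
  rc := fun j => Fin.ofNat 66 ((([26, 1] : List ℕ)).getD j 0)
  pc := fun c => Fin.ofNat 66 ((([23, 0, 20, 8, 48, 17, 5, 9, 22, 14, 6, 19, 11, 21, 47, 4, 0, 25, 1, 54, 10, 2, 12, 7, 13, 51, 0, 43, 30, 49, 53, 27, 55, 65, 36, 46, 62, 33, 40, 50, 63, 37, 26, 45, 29, 44, 42, 34, 41, 3, 28, 32, 24, 58, 59, 18, 31, 56, 60, 52, 38, 57, 64, 35, 39, 61] : List ℕ)).getD c.val 0)
  ic := fun c => (([23, 0, 11, 23, 39, 7, 8, 21, 22, 20, 9, 19, 20, 13, 19, 40, 24, 6, 1, 18, 10, 12, 21, 22, 14, 5, 0, 29, 11, 25, 10, 30, 3, 35, 17, 3, 16, 36, 6, 13, 5, 37, 1, 28, 26, 27, 2, 18, 38, 24, 12, 4, 15, 9, 17, 2, 31, 32, 8, 16, 7, 33, 15, 4, 14, 34] : List ℕ)).getD c.val 0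
  er := fun j => Fin.ofNat 66 ((([0, 0] : List ℕ)).getD j 0)

theorem coreL_ok : coreL.Ok where
  tau3 := by decide +kernel
  taune := by decide +kernel
  tauv := by decide +kernel
  nu2 := by decide +kernel
  nuin := by decide +kernel
  dist := by decide +kernel
  nmP := by decide +kernel
  nm9 := by decide +kernel
  nmr := by decide +kernel
  pcc := by decide +kernel
  nmaT := by decide +kernel
  erc := by decide +kernel

def corevL : CoreV 66 where
  A := fun c => (([-2, -41, 43, 10, 30, -40, -13, -27, 40, 13, 29, -42, -16, -26, 42, 2, 28, -30, -12, -29, 41, 16, 27, -43, -11, -28, 39, 9, 24, -33, -9, -23, 32, 17, 20, -37, -17, -19, 36, 15, 19, -34, 5, 33, -38, -5, -20, 25, -10, -24, 34, 11, 21, -32, 12, 23, -35, -14, -21, 35, 14, 22, -36, -15, -22, 37] : List ℤ)).getD c.val 0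
  B := fun c => (([0, -6, 6, 2, 4, -6, -2, -4, 6, 2, 4, -6, -2, -4, 6, 0, 4, -4, -2, -4, 6, 2, 4, -6, -2, -4, 6, 2, 3, -5, -2, -3, 5, 2, 3, -5, -2, -3, 5, 2, 3, -5, 0, 5, -5, 0, -3, 3, -2, -3, 5, 2, 3, -5, 2, 3, -5, -2, -3, 5, 2, 3, -5, -2, -3, 5] : List ℤ)).getD c.val 0
  e := 1
  G := 6
  a := 9
  b := 4
  c := 4
  sm := [2, 5]

theorem corevL_ok : Okv coreL corevL where
  he := by decide +kernel
  sA := by decide +kernel
  sB := by decide +kernel
  nA := by decide +kernel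
  nB := by decide +kernel
  aT := by decide +kernel
  bT := by decide +kernel
  aU := by decide +kernel
  bU := by decide +kernel
  cs := by decide +kernel
  cA := by decide +kernel
  cB := by decide +kernel
  cC := by decide +kernel
  cg := by decide +kernel
  ch := by decide +kernel

def listL : List (Fin 66 × ℤ) := [(24, -1), (3, -1)]

theorem listL_in : ∀ q ∈ listL, coreL.inner q.1 := by decide +kernel
theorem listL_1 : (listL.map (fun q => q.2 * hA coreL corevL q.1)).sum = 1 := by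
  decide +kernel
theorem listL_0 : (listL.map (fun q => q.2 * hB coreL corevL q.1)).sum = 0 := by
  decide +kernel

end Run7.h243.G
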