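import Pool.Agent.Run7.h243.G.Pure

set_option linter.unusedSectionVars false
set_option linter.unusedSimpArgs false

/-! Local rotation systems given by full tables. -/

namespace Run7.h243

open Equiv Run7.B243

structure Dir where
  n : ℕ
  d : ℕ
  c0 : ℕ
  T : ℕ
  TI : ℕ
  CY : ℕ
  IX : ℕ
  RP : ℕ
  PA : ℕ
  RS : ℕ
  O : ℕ
  NG : ℕ
  hole : Bool
  X : Fin 3 → ℕ
  ta : Fin 3 → ℕ × ℕ
  tb : Fin 3 → ℕ × ℕ
  big : List (ℕ × ℕ)

namespace Dir

variable (D : Dir)

def tn (x p : ℕ) : ℕ := dg 64 D.T (x * D.d + p)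
def ti (x p : ℕ) : ℕ := dg 64 D.TI (x * D.d + p)
def cy (x p : ℕ) : ℕ := dg 8 D.CY (x * D.d + p)
def ix (x p : ℕ) : ℕ := dg 64 D.IX (x * D.d + p)
def rp (x i : ℕ) : ℕ := dg 64 D.RP (x * 8 + i)
def pa (x i : ℕ) : ℕ := dg 64 D.PA (x * 8 + i)
def rs (x i : ℕ) : ℕ := dg 256 D.RS (x * 8 + i)
def of (p : ℕ) : ℕ := dg 128 D.O p
def ng (p : ℕ) : ℕ := dg 64 D.NG p
def isH (x : ℕ) : Bool := D.hole && (x == D.X 0 || x == D.X 1 || x == D.X 2)
def nc (x : ℕ) : ℕ := if D.isH x = true then D.c0 + 1 else D.c0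
def mv (x p : ℕ) : ℕ := (x + D.of p) % D.n

def tri2 (x p p1 p2 : ℕ) : Bool :=
  ((D.of p + D.of p1 + D.of p2) % D.n == 0) && (D.tn x (D.ng p2) == p)
def tri1 (x p x1 p1 : ℕ) : Bool := D.tri2 x p p1 (D.tn (D.mv x1 p1) (D.ng p1))
def tri (x p : ℕ) : Bool := D.tri1 x p (D.mv x p) (D.tn (D.mv x p) (D.ng p))

def dsc1 (x i p y : ℕ) : Bool :=
  decide (p < D.d) && (D.cy x p == i) && decide (D.rs y (D.cy y (D.ng p)) < D.rs x i)
def dsc (x i : ℕ) : Bool := D.dsc1 x i (D.pa x i) (D.mv x (D.pa x i))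

def cod (q : ℕ × ℕ) : ℕ := q.1 * 64 + q.2
def val (q : ℕ × ℕ) : Bool := decide (q.1 < D.n) && decide (q.2 < D.d)
def nx (q : ℕ × ℕ) : ℕ × ℕ := (D.mv q.1 q.2, D.tn (D.mv q.1 q.2) (D.ng q.2))
def exL : List ℕ := (if D.hole = true then [cod (D.ta 0), cod (D.ta 1), cod (D.ta 2), cod (D.tb 0),
  cod (D.tb 1), cod (D.tb 2)] else []) ++ D.big.map cod

def okp (p : ℕ) : Bool :=
  decide (D.ng p < D.d) && (D.ng (D.ng p) == p) && ((D.of p + D.of (D.ng p)) % D.n == 0) &&
  decide (0 < D.of p) && decide (D.of p < D.n)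

def okc (x p : ℕ) : Bool :=
  decide (D.tn x p < D.d) && decide (D.ti x p < D.d) && (D.ti x (D.tn x p) == p) &&
  (D.tn x (D.ti x p) == p) && (D.cy x (D.tn x p) == D.cy x p) && decide (D.cy x p < D.nc x) &&
  ((p == D.rp x (D.cy x p)) || (D.ix x p == D.ix x (D.ti x p) + 1))

def okr (x i : ℕ) : Bool := decide (D.rp x i < D.d) && (D.cy x (D.rp x i) == i)

noncomputable def chk1 : Bool := allb D.d D.okp
noncomputable def chk2 : Bool := allb D.n (fun x => allb D.d (D.okc x) && allb (D.nc x) (D.okr x))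
noncomputable def chk3 : Bool := allb D.n (fun x => allb D.d (fun p =>
  D.exL.elem (x * 64 + p) || D.tri x p))
noncomputable def chk4 : Bool := allb D.n (fun x => allb (D.nc x) (fun i =>
  (D.isH x && (i == D.c0)) || (!D.hole && (x == 0) && (i == 0)) || D.dsc x i))

structure Ok : Prop where
  hd : 0 < D.d
  hd2 : D.d ≤ 64
  hn : 1 < D.n
  k1 : D.chk1 = true
  k2 : D.chk2 = true
  k3 : D.chk3 = true
  k4 : D.chk4 = true
  vbig : ∀ q ∈ D.big, D.val q = true ∧ D.nx q ∈ D.big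

structure OkH : Prop extends D.Ok where
  hh : D.hole = true
  hX : ∀ i, D.X i < D.n
  hdist : ∀ i j, D.X i = D.X j → i = j
  va : ∀ i, D.val (D.ta i) = true
  vb : ∀ i, D.val (D.tb i) = true
  na : ∀ i, D.nx (D.ta i) = D.tb i
  nb : ∀ i, D.nx (D.tb i) = D.ta (i + 2)
  lb : ∀ i, (D.nx (D.tb i)).1 = D.X i
  pth : ∀ i, D.cy (D.X i) (D.ng (D.tb i).2) = D.c0
  ab : ∀ i j, cod (D.ta i) ≠ cod (D.tb j)
  abig : ∀ i, ∀ q ∈ D.big, cod (D.ta i) ≠ cod q ∧ cod (D.tb i) ≠ cod q

variable {D} (ok : D.Ok)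

include ok

theorem Ok.p (p : ℕ) (hp : p < D.d) : D.ng p < D.d ∧ D.ng (D.ng p) = p ∧
    (D.of p + D.of (D.ng p)) % D.n = 0 ∧ 0 < D.of p ∧ D.of p < D.n := by
  have h := allb_spec ok.k1 p hp
  simp only [okp, Bool.and_eq_true, decide_eq_true_eq, beq_iff_eq] at h
  tauto

theorem Ok.c (x p : ℕ) (hx : x < D.n) (hp : p < D.d) : D.tn x p < D.d ∧
    D.ti x p < D.d ∧ D.ti x (D.tn x p) = p ∧ D.tn x (D.ti x p) = p ∧
    D.cy x (D.tn x p) = D.cy x p ∧ D.cy x p < D.nc x ∧
    (p = D.rp x (D.cy x p) ∨ D.ix x p = D.ix x (D.ti x p) + 1) := by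
  have h := allb_spec ok.k2 x hx
  rw [Bool.and_eq_true] at h
  have h := allb_spec h.1 p hp
  simp only [okc, Bool.and_eq_true, Bool.or_eq_true, decide_eq_true_eq, beq_iff_eq] at h
  tauto

theorem Ok.r (x i : ℕ) (hx : x < D.n) (hi : i < D.nc x) : D.rp x i < D.d ∧
    D.cy x (D.rp x i) = i := by
  have h := allb_spec ok.k2 x hx
  rw [Bool.and_eq_true] at h
  have h := allb_spec h.2 i hi
  simpa only [okr, Bool.and_eq_true, decide_eq_true_eq, beq_iff_eq] using h

def fz (ok : D.Ok) (k : ℕ) : Fin D.d := ⟨k % D.d, Nat.mod_lt _ ok.hd⟩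

theorem fz_val {k : ℕ} (hk : k < D.d) : (fz ok k).val = k := Nat.mod_eq_of_lt hk
theorem fz_self (p : Fin D.d) : fz ok p.val = p := Fin.ext (Nat.mod_eq_of_lt p.isLt)

theorem nne : NeZero D.n := ⟨by have := ok.hn; omega⟩

omit ok in
def off (D : Dir) (p : ℕ) : ZMod D.n := (D.of p : ZMod D.n)

theorem vlt (x : ZMod D.n) : x.val < D.n := by
  have := nne ok
  exact ZMod.val_lt x

theorem val_off (x : ZMod D.n) (p : ℕ) : (x + off D p).val = D.mv x.val p := by
  have := nne ok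
  unfold off mv
  rw [ZMod.val_add, ZMod.val_natCast, Nat.add_mod_mod]

theorem off_ng (p : ℕ) (hp : p < D.d) : off D p + off D (D.ng p) = 0 := by
  obtain ⟨h1, h2, h3, _⟩ := ok.p p hp
  unfold off
  rw [← Nat.cast_add, ZMod.natCast_eq_zero_iff]
  exact Nat.dvd_of_mod_eq_zero h3

def alD (ok : D.Ok) : Perm (ZMod D.n × Fin D.d) where
  toFun q := (q.1 + off D q.2, fz ok (D.ng q.2))
  invFun q := (q.1 + off D q.2, fz ok (D.ng q.2))
  left_inv q := by
    obtain ⟨h1, h2, _⟩ := ok.p q.2 q.2.isLt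
    refine Prod.ext ?_ ?_
    · show q.1 + off D q.2 + off D (fz ok (D.ng q.2)).val = q.1
      rw [fz_val ok h1, add_assoc, off_ng ok _ q.2.isLt, add_zero]
    · show fz ok (D.ng (fz ok (D.ng q.2)).val) = q.2
      rw [fz_val ok h1, h2, fz_self]
  right_inv q := by
    obtain ⟨h1, h2, _⟩ := ok.p q.2 q.2.isLt
    refine Prod.ext ?_ ?_
    · show q.1 + off D q.2 + off D (fz ok (D.ng q.2)).val = q.1
      rw [fz_val ok h1, add_assoc, off_ng ok _ q.2.isLt, add_zero]
    · show fz ok (D.ng (fz ok (D.ng q.2)).val) = q.2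
      rw [fz_val ok h1, h2, fz_self]

def sgD (ok : D.Ok) : Perm (ZMod D.n × Fin D.d) where
  toFun q := (q.1, fz ok (D.tn q.1.val q.2))
  invFun q := (q.1, fz ok (D.ti q.1.val q.2))
  left_inv q := by
    obtain ⟨h1, h2, h3, h4, _⟩ := ok.c _ _ (vlt ok q.1) q.2.isLt
    refine Prod.ext rfl ?_
    show fz ok (D.ti _ (fz ok _).val) = _
    rw [fz_val ok h1, h3, fz_self]
  right_inv q := by
    obtain ⟨h1, h2, h3, h4, _⟩ := ok.c _ _ (vlt ok q.1) q.2.isLt
    refine Prod.ext rfl ?_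
    show fz ok (D.tn _ (fz ok _).val) = _
    rw [fz_val ok h2, h4, fz_self]

theorem alD_apply (q : ZMod D.n × Fin D.d) : alD ok q = (q.1 + off D q.2, fz ok (D.ng q.2)) := rfl
theorem sgD_apply (q : ZMod D.n × Fin D.d) : sgD ok q = (q.1, fz ok (D.tn q.1.val q.2)) := rfl

theorem al2 (q : ZMod D.n × Fin D.d) : alD ok (alD ok q) = q := (alD ok).left_inv q

theorem alne (q : ZMod D.n × Fin D.d) : alD ok q ≠ q := by
  intro h
  have h1 := congrArg Prod.fst h
  rw [alD_apply] at h1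
  have h2 : off D q.2 = 0 := by simpa using h1
  obtain ⟨_, _, _, h3, h4⟩ := ok.p q.2 q.2.isLt
  unfold off at h2
  rw [ZMod.natCast_eq_zero_iff] at h2
  have := Nat.le_of_dvd h3 h2
  omega

theorem ph_apply (x : ZMod D.n) (p : Fin D.d) : sgD ok (alD ok (x, p)) =
    (x + off D p, fz ok (D.tn (D.mv x.val p) (D.ng p))) := by
  rw [alD_apply, sgD_apply]
  show (x + off D p, fz ok (D.tn (x + off D p).val (fz ok (D.ng p)).val)) = _
  rw [fz_val ok (ok.p p p.isLt).1, val_off ok]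

/-- explicit arcs -/
def q3 (ok : D.Ok) (q : ℕ × ℕ) : ZMod D.n × Fin D.d := ((q.1 : ZMod D.n), fz ok q.2)

omit ok in
theorem val_iff (q : ℕ × ℕ) : D.val q = true ↔ q.1 < D.n ∧ q.2 < D.d := by
  simp only [val, Bool.and_eq_true, decide_eq_true_eq]

theorem cast_val {a : ℕ} (h : a < D.n) : (a : ZMod D.n).val = a := by
  rw [ZMod.val_natCast, Nat.mod_eq_of_lt h]

theorem ph_q3 {q : ℕ × ℕ} (hq : D.val q = true) : sgD ok (alD ok (q3 ok q)) = q3 ok (D.nx q) := by
  obtain ⟨h1, h2⟩ := (val_iff q).mp hq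
  have := nne ok
  unfold q3
  rw [ph_apply, fz_val ok h2, cast_val ok h1]
  refine Prod.ext ?_ rfl
  show (q.1 : ZMod D.n) + off D q.2 = ((D.mv q.1 q.2 : ℕ) : ZMod D.n)
  unfold mv off
  rw [ZMod.natCast_mod, Nat.cast_add]

def codz (x : ZMod D.n × Fin D.d) : ℕ := x.1.val * 64 + x.2.val

theorem codz_q3 {q : ℕ × ℕ} (hq : D.val q = true) : codz (q3 ok q) = cod q := by
  obtain ⟨h1, h2⟩ := (val_iff q).mp hq
  unfold codz q3 cod
  simp only
  rw [cast_val ok h1, fz_val ok h2]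

theorem q3_of_codz {q : ℕ × ℕ} (hq : D.val q = true) (x : ZMod D.n × Fin D.d)
    (hx : cod q = codz x) : x = q3 ok q := by
  obtain ⟨h1, h2⟩ := (val_iff q).mp hq
  have hd := ok.hd2
  have := nne ok
  have hx2 := x.2.isLt
  unfold codz cod at hx
  have e1 : x.1.val = q.1 := by omega
  have e2 : x.2.val = q.2 := by omega
  refine Prod.ext ?_ (Fin.ext ?_)
  · show x.1 = (q.1 : ZMod D.n)
    rw [← e1, ZMod.natCast_zmod_val]
  · show x.2.val = (fz ok q.2).val
    rw [fz_val ok h2]; exact e2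

theorem tri_q (q : ZMod D.n × Fin D.d) (hq : codz q ∉ D.exL) :
    sgD ok (alD ok (sgD ok (alD ok (sgD ok (alD ok q))))) = q := by
  obtain ⟨x, p⟩ := q
  have := nne ok
  have hp := ok.p p p.isLt
  have h3 := allb_spec (allb_spec ok.k3 x.val (vlt ok x)) p p.isLt
  rw [Bool.or_eq_true] at h3
  rcases h3 with h3 | h3
  · exfalso
    apply hq
    have hm : x.val * 64 + p.val ∈ D.exL := by simpa using h3
    exact hm
  · simp only [tri, tri1, tri2, Bool.and_eq_true, beq_iff_eq] at h3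
    have mvlt : ∀ z p, D.mv z p < D.n := fun z p => Nat.mod_lt _ (by have := ok.hn; omega)
    set p1 := D.tn (D.mv x.val p) (D.ng p) with hp1
    set p2 := D.tn (D.mv (D.mv x.val p) p1) (D.ng p1) with hp2
    obtain ⟨s1, s3⟩ := h3
    have hp1d : p1 < D.d := (ok.c _ _ (mvlt _ _) hp.1).1
    have hpp1 := ok.p p1 hp1d
    have hp2d : p2 < D.d := (ok.c _ _ (mvlt _ _) hpp1.1).1
    have hpp2 := ok.p p2 hp2d
    have f1 : sgD ok (alD ok (x, p)) = (x + off D p, fz ok p1) := by rw [ph_apply]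
    have v1 : (fz ok p1).val = p1 := fz_val ok hp1d
    have v2 : (fz ok p2).val = p2 := fz_val ok hp2d
    have f2 : sgD ok (alD ok (x + off D p, fz ok p1)) = (x + off D p + off D p1, fz ok p2) := by
      rw [ph_apply, v1, val_off ok]
    have s0 : x + off D p + off D p1 + off D p2 = x := by
      have : off D p + off D p1 + off D p2 = 0 := by
        unfold off
        rw [← Nat.cast_add, ← Nat.cast_add, ZMod.natCast_eq_zero_iff]
        exact Nat.dvd_of_mod_eq_zero s1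
      rw [add_assoc, add_assoc, ← add_assoc (off D p), this, add_zero]
    have e3 : D.mv (x + off D p + off D p1).val p2 = x.val := by
      rw [← val_off ok, s0]
    have f3 : sgD ok (alD ok (x + off D p + off D p1, fz ok p2)) = (x, p) := by
      rw [ph_apply, v2, e3, s0, s3, fz_self]
    rw [f1, f2, f3]

omit ok in
def cyz (q : ZMod D.n × Fin D.d) : ℕ := D.cy q.1.val q.2.val

theorem cl_cyz (x : ZMod D.n) (N : ℕ) : ∀ p : Fin D.d, D.ix x.val p < N →
    cl (sgD ok) (x, p) = cl (sgD ok) (x, fz ok (D.rp x.val (D.cy x.val p))) := by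
  induction N with
  | zero => intro p hp; omega
  | succ N ih =>
    intro p hp
    obtain ⟨h1, h2, h3, h4, h5, h6, h7⟩ := ok.c _ _ (vlt ok x) p.isLt
    rcases h7 with h7 | h7
    · rw [← h7, fz_self]
    · have v : (fz ok (D.ti x.val p)).val = D.ti x.val p := fz_val ok h2
      have := ih (fz ok (D.ti x.val p)) (by rw [v]; omega)
      have e : sgD ok (x, fz ok (D.ti x.val p)) = (x, p) := by
        rw [sgD_apply]
        simp only [v, h4, fz_self]
      have e2 : cl (sgD ok) (x, p) = cl (sgD ok) (x, fz ok (D.ti x.val p)) := by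
        rw [← e, cl_apply]
      have e3 : D.cy x.val (D.ti x.val p) = D.cy x.val p := by
        have := (ok.c _ _ (vlt ok x) h2).2.2.2.2.1
        rw [h4] at this; exact this.symm
      rw [e2, this, v, e3]

theorem cl_cyz' (q q' : ZMod D.n × Fin D.d) (h1 : q.1 = q'.1) (h2 : cyz q = cyz q') :
    cl (sgD ok) q = cl (sgD ok) q' := by
  obtain ⟨x, p⟩ := q
  obtain ⟨x', p'⟩ := q'
  have h1 : x = x' := h1
  subst h1
  have h2 : D.cy x.val p.val = D.cy x.val p'.val := h2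
  rw [cl_cyz ok x _ p (Nat.lt_succ_self _), cl_cyz ok x _ p' (Nat.lt_succ_self _), h2]

theorem cyz_lt (q : ZMod D.n × Fin D.d) : cyz q < D.nc q.1.val :=
  (ok.c _ _ (vlt ok q.1) q.2.isLt).2.2.2.2.2.1

omit ok in
theorem isH_iff (x : ℕ) : D.isH x = true ↔ D.hole = true ∧ ∃ i, x = D.X i := by
  simp only [isH, Bool.and_eq_true, Bool.or_eq_true, beq_iff_eq]
  constructor
  · rintro ⟨hh, (h | h) | h⟩
    · exact ⟨hh, 0, h⟩
    · exact ⟨hh, 1, h⟩
    · exact ⟨hh, 2, h⟩
  · rintro ⟨hh, i, hi⟩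
    refine ⟨hh, ?_⟩
    fin_cases i
    · exact Or.inl (Or.inl hi)
    · exact Or.inl (Or.inr hi)
    · exact Or.inr hi

omit ok in
theorem nc_cases (x : ℕ) : (D.isH x = true ∧ D.nc x = D.c0 + 1) ∨ (D.isH x = false ∧ D.nc x = D.c0) := by
  unfold nc
  by_cases h : D.isH x = true
  · left; exact ⟨h, if_pos h⟩
  · right; exact ⟨by simpa using h, if_neg h⟩

def rkz (q : ZMod D.n × Fin D.d) : ℕ := D.rs q.1.val (cyz q)

theorem desc_q (q : ZMod D.n × Fin D.d) : (D.hole = true ∧ cyz q = D.c0) ∨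
    (D.hole = false ∧ q.1 = 0 ∧ cyz q = 0) ∨ ∃ q' : ZMod D.n × Fin D.d,
    q'.1 = q.1 ∧ cyz q' = cyz q ∧ rkz (alD ok q') < rkz q := by
  have := nne ok
  obtain ⟨x, p'⟩ := q
  have hlt := cyz_lt ok (x, p')
  set i := cyz (x, p') with hi
  have h4 := allb_spec (allb_spec ok.k4 x.val (vlt ok x)) i hlt
  simp only [Bool.or_eq_true, Bool.and_eq_true, beq_iff_eq, Bool.not_eq_true'] at h4
  rcases h4 with (h4 | h4) | h4
  · left
    exact ⟨((isH_iff _).mp h4.1).1, h4.2⟩
  · right; left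
    refine ⟨h4.1.1, ?_, h4.2⟩
    exact (ZMod.val_eq_zero x).mp h4.1.2
  · right; right
    simp only [dsc, dsc1, Bool.and_eq_true, decide_eq_true_eq, beq_iff_eq] at h4
    obtain ⟨⟨h5, h6⟩, h7⟩ := h4
    set p := D.pa x.val i with hp
    have hpp := ok.p p h5
    have v : (fz ok p).val = p := fz_val ok h5
    have hcz : cyz (x, fz ok p) = i := by
      unfold cyz; rw [v]; exact h6
    refine ⟨(x, fz ok p), rfl, hcz, ?_⟩
    have ea : alD ok (x, fz ok p) = (x + off D p, fz ok (D.ng p)) := by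
      rw [alD_apply, v]
    rw [ea]
    have e2 : cyz (x + off D p, fz ok (D.ng p)) = D.cy (D.mv x.val p) (D.ng p) := by
      unfold cyz
      rw [fz_val ok hpp.1, val_off ok]
    unfold rkz
    rw [e2, val_off ok, ← hi]
    exact h7

omit ok in
theorem toF {α : Type} [DecidableEq α] (l : List (ℕ × ℕ)) (f : ℕ × ℕ → α) :
    ((l.map f).toFinset \ ((l.drop 3).map f).toFinset).card ≤ 3 := by
  have : (l.map f).toFinset \ ((l.drop 3).map f).toFinset ⊆ ((l.take 3).map f).toFinset := by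
    intro x hx
    simp only [Finset.mem_sdiff, List.mem_toFinset, List.mem_map] at hx ⊢
    obtain ⟨⟨t, ht, rfl⟩, h2⟩ := hx
    rw [← List.take_append_drop 3 l, List.mem_append] at ht
    rcases ht with ht | ht
    · exact ⟨t, ht, rfl⟩
    · exact absurd ⟨t, ht, rfl⟩ h2
  refine le_trans (Finset.card_le_card this) (le_trans (List.toFinset_card_le _) ?_)
  rw [List.length_map, List.length_take]; omega

omit ok in
/-- the local rotation system -/
def rsysD (ok : D.OkH) (δ : ℕ) (hδ : D.big.length ≤ 3 + δ) : RSys D.n D.c0 δ where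
  F := Fin D.d
  fin := inferInstance
  dec := inferInstance
  off p := off D p.val
  α := alD ok.toOk
  σ := sgD ok.toOk
  α1 _ := rfl
  α2 q := al2 ok.toOk q
  αne q := alne ok.toOk q
  σ1 _ := rfl
  X i := (D.X i : ZMod D.n)
  Xinj := by
    intro i i' e
    apply ok.hdist
    have := congrArg ZMod.val e
    simp only at this
    rw [cast_val ok.toOk (ok.hX i), cast_val ok.toOk (ok.hX i')] at this
    exact this
  a i := q3 ok.toOk (D.ta i)
  b i := q3 ok.toOk (D.tb i)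
  pa i := by rw [ph_q3 ok.toOk (ok.va i), ok.na]
  pb i := by rw [ph_q3 ok.toOk (ok.vb i), ok.nb]
  lb i := by
    have h := ph_q3 ok.toOk (ok.vb i)
    have h2 := congrArg Prod.fst h
    rw [sgD_apply] at h2
    have h3 : (alD ok.toOk (q3 ok.toOk (D.tb i))).1 = ((D.nx (D.tb i)).1 : ZMod D.n) := h2
    rw [h3, ok.lb]
  ab i i' := by
    intro e
    have := congrArg codz e
    rw [codz_q3 ok.toOk (ok.va i), codz_q3 ok.toOk (ok.vb i')] at this
    exact ok.ab _ _ this
  big := (D.big.map (q3 ok.toOk)).toFinset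
  big0 := ((D.big.drop 3).map (q3 ok.toOk)).toFinset
  bigc q hq := by
    simp only [List.mem_toFinset, List.mem_map] at hq ⊢
    obtain ⟨t, ht, rfl⟩ := hq
    refine ⟨D.nx t, (ok.vbig t ht).2, ?_⟩
    rw [ph_q3 ok.toOk (ok.vbig t ht).1]
  big0c := by
    refine le_trans (List.toFinset_card_le _) ?_
    rw [List.length_map, List.length_drop]; omega
  bigd := toF _ _
  abig i := by
    simp only [List.mem_toFinset, List.mem_map, not_exists, not_and]
    intro t ht e
    have := congrArg codz e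
    rw [codz_q3 ok.toOk (ok.va i), codz_q3 ok.toOk (ok.vbig t ht).1] at this
    exact (ok.abig i t ht).1 this.symm
  bbig i := by
    simp only [List.mem_toFinset, List.mem_map, not_exists, not_and]
    intro t ht e
    have := congrArg codz e
    rw [codz_q3 ok.toOk (ok.vb i), codz_q3 ok.toOk (ok.vbig t ht).1] at this
    exact (ok.abig i t ht).2 this.symm
  tri q hq ha hb := by
    refine tri_q ok.toOk q ?_
    intro hm
    simp only [exL, ok.hh, if_true, List.mem_append, List.mem_cons, List.not_mem_nil, or_false,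
      List.mem_map] at hm
    rcases hm with (h | h | h | h | h | h) | ⟨t, ht, h⟩
    · exact ha 0 (q3_of_codz ok.toOk (ok.va 0) _ h.symm)
    · exact ha 1 (q3_of_codz ok.toOk (ok.va 1) _ h.symm)
    · exact ha 2 (q3_of_codz ok.toOk (ok.va 2) _ h.symm)
    · exact hb 0 (q3_of_codz ok.toOk (ok.vb 0) _ h.symm)
    · exact hb 1 (q3_of_codz ok.toOk (ok.vb 1) _ h.symm)
    · exact hb 2 (q3_of_codz ok.toOk (ok.vb 2) _ h.symm)
    · apply hq
      simp only [List.mem_toFinset, List.mem_map]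
      exact ⟨t, ht, (q3_of_codz ok.toOk (ok.vbig t ht).1 _ h).symm⟩
  cy := cyz
  cyσ q := by
    obtain ⟨h1, h2, h3, h4, h5, _⟩ := ok.toOk.c _ _ (vlt ok.toOk q.1) q.2.isLt
    rw [sgD_apply]
    unfold cyz
    simp only
    rw [fz_val ok.toOk h1, h5]
  cyl q := by
    have h1 := cyz_lt ok.toOk q
    rcases nc_cases (D := D) q.1.val with ⟨h2, h3⟩ | ⟨_, h3⟩
    · rw [h3] at h1
      by_cases h4 : cyz q < D.c0
      · exact Or.inl h4
      · right
        refine ⟨by omega, ?_⟩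
        obtain ⟨_, i, hi⟩ := (isH_iff _).mp h2
        have := nne ok.toOk
        refine ⟨i, ?_⟩
        rw [← hi, ZMod.natCast_zmod_val]
    · left; omega
  cyc q q' := cl_cyz' ok.toOk q q'
  rep x i hi := by
    have : i < D.nc x.val := by
      rcases nc_cases (D := D) x.val with ⟨_, h3⟩ | ⟨_, h3⟩ <;> omega
    obtain ⟨h1, h2⟩ := ok.toOk.r _ _ (vlt ok.toOk x) this
    refine ⟨(x, fz ok.toOk (D.rp x.val i)), rfl, ?_⟩
    unfold cyz
    simp only
    rw [fz_val ok.toOk h1, h2]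
  path i := by
    obtain ⟨h1, h2⟩ := (val_iff _).mp (ok.vb i)
    have h := ph_q3 ok.toOk (ok.vb i)
    have h2' := congrArg Prod.fst h
    rw [sgD_apply] at h2'
    have h3 : (alD ok.toOk (q3 ok.toOk (D.tb i))).1 = ((D.nx (D.tb i)).1 : ZMod D.n) := h2'
    rw [ok.lb] at h3
    unfold cyz
    rw [h3, cast_val ok.toOk (ok.hX i), alD_apply]
    show D.cy (D.X i) (fz ok.toOk (D.ng (fz ok.toOk (D.tb i).2).val)).val = D.c0
    rw [fz_val ok.toOk h2, fz_val ok.toOk (ok.toOk.p _ h2).1, ok.pth]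
  rk q := rkz q
  desc q := by
    rcases desc_q ok.toOk q with h | h | h
    · exact Or.inl h.2
    · exact absurd h.1 (by rw [ok.hh]; simp)
    · exact Or.inr h

end Dir

end Run7.h243
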