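import Pool.Agent.Run7.h243.G.CTab

set_option linter.unusedSectionVars false
set_option linter.unusedSimpArgs false

/-! Larger full tables. -/

namespace Run7.h243

open Equiv Run7.B243

structure DirB where
  n : ℕ
  d : ℕ
  c0 : ℕ
  T : ℕ
  TI : ℕ
  CY : ℕ
  IX : ℕ
  RP : ℕ
  PA : ℕ
  RS : ℕ
  O : ℕ
  NG : ℕ
  hole : Bool
  X : Fin 3 → ℕ
  ta : Fin 3 → ℕ × ℕ
  tb : Fin 3 → ℕ × ℕ
  big : List (ℕ × ℕ)

namespace DirB

variable (D : DirB)

def tn (x p : ℕ) : ℕ := dg 128 D.T (x * D.d + p)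
def ti (x p : ℕ) : ℕ := dg 128 D.TI (x * D.d + p)
def cy (x p : ℕ) : ℕ := dg 8 D.CY (x * D.d + p)
def ix (x p : ℕ) : ℕ := dg 128 D.IX (x * D.d + p)
def rp (x i : ℕ) : ℕ := dg 128 D.RP (x * 8 + i)
def pa (x i : ℕ) : ℕ := dg 128 D.PA (x * 8 + i)
def rs (x i : ℕ) : ℕ := dg 256 D.RS (x * 8 + i)
def of (p : ℕ) : ℕ := dg 128 D.O p
def ng (p : ℕ) : ℕ := dg 128 D.NG p
def isH (x : ℕ) : Bool := D.hole && (x == D.X 0 || x == D.X 1 || x == D.X 2)
def nc (x : ℕ) : ℕ := if D.isH x = true then D.c0 + 1 else D.c0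
def mv (x p : ℕ) : ℕ := (x + D.of p) % D.n

def tri2 (x p p1 p2 : ℕ) : Bool :=
  ((D.of p + D.of p1 + D.of p2) % D.n == 0) && (D.tn x (D.ng p2) == p)
def tri1 (x p x1 p1 : ℕ) : Bool := D.tri2 x p p1 (D.tn (D.mv x1 p1) (D.ng p1))
def tri (x p : ℕ) : Bool := D.tri1 x p (D.mv x p) (D.tn (D.mv x p) (D.ng p))

def dsc1 (x i p y : ℕ) : Bool :=
  decide (p < D.d) && (D.cy x p == i) && decide (D.rs y (D.cy y (D.ng p)) < D.rs x i)
def dsc (x i : ℕ) : Bool := D.dsc1 x i (D.pa x i) (D.mv x (D.pa x i))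

def cod (q : ℕ × ℕ) : ℕ := q.1 * 128 + q.2
def val (q : ℕ × ℕ) : Bool := decide (q.1 < D.n) && decide (q.2 < D.d)
def nx (q : ℕ × ℕ) : ℕ × ℕ := (D.mv q.1 q.2, D.tn (D.mv q.1 q.2) (D.ng q.2))
def exL : List ℕ := (if D.hole = true then [cod (D.ta 0), cod (D.ta 1), cod (D.ta 2), cod (D.tb 0),
  cod (D.tb 1), cod (D.tb 2)] else []) ++ D.big.map cod

def okp (p : ℕ) : Bool :=
  decide (D.ng p < D.d) && (D.ng (D.ng p) == p) && ((D.of p + D.of (D.ng p)) % D.n == 0) &&
  decide (0 < D.of p) && decide (D.of p < D.n)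

def okc (x p : ℕ) : Bool :=
  decide (D.tn x p < D.d) && decide (D.ti x p < D.d) && (D.ti x (D.tn x p) == p) &&
  (D.tn x (D.ti x p) == p) && (D.cy x (D.tn x p) == D.cy x p) && decide (D.cy x p < D.nc x) &&
  ((p == D.rp x (D.cy x p)) || (D.ix x p == D.ix x (D.ti x p) + 1))

def okr (x i : ℕ) : Bool := decide (D.rp x i < D.d) && (D.cy x (D.rp x i) == i)

noncomputable def chk1 : Bool := allb D.d D.okp
noncomputable def chk2 : Bool := allb D.n (fun x => allb D.d (D.okc x) && allb (D.nc x) (D.okr x))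
noncomputable def chk3 : Bool := allb D.n (fun x => allb D.d (fun p =>
  D.exL.elem (x * 128 + p) || D.tri x p))
noncomputable def chk4 : Bool := allb D.n (fun x => allb (D.nc x) (fun i =>
  (D.isH x && (i == D.c0)) || (!D.hole && (x == 0) && (i == 0)) || D.dsc x i))

structure Ok : Prop where
  hd : 0 < D.d
  hd2 : D.d ≤ 128
  hn : 1 < D.n
  k1 : D.chk1 = true
  k2 : D.chk2 = true
  k3 : D.chk3 = true
  k4 : D.chk4 = true
  vbig : ∀ q ∈ D.big, D.val q = true ∧ D.nx q ∈ D.big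

variable {D} (ok : D.Ok)

include ok

theorem Ok.p (p : ℕ) (hp : p < D.d) : D.ng p < D.d ∧ D.ng (D.ng p) = p ∧
    (D.of p + D.of (D.ng p)) % D.n = 0 ∧ 0 < D.of p ∧ D.of p < D.n := by
  have h := allb_spec ok.k1 p hp
  simp only [okp, Bool.and_eq_true, decide_eq_true_eq, beq_iff_eq] at h
  tauto

theorem Ok.c (x p : ℕ) (hx : x < D.n) (hp : p < D.d) : D.tn x p < D.d ∧
    D.ti x p < D.d ∧ D.ti x (D.tn x p) = p ∧ D.tn x (D.ti x p) = p ∧
    D.cy x (D.tn x p) = D.cy x p ∧ D.cy x p < D.nc x ∧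
    (p = D.rp x (D.cy x p) ∨ D.ix x p = D.ix x (D.ti x p) + 1) := by
  have h := allb_spec ok.k2 x hx
  rw [Bool.and_eq_true] at h
  have h := allb_spec h.1 p hp
  simp only [okc, Bool.and_eq_true, Bool.or_eq_true, decide_eq_true_eq, beq_iff_eq] at h
  tauto

theorem Ok.r (x i : ℕ) (hx : x < D.n) (hi : i < D.nc x) : D.rp x i < D.d ∧
    D.cy x (D.rp x i) = i := by
  have h := allb_spec ok.k2 x hx
  rw [Bool.and_eq_true] at h
  have h := allb_spec h.2 i hi
  simpa only [okr, Bool.and_eq_true, decide_eq_true_eq, beq_iff_eq] using h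

def fz (ok : D.Ok) (k : ℕ) : Fin D.d := ⟨k % D.d, Nat.mod_lt _ ok.hd⟩

theorem fz_val {k : ℕ} (hk : k < D.d) : (fz ok k).val = k := Nat.mod_eq_of_lt hk
theorem fz_self (p : Fin D.d) : fz ok p.val = p := Fin.ext (Nat.mod_eq_of_lt p.isLt)

theorem nne : NeZero D.n := ⟨by have := ok.hn; omega⟩

omit ok in
def off (D : DirB) (p : ℕ) : ZMod D.n := (D.of p : ZMod D.n)

theorem vlt (x : ZMod D.n) : x.val < D.n := by
  have := nne ok
  exact ZMod.val_lt x

theorem val_off (x : ZMod D.n) (p : ℕ) : (x + off D p).val = D.mv x.val p := by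
  have := nne ok
  unfold off mv
  rw [ZMod.val_add, ZMod.val_natCast, Nat.add_mod_mod]

theorem off_ng (p : ℕ) (hp : p < D.d) : off D p + off D (D.ng p) = 0 := by
  obtain ⟨h1, h2, h3, _⟩ := ok.p p hp
  unfold off
  rw [← Nat.cast_add, ZMod.natCast_eq_zero_iff]
  exact Nat.dvd_of_mod_eq_zero h3

def alD (ok : D.Ok) : Perm (ZMod D.n × Fin D.d) where
  toFun q := (q.1 + off D q.2, fz ok (D.ng q.2))
  invFun q := (q.1 + off D q.2, fz ok (D.ng q.2))
  left_inv q := by
    obtain ⟨h1, h2, _⟩ := ok.p q.2 q.2.isLt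
    refine Prod.ext ?_ ?_
    · show q.1 + off D q.2 + off D (fz ok (D.ng q.2)).val = q.1
      rw [fz_val ok h1, add_assoc, off_ng ok _ q.2.isLt, add_zero]
    · show fz ok (D.ng (fz ok (D.ng q.2)).val) = q.2
      rw [fz_val ok h1, h2, fz_self]
  right_inv q := by
    obtain ⟨h1, h2, _⟩ := ok.p q.2 q.2.isLt
    refine Prod.ext ?_ ?_
    · show q.1 + off D q.2 + off D (fz ok (D.ng q.2)).val = q.1
      rw [fz_val ok h1, add_assoc, off_ng ok _ q.2.isLt, add_zero]
    · show fz ok (D.ng (fz ok (D.ng q.2)).val) = q.2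
      rw [fz_val ok h1, h2, fz_self]

def sgD (ok : D.Ok) : Perm (ZMod D.n × Fin D.d) where
  toFun q := (q.1, fz ok (D.tn q.1.val q.2))
  invFun q := (q.1, fz ok (D.ti q.1.val q.2))
  left_inv q := by
    obtain ⟨h1, h2, h3, h4, _⟩ := ok.c _ _ (vlt ok q.1) q.2.isLt
    refine Prod.ext rfl ?_
    show fz ok (D.ti _ (fz ok _).val) = _
    rw [fz_val ok h1, h3, fz_self]
  right_inv q := by
    obtain ⟨h1, h2, h3, h4, _⟩ := ok.c _ _ (vlt ok q.1) q.2.isLt
    refine Prod.ext rfl ?_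
    show fz ok (D.tn _ (fz ok _).val) = _
    rw [fz_val ok h2, h4, fz_self]

theorem alD_apply (q : ZMod D.n × Fin D.d) : alD ok q = (q.1 + off D q.2, fz ok (D.ng q.2)) := rfl
theorem sgD_apply (q : ZMod D.n × Fin D.d) : sgD ok q = (q.1, fz ok (D.tn q.1.val q.2)) := rfl

theorem al2 (q : ZMod D.n × Fin D.d) : alD ok (alD ok q) = q := (alD ok).left_inv q

theorem alne (q : ZMod D.n × Fin D.d) : alD ok q ≠ q := by
  intro h
  have h1 := congrArg Prod.fst h
  rw [alD_apply] at h1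
  have h2 : off D q.2 = 0 := by simpa using h1
  obtain ⟨_, _, _, h3, h4⟩ := ok.p q.2 q.2.isLt
  unfold off at h2
  rw [ZMod.natCast_eq_zero_iff] at h2
  have := Nat.le_of_dvd h3 h2
  omega

theorem ph_apply (x : ZMod D.n) (p : Fin D.d) : sgD ok (alD ok (x, p)) =
    (x + off D p, fz ok (D.tn (D.mv x.val p) (D.ng p))) := by
  rw [alD_apply, sgD_apply]
  show (x + off D p, fz ok (D.tn (x + off D p).val (fz ok (D.ng p)).val)) = _
  rw [fz_val ok (ok.p p p.isLt).1, val_off ok]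

/-- explicit arcs -/
def q3 (ok : D.Ok) (q : ℕ × ℕ) : ZMod D.n × Fin D.d := ((q.1 : ZMod D.n), fz ok q.2)

omit ok in
theorem val_iff (q : ℕ × ℕ) : D.val q = true ↔ q.1 < D.n ∧ q.2 < D.d := by
  simp only [val, Bool.and_eq_true, decide_eq_true_eq]

theorem cast_val {a : ℕ} (h : a < D.n) : (a : ZMod D.n).val = a := by
  rw [ZMod.val_natCast, Nat.mod_eq_of_lt h]

theorem ph_q3 {q : ℕ × ℕ} (hq : D.val q = true) : sgD ok (alD ok (q3 ok q)) = q3 ok (D.nx q) := by
  obtain ⟨h1, h2⟩ := (val_iff q).mp hq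
  have := nne ok
  unfold q3
  rw [ph_apply, fz_val ok h2, cast_val ok h1]
  refine Prod.ext ?_ rfl
  show (q.1 : ZMod D.n) + off D q.2 = ((D.mv q.1 q.2 : ℕ) : ZMod D.n)
  unfold mv off
  rw [ZMod.natCast_mod, Nat.cast_add]

def codz (x : ZMod D.n × Fin D.d) : ℕ := x.1.val * 128 + x.2.val

theorem codz_q3 {q : ℕ × ℕ} (hq : D.val q = true) : codz (q3 ok q) = cod q := by
  obtain ⟨h1, h2⟩ := (val_iff q).mp hq
  unfold codz q3 cod
  simp only
  rw [cast_val ok h1, fz_val ok h2]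

theorem q3_of_codz {q : ℕ × ℕ} (hq : D.val q = true) (x : ZMod D.n × Fin D.d)
    (hx : cod q = codz x) : x = q3 ok q := by
  obtain ⟨h1, h2⟩ := (val_iff q).mp hq
  have hd := ok.hd2
  have := nne ok
  have hx2 := x.2.isLt
  unfold codz cod at hx
  have e1 : x.1.val = q.1 := by omega
  have e2 : x.2.val = q.2 := by omega
  refine Prod.ext ?_ (Fin.ext ?_)
  · show x.1 = (q.1 : ZMod D.n)
    rw [← e1, ZMod.natCast_zmod_val]
  · show x.2.val = (fz ok q.2).val
    rw [fz_val ok h2]; exact e2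

theorem tri_q (q : ZMod D.n × Fin D.d) (hq : codz q ∉ D.exL) :
    sgD ok (alD ok (sgD ok (alD ok (sgD ok (alD ok q))))) = q := by
  obtain ⟨x, p⟩ := q
  have := nne ok
  have hp := ok.p p p.isLt
  have h3 := allb_spec (allb_spec ok.k3 x.val (vlt ok x)) p p.isLt
  rw [Bool.or_eq_true] at h3
  rcases h3 with h3 | h3
  · exfalso
    apply hq
    have hm : x.val * 128 + p.val ∈ D.exL := by simpa using h3
    exact hm
  · simp only [tri, tri1, tri2, Bool.and_eq_true, beq_iff_eq] at h3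
    have mvlt : ∀ z p, D.mv z p < D.n := fun z p => Nat.mod_lt _ (by have := ok.hn; omega)
    set p1 := D.tn (D.mv x.val p) (D.ng p) with hp1
    set p2 := D.tn (D.mv (D.mv x.val p) p1) (D.ng p1) with hp2
    obtain ⟨s1, s3⟩ := h3
    have hp1d : p1 < D.d := (ok.c _ _ (mvlt _ _) hp.1).1
    have hpp1 := ok.p p1 hp1d
    have hp2d : p2 < D.d := (ok.c _ _ (mvlt _ _) hpp1.1).1
    have hpp2 := ok.p p2 hp2d
    have f1 : sgD ok (alD ok (x, p)) = (x + off D p, fz ok p1) := by rw [ph_apply]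
    have v1 : (fz ok p1).val = p1 := fz_val ok hp1d
    have v2 : (fz ok p2).val = p2 := fz_val ok hp2d
    have f2 : sgD ok (alD ok (x + off D p, fz ok p1)) = (x + off D p + off D p1, fz ok p2) := by
      rw [ph_apply, v1, val_off ok]
    have s0 : x + off D p + off D p1 + off D p2 = x := by
      have : off D p + off D p1 + off D p2 = 0 := by
        unfold off
        rw [← Nat.cast_add, ← Nat.cast_add, ZMod.natCast_eq_zero_iff]
        exact Nat.dvd_of_mod_eq_zero s1
      rw [add_assoc, add_assoc, ← add_assoc (off D p), this, add_zero]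
    have e3 : D.mv (x + off D p + off D p1).val p2 = x.val := by
      rw [← val_off ok, s0]
    have f3 : sgD ok (alD ok (x + off D p + off D p1, fz ok p2)) = (x, p) := by
      rw [ph_apply, v2, e3, s0, s3, fz_self]
    rw [f1, f2, f3]

omit ok in
def cyz (q : ZMod D.n × Fin D.d) : ℕ := D.cy q.1.val q.2.val

theorem cl_cyz (x : ZMod D.n) (N : ℕ) : ∀ p : Fin D.d, D.ix x.val p < N →
    cl (sgD ok) (x, p) = cl (sgD ok) (x, fz ok (D.rp x.val (D.cy x.val p))) := by
  induction N with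
  | zero => intro p hp; omega
  | succ N ih =>
    intro p hp
    obtain ⟨h1, h2, h3, h4, h5, h6, h7⟩ := ok.c _ _ (vlt ok x) p.isLt
    rcases h7 with h7 | h7
    · rw [← h7, fz_self]
    · have v : (fz ok (D.ti x.val p)).val = D.ti x.val p := fz_val ok h2
      have := ih (fz ok (D.ti x.val p)) (by rw [v]; omega)
      have e : sgD ok (x, fz ok (D.ti x.val p)) = (x, p) := by
        rw [sgD_apply]
        simp only [v, h4, fz_self]
      have e2 : cl (sgD ok) (x, p) = cl (sgD ok) (x, fz ok (D.ti x.val p)) := by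
        rw [← e, cl_apply]
      have e3 : D.cy x.val (D.ti x.val p) = D.cy x.val p := by
        have := (ok.c _ _ (vlt ok x) h2).2.2.2.2.1
        rw [h4] at this; exact this.symm
      rw [e2, this, v, e3]

theorem cl_cyz' (q q' : ZMod D.n × Fin D.d) (h1 : q.1 = q'.1) (h2 : cyz q = cyz q') :
    cl (sgD ok) q = cl (sgD ok) q' := by
  obtain ⟨x, p⟩ := q
  obtain ⟨x', p'⟩ := q'
  have h1 : x = x' := h1
  subst h1
  have h2 : D.cy x.val p.val = D.cy x.val p'.val := h2
  rw [cl_cyz ok x _ p (Nat.lt_succ_self _), cl_cyz ok x _ p' (Nat.lt_succ_self _), h2]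

theorem cyz_lt (q : ZMod D.n × Fin D.d) : cyz q < D.nc q.1.val :=
  (ok.c _ _ (vlt ok q.1) q.2.isLt).2.2.2.2.2.1

omit ok in
theorem isH_iff (x : ℕ) : D.isH x = true ↔ D.hole = true ∧ ∃ i, x = D.X i := by
  simp only [isH, Bool.and_eq_true, Bool.or_eq_true, beq_iff_eq]
  constructor
  · rintro ⟨hh, (h | h) | h⟩
    · exact ⟨hh, 0, h⟩
    · exact ⟨hh, 1, h⟩
    · exact ⟨hh, 2, h⟩
  · rintro ⟨hh, i, hi⟩
    refine ⟨hh, ?_⟩
    fin_cases i
    · exact Or.inl (Or.inl hi)
    · exact Or.inl (Or.inr hi)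
    · exact Or.inr hi

omit ok in
theorem nc_cases (x : ℕ) : (D.isH x = true ∧ D.nc x = D.c0 + 1) ∨ (D.isH x = false ∧ D.nc x = D.c0) := by
  unfold nc
  by_cases h : D.isH x = true
  · left; exact ⟨h, if_pos h⟩
  · right; exact ⟨by simpa using h, if_neg h⟩

def rkz (q : ZMod D.n × Fin D.d) : ℕ := D.rs q.1.val (cyz q)

theorem desc_q (q : ZMod D.n × Fin D.d) : (D.hole = true ∧ cyz q = D.c0) ∨
    (D.hole = false ∧ q.1 = 0 ∧ cyz q = 0) ∨ ∃ q' : ZMod D.n × Fin D.d,
    q'.1 = q.1 ∧ cyz q' = cyz q ∧ rkz (alD ok q') < rkz q := by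
  have := nne ok
  obtain ⟨x, p'⟩ := q
  have hlt := cyz_lt ok (x, p')
  set i := cyz (x, p') with hi
  have h4 := allb_spec (allb_spec ok.k4 x.val (vlt ok x)) i hlt
  simp only [Bool.or_eq_true, Bool.and_eq_true, beq_iff_eq, Bool.not_eq_true'] at h4
  rcases h4 with (h4 | h4) | h4
  · left
    exact ⟨((isH_iff _).mp h4.1).1, h4.2⟩
  · right; left
    refine ⟨h4.1.1, ?_, h4.2⟩
    exact (ZMod.val_eq_zero x).mp h4.1.2
  · right; right
    simp only [dsc, dsc1, Bool.and_eq_true, decide_eq_true_eq, beq_iff_eq] at h4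
    obtain ⟨⟨h5, h6⟩, h7⟩ := h4
    set p := D.pa x.val i with hp
    have hpp := ok.p p h5
    have v : (fz ok p).val = p := fz_val ok h5
    have hcz : cyz (x, fz ok p) = i := by
      unfold cyz; rw [v]; exact h6
    refine ⟨(x, fz ok p), rfl, hcz, ?_⟩
    have ea : alD ok (x, fz ok p) = (x + off D p, fz ok (D.ng p)) := by
      rw [alD_apply, v]
    rw [ea]
    have e2 : cyz (x + off D p, fz ok (D.ng p)) = D.cy (D.mv x.val p) (D.ng p) := by
      unfold cyz
      rw [fz_val ok hpp.1, val_off ok]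
    unfold rkz
    rw [e2, val_off ok, ← hi]
    exact h7

omit ok in
theorem toF {α : Type} [DecidableEq α] (l : List (ℕ × ℕ)) (f : ℕ × ℕ → α) :
    ((l.map f).toFinset \ ((l.drop 3).map f).toFinset).card ≤ 3 := by
  have : (l.map f).toFinset \ ((l.drop 3).map f).toFinset ⊆ ((l.take 3).map f).toFinset := by
    intro x hx
    simp only [Finset.mem_sdiff, List.mem_toFinset, List.mem_map] at hx ⊢
    obtain ⟨⟨t, ht, rfl⟩, h2⟩ := hx
    rw [← List.take_append_drop 3 l, List.mem_append] at ht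
    rcases ht with ht | ht
    · exact ⟨t, ht, rfl⟩
    · exact absurd ⟨t, ht, rfl⟩ h2
  refine le_trans (Finset.card_le_card this) (le_trans (List.toFinset_card_le _) ?_)
  rw [List.length_map, List.length_take]; omega


end DirB

/-- the map from a table alone -/
theorem whole_optB {D : DirB} (ok : D.Ok) (hh : D.hole = false) (hδ : D.big.length ≤ 8)
    (hcov : ∀ g < D.n, g ≠ 0 → ∃ p < D.d, D.of p = g) (hcard : D.d + 1 = D.n) : Opt D.n D.c0 := by
  classical
  have := DirB.nne ok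
  have hnc : ∀ x, D.nc x = D.c0 := by
    intro x
    rcases DirB.nc_cases (D := D) x with ⟨h, _⟩ | ⟨_, h⟩
    · rw [DirB.isH_iff, hh] at h; simp at h
    · exact h
  have hcyc : Run7.B243.cyc (DirB.sgD ok) = D.n * D.c0 := by
    have h1 : Run7.B243.cyc (DirB.sgD ok) = Nat.card (ZMod D.n × Fin D.c0) := by
      unfold cyc
      refine Nat.card_eq_of_bijective
        (Quot.lift (fun q => (q.1, (⟨DirB.cyz q, by
          have := DirB.cyz_lt ok q; rwa [hnc] at this⟩ : Fin D.c0))) (by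
          intro a b h; subst h
          refine Prod.ext rfl (Fin.ext ?_)
          obtain ⟨h1, h2, h3, h4, h5, _⟩ := ok.c _ _ (DirB.vlt ok a.1) a.2.isLt
          rw [DirB.sgD_apply]
          unfold DirB.cyz
          simp only
          rw [DirB.fz_val ok h1, h5])) ⟨?_, ?_⟩
      · intro q q' h
        induction q using Quot.ind with
        | mk l =>
        induction q' using Quot.ind with
        | mk l' =>
        exact DirB.cl_cyz' ok l l' (Prod.ext_iff.mp h).1 (congrArg Fin.val (Prod.ext_iff.mp h).2)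
      · rintro ⟨x, i⟩
        obtain ⟨h1, h2⟩ := ok.r x.val i.val (DirB.vlt ok x) (by rw [hnc]; exact i.isLt)
        refine ⟨Quot.mk _ (x, DirB.fz ok (D.rp x.val i)), ?_⟩
        refine Prod.ext rfl (Fin.ext ?_)
        show DirB.cyz (x, DirB.fz ok (D.rp x.val i)) = i
        unfold DirB.cyz
        simp only
        rw [DirB.fz_val ok h1, h2]
    rw [h1, Nat.card_prod]; simp
  have hconn : ∀ x y, Relation.EqvGen (fun a b => b = DirB.sgD ok a ∨ b = DirB.alD ok a) x y := by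
    have hcle : ∀ {x y}, cl (DirB.sgD ok) x = cl (DirB.sgD ok) y →
        Relation.EqvGen (fun a b => b = DirB.sgD ok a ∨ b = DirB.alD ok a) x y := by
      intro x y h
      exact Relation.EqvGen.mono (fun a b h => Or.inl h) _ _ (Quot.eqvGen_exact h)
    obtain ⟨r1, r2⟩ := ok.r 0 0 (by have := ok.hn; omega) (by
      rw [hnc]
      have h := DirB.cyz_lt ok ((0 : ZMod D.n), DirB.fz ok 0)
      rw [hnc] at h; omega)
    have base : ∀ N : ℕ, ∀ q : ZMod D.n × Fin D.d, DirB.rkz q < N →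
        Relation.EqvGen (fun a b => b = DirB.sgD ok a ∨ b = DirB.alD ok a) q
          ((0 : ZMod D.n), DirB.fz ok (D.rp 0 0)) := by
      intro N
      induction N with
      | zero => intro q h; omega
      | succ N ih =>
        intro q hq
        rcases DirB.desc_q ok q with h | h | ⟨q', h1, h2, h3⟩
        · exact absurd h.1 (by rw [hh]; simp)
        · refine hcle (DirB.cl_cyz' ok _ _ h.2.1 ?_)
          rw [h.2.2]
          unfold DirB.cyz
          simp only [ZMod.val_zero]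
          rw [DirB.fz_val ok r1, r2]
        · have e1 := hcle (DirB.cl_cyz' ok q q' h1.symm h2.symm)
          have e2 : Relation.EqvGen (fun a b => b = DirB.sgD ok a ∨ b = DirB.alD ok a) q'
            (DirB.alD ok q') := Relation.EqvGen.rel _ _ (Or.inr rfl)
          exact (e1.trans _ _ _ e2).trans _ _ _ (ih _ (by omega))
    intro x y
    exact (base _ x (Nat.lt_succ_self _)).trans _ _ _ (base _ y (Nat.lt_succ_self _)).symm
  let f : ZMod D.n ≃ Fin D.n := Fintype.equivFinOfCardEq (ZMod.card D.n)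
  have hg := goodE_of_rot (DirB.sgD ok) (DirB.alD ok) ⟨(0, DirB.fz ok 0)⟩ (DirB.al2 ok) (DirB.alne ok)
    hconn D.n D.c0 (fun x => f x.1) (fun x => rfl) (by
      intro x
      refine exact_parts (DirB.sgD ok) (fun x => f x.1) (fun x => rfl) D.c0 ?_ ?_ x
      · intro x
        refine le_trans ?_ (le_of_eq (Nat.card_fin D.c0))
        refine Nat.card_le_card_of_surjective (fun i : Fin D.c0 =>
          ⟨cl (DirB.sgD ok) (f.symm x, DirB.fz ok (D.rp (f.symm x).val i)), ⟨_, by simp, rfl⟩⟩) ?_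
        rintro ⟨q, y, hy, rfl⟩
        have hy' : y.1 = f.symm x := by rw [← hy]; simp
        have hlt := DirB.cyz_lt ok y
        rw [hnc] at hlt
        refine ⟨⟨DirB.cyz y, hlt⟩, Subtype.ext ?_⟩
        show cl (DirB.sgD ok) (f.symm x, DirB.fz ok (D.rp (f.symm x).val (DirB.cyz y))) = _
        refine DirB.cl_cyz' ok _ _ hy'.symm ?_
        obtain ⟨h1, h2⟩ := ok.r (f.symm x).val (DirB.cyz y) (DirB.vlt ok _) (by rw [hnc]; exact hlt)
        show D.cy (f.symm x).val (DirB.fz ok (D.rp (f.symm x).val (DirB.cyz y))).val = _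
        rw [DirB.fz_val ok h1, h2]
      · rw [Fintype.card_fin, hcyc]) (by
      intro a b hab
      have hne : f.symm b - f.symm a ≠ 0 := by
        intro h; apply hab; exact f.symm.injective (sub_eq_zero.mp h).symm
      have hlt := ZMod.val_lt (f.symm b - f.symm a)
      have hne' : (f.symm b - f.symm a).val ≠ 0 := fun e => hne ((ZMod.val_eq_zero _).mp e)
      obtain ⟨p, hp, hv⟩ := hcov _ hlt hne'
      refine ⟨(f.symm a, DirB.fz ok p), ?_, ?_⟩
      · show f (f.symm a) = a; simp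
      · show f (f.symm a + DirB.off D (DirB.fz ok p).val) = b
        unfold DirB.off
        rw [DirB.fz_val ok hp, hv, ZMod.natCast_zmod_val]; simp)
  refine ⟨_, hg, ?_, ?_⟩
  · have h1 := even_euler (DirB.sgD ok) (DirB.alD ok) (DirB.al2 ok) (DirB.alne ok)
    obtain ⟨t, ht⟩ := h1
    refine ⟨(t : ℤ) - Run7.B243.cyc (DirB.alD ok), ?_⟩
    omega
  · have h1 := cyc_three (DirB.sgD ok * DirB.alD ok) ((D.big.map (DirB.q3 ok)).toFinset)
      (((D.big.drop 3).map (DirB.q3 ok)).toFinset) 5 (by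
        intro x hx
        simp only [Perm.mul_apply]
        refine DirB.tri_q ok x ?_
        intro hm
        apply hx
        simp only [DirB.exL, hh, Bool.false_eq_true, if_false, List.nil_append, List.mem_map] at hm
        obtain ⟨t, ht, h⟩ := hm
        simp only [List.mem_toFinset, List.mem_map]
        exact ⟨t, ht, (DirB.q3_of_codz ok (ok.vbig t ht).1 _ h).symm⟩) (by
        intro q hq
        simp only [List.mem_toFinset, List.mem_map] at hq ⊢
        obtain ⟨t, ht, rfl⟩ := hq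
        refine ⟨D.nx t, (ok.vbig t ht).2, ?_⟩
        rw [Perm.mul_apply, DirB.ph_q3 ok (ok.vbig t ht).1]) (by
        refine le_trans (List.toFinset_card_le _) ?_
        rw [List.length_map, List.length_drop]; omega) (DirB.toF _ _)
    rw [cyc_comm] at h1
    have h2 := cyc_invol (DirB.alD ok) (DirB.al2 ok) (DirB.alne ok)
    have h4 : Fintype.card (ZMod D.n × Fin D.d) = D.n * (D.n - 1) := by
      rw [Fintype.card_prod, ZMod.card, Fintype.card_fin]
      congr 1
      omega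
    have h5 : (D.n : ℤ) * (D.n - 1) = (Fintype.card (ZMod D.n × Fin D.d) : ℕ) := by
      rw [h4]
      have : 1 ≤ D.n := by have := ok.hn; omega
      push_cast [this]; ring
    have h6 : (Run7.B243.cyc (DirB.sgD ok) : ℤ) = D.n * D.c0 := by rw [hcyc]; push_cast; ring
    have h7 : ((Fintype.card (ZMod D.n × Fin D.d) : ℕ) : ℤ) ≤
        3 * Run7.B243.cyc (DirB.alD ok * DirB.sgD ok) + (5 : ℕ) := by exact_mod_cast h1
    have h8 : 2 * (Run7.B243.cyc (DirB.alD ok) : ℤ) = (Fintype.card (ZMod D.n × Fin D.d) : ℕ) := by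
      exact_mod_cast h2
    have h9 : (D.n : ℤ) * (6 * (D.c0 : ℕ) + 1 - D.n) = 6 * (D.n * D.c0) - D.n * (D.n - 1) := by ring
    rw [h9]
    push_cast at h7
    linarith

end Run7.h243
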