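import Pool.Agent.Run7.h243.Exact

set_option linter.unusedSectionVars false
set_option linter.unusedSimpArgs false

/-! Gluing a cyclic part over `ZMod n` and a local part. -/

namespace Run7.h243.G

open Equiv Run7.B243 Run7.h243

/-- a current graph over `ZMod n` with `e` arcs and `c` circuits -/
structure CayN (n e c : ℕ) where
  Lab : Type
  fin : Fintype Lab
  dec : DecidableEq Lab
  τ : Perm Lab
  ν : Perm Lab
  val : Lab → ZMod n
  cube : ∀ x, τ (τ (τ x)) = x
  sum : ∀ x, val x + val (τ x) + val (τ (τ x)) = 0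
  nu2 : ∀ x, ν (ν x) = x
  nune : ∀ x, ν x ≠ x ∨ val x ≠ 0
  nuval : ∀ x, val (ν x) = - val x
  card : Fintype.card Lab = e
  ncyc : cyc (τ * ν) = c
  conn : ∀ p q : ZMod n × Lab, Relation.EqvGen (fun a b : ZMod n × Lab => b = (a.1, τ (ν a.2)) ∨
    b = (a.1 + val a.2, ν a.2)) p q

attribute [instance] CayN.fin CayN.dec

variable {n c0 δ e c : ℕ} [NeZero n] (C : CayN n e c) (R : RSys n c0 δ) (t1 : C.Lab)

/-- partner, cyclic part -/
def aC : Perm (ZMod n × C.Lab) where
  toFun q := (q.1 + C.val q.2, C.ν q.2)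
  invFun q := (q.1 + C.val q.2, C.ν q.2)
  left_inv q := by
    refine Prod.ext ?_ (C.nu2 _)
    simp only [C.nuval]; ring
  right_inv q := by
    refine Prod.ext ?_ (C.nu2 _)
    simp only [C.nuval]; ring

/-- rotation, cyclic part -/
def sC (n : ℕ) (C : CayN n e c) : Perm (ZMod n × C.Lab) := Equiv.prodCongr (Equiv.refl _) (C.τ * C.ν)

theorem aC_apply (q : ZMod n × C.Lab) : aC C q = (q.1 + C.val q.2, C.ν q.2) := rfl
theorem sC_apply (q : ZMod n × C.Lab) : sC n C q = (q.1, C.τ (C.ν q.2)) := rfl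
theorem phC (q : ZMod n × C.Lab) : sC n C (aC C q) = (q.1 + C.val q.2, C.τ q.2) := by
  rw [aC_apply, sC_apply]; simp only [C.nu2]

/-- the darts -/
abbrev DD (C : CayN n e c) (R : RSys n c0 δ) : Type := (ZMod n × C.Lab) ⊕ (ZMod n × R.F)

def al : Perm (DD C R) := Perm.sumCongr (aC C) R.α
def s0 : Perm (DD C R) := Perm.sumCongr (sC n C) R.σ
def kap : DD C R → ZMod n
  | Sum.inl q => q.1
  | Sum.inr q => q.1
def sd : DD C R → Bool
  | Sum.inl _ => true
  | Sum.inr _ => false

/-- the arcs of the removed triangle -/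
def tl {n e c : ℕ} (C : CayN n e c) (t1 : C.Lab) : Fin 3 → C.Lab
  | 0 => t1
  | 1 => C.τ t1
  | 2 => C.τ (C.τ t1)
def TT (i : Fin 3) : ZMod n × C.Lab := (R.X i, tl C t1 i)
def AA (i : Fin 3) : DD C R := Sum.inl (aC C (TT C R t1 i))
def BB (i : Fin 3) : DD C R := Sum.inr (R.α (R.b (i + 1)))
def sg : Perm (DD C R) := glue3 (s0 C R) (AA C R t1) (BB C R)

theorem al_inl (q : ZMod n × C.Lab) : al C R (Sum.inl q) = Sum.inl (aC C q) := rfl
theorem al_inr (q : ZMod n × R.F) : al C R (Sum.inr q) = Sum.inr (R.α q) := rfl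
theorem s0_inl (q : ZMod n × C.Lab) : s0 C R (Sum.inl q) = Sum.inl (sC n C q) := rfl
theorem s0_inr (q : ZMod n × R.F) : s0 C R (Sum.inr q) = Sum.inr (R.σ q) := rfl

theorem kap_s0 (x : DD C R) : kap C R (s0 C R x) = kap C R x := by
  rcases x with q | q
  · rfl
  · exact R.σ1 q
theorem sd_s0 (x : DD C R) : sd C R (s0 C R x) = sd C R x := by rcases x with q | q <;> rfl

variable (hX1 : R.X 1 = R.X 0 + C.val t1)
  (hX2 : R.X 2 = R.X 1 + C.val (C.τ t1))

include hX1 hX2 in
theorem hX (i : Fin 3) : R.X (i + 1) = R.X i + C.val (tl C t1 i) := by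
  fin_cases i
  · exact hX1
  · exact hX2
  · show R.X 0 = R.X 2 + C.val (C.τ (C.τ t1))
    have := C.sum t1
    rw [hX2, hX1]; linear_combination -this

include hX1 hX2 in
theorem kap_AA (i : Fin 3) : kap C R (AA C R t1 i) = R.X (i + 1) := (hX C R t1 hX1 hX2 i).symm

theorem kap_BB (i : Fin 3) : kap C R (BB C R i) = R.X (i + 1) := R.lb (i + 1)

theorem fin3 (i : Fin 3) : i + 1 + 2 = i := by revert i; decide
theorem fin3' (i : Fin 3) : i + 2 + 1 = i := by revert i; decide

include hX1 hX2 in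
theorem hkA (i j : Fin 3) (h : i ≠ j) : kap C R (AA C R t1 i) ≠ kap C R (AA C R t1 j) := by
  rw [kap_AA C R t1 hX1 hX2, kap_AA C R t1 hX1 hX2]
  intro e
  exact h (add_right_cancel (R.Xinj e))

include hX1 hX2 in
theorem hAB (i : Fin 3) : kap C R (AA C R t1 i) = kap C R (BB C R i) := by
  rw [kap_AA C R t1 hX1 hX2, kap_BB]

include hX1 hX2 in
theorem sg_A (i : Fin 3) : sg C R t1 (AA C R t1 i) = s0 C R (BB C R i) :=
  glue3_A _ (kap C R) (sd C R) _ _ (fun _ => rfl) (fun _ => rfl) (hkA C R t1 hX1 hX2)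
    (hAB C R t1 hX1 hX2) i

include hX1 hX2 in
theorem sg_B (i : Fin 3) : sg C R t1 (BB C R i) = s0 C R (AA C R t1 i) :=
  glue3_B _ (kap C R) (sd C R) _ _ (fun _ => rfl) (fun _ => rfl) (hkA C R t1 hX1 hX2)
    (hAB C R t1 hX1 hX2) i

theorem sg_o {x : DD C R} (h1 : ∀ i, x ≠ AA C R t1 i) (h2 : ∀ i, x ≠ BB C R i) :
    sg C R t1 x = s0 C R x := glue3_o _ _ _ h1 h2

include hX1 hX2 in
theorem phT (i : Fin 3) : sC n C (aC C (TT C R t1 i)) = TT C R t1 (i + 1) := by
  rw [phC]
  refine Prod.ext (hX C R t1 hX1 hX2 i).symm ?_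
  fin_cases i
  · rfl
  · rfl
  · exact C.cube t1

include hX1 hX2 in
theorem ph_T (i : Fin 3) : sg C R t1 (al C R (Sum.inl (TT C R t1 i))) = Sum.inr (R.a i) := by
  have : al C R (Sum.inl (TT C R t1 i)) = AA C R t1 i := rfl
  rw [this, sg_A C R t1 hX1 hX2]
  simp only [BB, s0_inr, R.pb, fin3]

include hX1 hX2 in
theorem ph_b (i : Fin 3) : sg C R t1 (al C R (Sum.inr (R.b i))) = Sum.inl (TT C R t1 i) := by
  have : al C R (Sum.inr (R.b i)) = BB C R (i + 2) := by
    show Sum.inr (R.α (R.b i)) = Sum.inr (R.α (R.b (i + 2 + 1)))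
    rw [fin3']
  rw [this, sg_B C R t1 hX1 hX2]
  simp only [AA, s0_inl, phT C R t1 hX1 hX2, fin3']

theorem ph_C (q : ZMod n × C.Lab) (h : ∀ i, q ≠ TT C R t1 i) :
    sg C R t1 (al C R (Sum.inl q)) = Sum.inl (sC n C (aC C q)) := by
  rw [al_inl, sg_o, s0_inl]
  · intro i hh
    exact h i ((aC C).injective (Sum.inl.inj hh))
  · intro i hh; exact absurd hh (by simp [BB])

theorem ph_R (q : ZMod n × R.F) (h : ∀ i, q ≠ R.b i) :
    sg C R t1 (al C R (Sum.inr q)) = Sum.inr (R.σ (R.α q)) := by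
  rw [al_inr, sg_o, s0_inr]
  · intro i hh; exact absurd hh (by simp [AA])
  · intro i hh
    exact h _ (R.α.injective (Sum.inr.inj hh))

theorem ph_C3 (q : ZMod n × C.Lab) :
    sC n C (aC C (sC n C (aC C (sC n C (aC C q))))) = q := by
  rw [phC, phC, phC]
  refine Prod.ext ?_ (C.cube _)
  show q.1 + C.val q.2 + C.val (C.τ q.2) + C.val (C.τ (C.τ q.2)) = q.1
  have := C.sum q.2
  linear_combination this

include hX1 hX2 in
theorem sg_three : Fintype.card (DD C R) ≤ 3 * Run7.B243.cyc (sg C R t1 * al C R) + δ := by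
  refine cyc_three _ (R.big.map ⟨Sum.inr, Sum.inr_injective⟩)
    (R.big0.map ⟨Sum.inr, Sum.inr_injective⟩) δ ?_ ?_ ?_ ?_
  · rintro x hx
    simp only [Perm.mul_apply]
    rcases x with q | q
    · by_cases h : ∃ i, q = TT C R t1 i
      · obtain ⟨i, rfl⟩ := h
        rw [ph_T C R t1 hX1 hX2, ph_R C R t1 _ (fun j => R.ab i j), R.pa, ph_b C R t1 hX1 hX2]
      · push Not at h
        have inj : ∀ q : ZMod n × C.Lab, (∀ i, q ≠ TT C R t1 i) → ∀ i, sC n C (aC C q) ≠ TT C R t1 i := by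
          intro q h i hh
          have e : TT C R t1 i = sC n C (aC C (TT C R t1 (i + 2))) := by
            rw [phT C R t1 hX1 hX2, fin3']
          rw [e] at hh
          exact h _ ((aC C).injective ((sC n C).injective hh))
        rw [ph_C C R t1 q h, ph_C C R t1 _ (inj q h), ph_C C R t1 _ (inj _ (inj q h)), ph_C3]
    · have hq : q ∉ R.big := by
        intro h; apply hx
        simp only [Finset.mem_map, Function.Embedding.coeFn_mk]
        exact ⟨q, h, rfl⟩
      by_cases ha : ∃ i, q = R.a i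
      · obtain ⟨i, rfl⟩ := ha
        rw [ph_R C R t1 _ (fun j => R.ab i j), R.pa, ph_b C R t1 hX1 hX2, ph_T C R t1 hX1 hX2]
      · by_cases hb : ∃ i, q = R.b i
        · obtain ⟨i, rfl⟩ := hb
          rw [ph_b C R t1 hX1 hX2, ph_T C R t1 hX1 hX2, ph_R C R t1 _ (fun j => R.ab i j), R.pa]
        · push Not at ha hb
          have injb : ∀ q : ZMod n × R.F, (∀ i, q ≠ R.a i) → ∀ i, R.σ (R.α q) ≠ R.b i := by
            intro q h i hh
            rw [← R.pa i] at hh
            exact h _ (R.α.injective (R.σ.injective hh))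
          have inja : ∀ q : ZMod n × R.F, (∀ i, q ≠ R.b i) → ∀ i, R.σ (R.α q) ≠ R.a i := by
            intro q h i hh
            have := R.pb (i + 1)
            rw [fin3] at this
            rw [← this] at hh
            exact h _ (R.α.injective (R.σ.injective hh))
          rw [ph_R C R t1 q hb, ph_R C R t1 _ (injb q ha), ph_R C R t1 _ (injb _ (inja q hb)),
            R.tri q hq ha hb]
  · intro x hx
    simp only [Finset.mem_map, Function.Embedding.coeFn_mk] at hx ⊢
    obtain ⟨q, hq, rfl⟩ := hx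
    rw [Perm.mul_apply, ph_R C R t1 q (by rintro i rfl; exact R.bbig i hq)]
    exact ⟨_, R.bigc q hq, rfl⟩
  · rw [Finset.card_map]; exact R.big0c
  · have : (R.big.map ⟨Sum.inr, Sum.inr_injective⟩ : Finset (DD C R)) \
        R.big0.map ⟨Sum.inr, Sum.inr_injective⟩ =
        (R.big \ R.big0).map ⟨Sum.inr, Sum.inr_injective⟩ := by
      ext x
      simp only [Finset.mem_sdiff, Finset.mem_map, Function.Embedding.coeFn_mk]
      constructor
      · rintro ⟨⟨q, hq, rfl⟩, h2⟩
        exact ⟨q, ⟨hq, fun h => h2 ⟨q, h, rfl⟩⟩, rfl⟩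
      · rintro ⟨q, ⟨h1, h2⟩, rfl⟩
        refine ⟨⟨q, h1, rfl⟩, ?_⟩
        rintro ⟨q', hq', e⟩
        exact h2 (Sum.inr.inj e ▸ hq')
    rw [this, Finset.card_map]; exact R.bigd


include hX1 hX2 in
theorem sg_merge :
    Run7.B243.cyc (sg C R t1) + 3 = Run7.B243.cyc (s0 C R) ∧
    (∀ x y, cl (s0 C R) x = cl (s0 C R) y → cl (sg C R t1) x = cl (sg C R t1) y) ∧
    (∀ i, cl (sg C R t1) (AA C R t1 i) = cl (sg C R t1) (BB C R i)) :=
  merge3 _ (kap C R) (sd C R) (kap_s0 C R) (sd_s0 C R) _ _ (fun _ => rfl) (fun _ => rfl)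
    (hkA C R t1 hX1 hX2) (hAB C R t1 hX1 hX2)

include hX1 hX2 in
theorem kap_sg (x : DD C R) : kap C R (sg C R t1 x) = kap C R x :=
  glue3_kappa _ (kap C R) (kap_s0 C R) _ _ (hAB C R t1 hX1 hX2) x

theorem cyc_s0 : n * (c + c0) + 3 ≤ Run7.B243.cyc (s0 C R) := by
  classical
  let N : Type := (ZMod n × Quot (fun a b => b = (C.τ * C.ν) a)) ⊕ ((ZMod n × Fin c0) ⊕ Fin 3)
  let G : DD C R → N := fun x => match x with
    | Sum.inl q => Sum.inl (q.1, cl (C.τ * C.ν) q.2)
    | Sum.inr q => if h : R.cy q < c0 then Sum.inr (Sum.inl (q.1, ⟨R.cy q, h⟩)) else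
        if h' : ∃ i, q.1 = R.X i then Sum.inr (Sum.inr h'.choose) else Sum.inr (Sum.inr 0)
  have hcard : Nat.card N = n * (c + c0) + 3 := by
    have h1 : Nat.card (Quot (fun a b => b = (C.τ * C.ν) a)) = c := C.ncyc
    rw [Nat.card_sum, Nat.card_prod, Nat.card_sum, Nat.card_prod, h1]
    simp only [Nat.card_eq_fintype_card, ZMod.card, Fintype.card_fin]
    ring
  rw [← hcard]
  refine card_le_cyc _ G ?_ ?_
  · intro x
    rcases x with q | q
    · show (Sum.inl _ : N) = Sum.inl _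
      congr 1
      exact Prod.ext rfl (cl_apply (C.τ * C.ν) q.2)
    · have e1 := R.cyσ q
      have e2 := R.σ1 q
      rw [s0_inr]
      simp only [G, e1, e2]
  · intro t
    rcases t with ⟨x, Q⟩ | ⟨x, i⟩ | i
    · induction Q using Quot.ind with
      | mk l => exact ⟨Sum.inl (x, l), rfl⟩
    · obtain ⟨q, hq1, hq2⟩ := R.rep x i.val i.isLt
      refine ⟨Sum.inr q, ?_⟩
      simp only [G]
      rw [dif_pos (by rw [hq2]; exact i.isLt)]
      congr 2
      exact Prod.ext hq1 (Fin.ext hq2)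
    · refine ⟨Sum.inr (R.α (R.b i)), ?_⟩
      simp only [G]
      rw [dif_neg (by rw [R.path]; omega)]
      have h' : ∃ j, (R.α (R.b i)).1 = R.X j := ⟨i, R.lb i⟩
      rw [dif_pos h']
      congr 2
      exact (R.Xinj ((R.lb i).symm.trans h'.choose_spec)).symm

include hX1 hX2 in
theorem cyc_sg : n * (c + c0) ≤ Run7.B243.cyc (sg C R t1) := by
  have h1 := cyc_s0 C R
  have h2 := (sg_merge C R t1 hX1 hX2).1
  omega

/-- a dart of `R` in the class of the cyclic part -/
def toC (q : ZMod n × R.F) : Prop := ∃ q' : ZMod n × C.Lab, q'.1 = q.1 ∧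
  cl (sg C R t1) (Sum.inr q) = cl (sg C R t1) (Sum.inl q')

include hX1 hX2 in
theorem path_toC (q : ZMod n × R.F) (h : R.cy q = c0) : toC C R t1 q := by
  obtain ⟨m1, m2, m3⟩ := sg_merge C R t1 hX1 hX2
  rcases R.cyl q with h' | ⟨_, i, hi⟩
  · omega
  · have e1 : cl R.σ q = cl R.σ (R.α (R.b i)) :=
      R.cyc _ _ (by rw [hi, R.lb]) (by rw [h, R.path])
    have e2 : cl (s0 C R) (Sum.inr q) = cl (s0 C R) (Sum.inr (R.α (R.b i))) :=
      cl_map R.σ (s0 C R) Sum.inr (fun _ => rfl) e1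
    have e3 := m2 _ _ e2
    have e4 : BB C R (i + 2) = Sum.inr (R.α (R.b i)) := by
      show Sum.inr (R.α (R.b (i + 2 + 1))) = _
      rw [fin3']
    rw [← e4, ← m3] at e3
    refine ⟨_, ?_, e3⟩
    have := kap_AA C R t1 hX1 hX2 (i + 2)
    rw [fin3'] at this
    rw [hi]; exact this

include hX1 hX2 in
theorem parts (x : ZMod n) :
    Nat.card {q : Quot (fun a b => b = sg C R t1 a) // ∃ y, kap C R y = x ∧ q = cl (sg C R t1) y} ≤
      c + c0 := by
  classical
  obtain ⟨m1, m2, m3⟩ := sg_merge C R t1 hX1 hX2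
  have hcard : Nat.card (Quot (fun a b => b = (C.τ * C.ν) a) ⊕ Fin c0) = c + c0 := by
    have h1 : Nat.card (Quot (fun a b => b = (C.τ * C.ν) a)) = c := C.ncyc
    rw [Nat.card_sum, h1]; simp
  rw [← hcard]
  refine Nat.card_le_card_of_surjective (fun t => match t with
    | Sum.inl Q => ⟨cl (sg C R t1) (Sum.inl (x, Q.out)), ⟨_, rfl, rfl⟩⟩
    | Sum.inr i => ⟨cl (sg C R t1) (Sum.inr (R.rep x i.val i.isLt).choose),
        ⟨Sum.inr (R.rep x i.val i.isLt).choose, (R.rep x i.val i.isLt).choose_spec.1, rfl⟩⟩) ?_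
  have inl_case : ∀ l : C.Lab, cl (sg C R t1) (Sum.inl (x, (cl (C.τ * C.ν) l).out)) =
      cl (sg C R t1) (Sum.inl (x, l)) := by
    intro l
    apply m2
    have e : cl (C.τ * C.ν) (cl (C.τ * C.ν) l).out = cl (C.τ * C.ν) l := Quot.out_eq _
    exact cl_map (C.τ * C.ν) (s0 C R) (fun l => Sum.inl (x, l)) (fun _ => rfl) e
  rintro ⟨q, y, hy, rfl⟩
  rcases y with ⟨x', l⟩ | q
  · have hx : x' = x := hy
    subst hx
    exact ⟨Sum.inl (cl (C.τ * C.ν) l), Subtype.ext (inl_case l)⟩
  · have hx : q.1 = x := hy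
    by_cases h : R.cy q < c0
    · refine ⟨Sum.inr ⟨R.cy q, h⟩, Subtype.ext ?_⟩
      show cl (sg C R t1) (Sum.inr (R.rep x (R.cy q) h).choose) = _
      apply m2
      have hc := (R.rep x (R.cy q) h).choose_spec
      exact cl_map R.σ (s0 C R) Sum.inr (fun _ => rfl)
        (R.cyc _ _ (by rw [hc.1, hx]) (by rw [hc.2]))
    · have h' : R.cy q = c0 := by
        rcases R.cyl q with h' | h'
        · exact absurd h' h
        · exact h'.1
      obtain ⟨⟨x', l⟩, hx', hq⟩ := path_toC C R t1 hX1 hX2 q h'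
      have : x' = x := by rw [← hx]; exact hx'
      subst this
      exact ⟨Sum.inl (cl (C.τ * C.ν) l), Subtype.ext ((inl_case l).trans hq.symm)⟩

/-- connected -/
def Eq' (x y : DD C R) : Prop :=
  Relation.EqvGen (fun a b => b = sg C R t1 a ∨ b = al C R a) x y

theorem Eq'_cl {x y : DD C R} (h : cl (sg C R t1) x = cl (sg C R t1) y) : Eq' C R t1 x y := by
  have h' := Quot.eqvGen_exact h
  exact Relation.EqvGen.mono (fun a b h => Or.inl h) _ _ h'

theorem Eq'_al (x : DD C R) : Eq' C R t1 x (al C R x) := Relation.EqvGen.rel _ _ (Or.inr rfl)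

include hX1 hX2 in
theorem conn_C (p q : ZMod n × C.Lab) :
    Eq' C R t1 (Sum.inl p) (Sum.inl q) := by
  obtain ⟨m1, m2, m3⟩ := sg_merge C R t1 hX1 hX2
  have h := C.conn p q
  induction h with
  | rel a b hr =>
    rcases hr with hr | hr
    · subst hr
      apply Eq'_cl
      apply m2
      have := cl_apply (s0 C R) (Sum.inl a)
      exact this.symm
    · subst hr
      exact Eq'_al C R t1 (Sum.inl a)
  | refl a => exact Relation.EqvGen.refl _
  | symm a b _ ih => exact Relation.EqvGen.symm _ _ ih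
  | trans a b c _ _ ih1 ih2 => exact Relation.EqvGen.trans _ _ _ ih1 ih2

include hX1 hX2 in
theorem conn_all (x y : DD C R) : Eq' C R t1 x y := by
  obtain ⟨m1, m2, m3⟩ := sg_merge C R t1 hX1 hX2
  have base : ∀ x : DD C R, Eq' C R t1 x (Sum.inl (0, t1)) := by
    have hR : ∀ N : ℕ, ∀ q : ZMod n × R.F, R.rk q < N → Eq' C R t1 (Sum.inr q) (Sum.inl (0, t1)) := by
      intro N
      induction N with
      | zero => intro q h; omega
      | succ N ih =>
        intro q hq
        rcases R.desc q with h | ⟨q', h1, h2, h3⟩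
        · obtain ⟨q', _, hq'⟩ := path_toC C R t1 hX1 hX2 q h
          exact Relation.EqvGen.trans _ _ _ (Eq'_cl C R t1 hq') (conn_C C R t1 hX1 hX2 _ _)
        · have e1 : cl (sg C R t1) (Sum.inr q) = cl (sg C R t1) (Sum.inr q') :=
            m2 _ _ (cl_map R.σ (s0 C R) Sum.inr (fun _ => rfl) (R.cyc _ _ h1.symm h2.symm))
          have e2 := Eq'_al C R t1 (Sum.inr q')
          rw [al_inr] at e2
          exact Relation.EqvGen.trans _ _ _ (Eq'_cl C R t1 e1)
            (Relation.EqvGen.trans _ _ _ e2 (ih _ (by omega)))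
    intro x
    rcases x with q | q
    · exact conn_C C R t1 hX1 hX2 _ _
    · exact hR (R.rk q + 1) q (by omega)
  exact Relation.EqvGen.trans _ _ _ (base x) (Relation.EqvGen.symm _ _ (base y))

theorem al2 (x : DD C R) : al C R (al C R x) = x := by
  rcases x with q | q
  · exact congrArg Sum.inl ((aC C).left_inv q)
  · exact congrArg Sum.inr (R.α2 q)

theorem alne (x : DD C R) : al C R x ≠ x := by
  rcases x with q | q
  · intro h
    have h' := Sum.inl.inj h
    rcases C.nune q.2 with h1 | h1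
    · exact h1 (congrArg Prod.snd h')
    · apply h1
      have h2 := congrArg Prod.fst h'
      rw [aC_apply] at h2
      simpa using h2
  · intro h; exact R.αne q (Sum.inr.inj h)


include hX1 hX2 in
/-- the main consequence -/
theorem glue_goodE
    (hcov : ∀ g : ZMod n, g ≠ 0 → (∃ l, C.val l = g) ∨ ∃ p, R.off p = g)
    (hcard : e + Fintype.card R.F + 1 = n) :
    ∃ ε : ℤ, GoodE true ε n (c + c0) ∧ Even ε ∧
      (n : ℤ) * (6 * (c + c0 : ℕ) + 1 - n) - 2 * δ ≤ 6 * ε := by
  classical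
  let f : ZMod n ≃ Fin n := Fintype.equivFinOfCardEq (ZMod.card n)
  have hg := goodE_of_rot (sg C R t1) (al C R) ⟨Sum.inl (0, t1)⟩ (al2 C R) (alne C R)
    (conn_all C R t1 hX1 hX2) n (c + c0) (fun x => f (kap C R x))
    (by intro x; simp only [kap_sg C R t1 hX1 hX2]) (by
      intro x
      refine exact_parts (sg C R t1) (fun x => f (kap C R x))
        (by intro x; simp only [kap_sg C R t1 hX1 hX2]) (c + c0) ?_ ?_ x
      · intro x
        refine le_trans (le_of_eq ?_) (parts C R t1 hX1 hX2 (f.symm x))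
        congr 1
        congr 1
        funext q
        apply propext
        constructor
        · rintro ⟨y, hy, hq⟩; exact ⟨y, by rw [← hy]; simp, hq⟩
        · rintro ⟨y, hy, hq⟩; exact ⟨y, by rw [hy]; simp, hq⟩
      · rw [Fintype.card_fin]; exact cyc_sg C R t1 hX1 hX2) (by
      intro a b hab
      have hne : f.symm b - f.symm a ≠ 0 := by
        intro h; apply hab; exact f.symm.injective (sub_eq_zero.mp h).symm
      rcases hcov _ hne with ⟨l, hl⟩ | ⟨p, hp⟩
      · refine ⟨Sum.inl (f.symm a, l), ?_, ?_⟩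
        · show f (f.symm a) = a; simp
        · show f (f.symm a + C.val l) = b
          rw [hl]; simp
      · refine ⟨Sum.inr (f.symm a, p), ?_, ?_⟩
        · show f (f.symm a) = a; simp
        · show f (R.α (f.symm a, p)).1 = b
          rw [R.α1]; simp only [hp]; simp)
  refine ⟨_, hg, ?_, ?_⟩
  · have h1 := even_euler (sg C R t1) (al C R) (al2 C R) (alne C R)
    obtain ⟨t, ht⟩ := h1
    refine ⟨(t : ℤ) - Run7.B243.cyc (al C R), ?_⟩
    omega
  · have h1 := sg_three C R t1 hX1 hX2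
    rw [cyc_comm] at h1
    have h2 := cyc_invol (al C R) (al2 C R) (alne C R)
    have h3 := cyc_sg C R t1 hX1 hX2
    have h4 : Fintype.card (DD C R) = n * (n - 1) := by
      rw [Fintype.card_sum, Fintype.card_prod, Fintype.card_prod, ZMod.card, C.card]
      rw [← Nat.mul_add]
      congr 1
      omega
    have h5 : (n : ℤ) * (n - 1) = (Fintype.card (DD C R) : ℕ) := by
      rw [h4]
      have : 1 ≤ n := Nat.one_le_iff_ne_zero.mpr (NeZero.ne n)
      push_cast [this]; ring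
    have h6 : (n : ℤ) * (c + c0 : ℕ) ≤ Run7.B243.cyc (sg C R t1) := by exact_mod_cast h3
    have h7 : ((Fintype.card (DD C R) : ℕ) : ℤ) ≤
        3 * Run7.B243.cyc (al C R * sg C R t1) + δ := by exact_mod_cast h1
    have h8 : 2 * (Run7.B243.cyc (al C R) : ℤ) = (Fintype.card (DD C R) : ℕ) := by
      exact_mod_cast h2
    have h9 : (n : ℤ) * (6 * (c + c0 : ℕ) + 1 - n) = 6 * (n * (c + c0 : ℕ)) - n * (n - 1) := by ring
    rw [h9]
    linarith


end Run7.h243.G
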