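import Pool.Agent.Run7.h243.G.Vals
import Pool.Agent.Run7.h243.G.Glue

set_option linter.unusedSectionVars false
set_option linter.unusedSimpArgs false

/-! The current graphs over the integers. -/

namespace Run7.h243.G

open Equiv Run7.B243 Run7.h243

section hs

variable {N J : ℕ} {K : Core N J} {V : CoreV N} {l M : ℕ}

def potA (K : Core N J) (V : CoreV N) (j : ℕ) : ℤ := if j = 0 then 0 else - V.A (K.er j)
def potB (K : Core N J) (V : CoreV N) (j : ℕ) : ℤ := if j = 0 then 0 else - V.B (K.er j)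
def hA (K : Core N J) (V : CoreV N) (y : Fin N) : ℤ :=
  V.A y + potA K V (K.nm (K.nu y)) - potA K V (K.nm y)
def hB (K : Core N J) (V : CoreV N) (y : Fin N) : ℤ :=
  V.B y + potB K V (K.nm (K.nu y)) - potB K V (K.nm y)

variable (hK : K.Ok) (hV : Okv K V)

theorem pnu_apply (x : LL N M) : pnu hK M x = lnu K M x := rfl

include hV in
theorem to_pot (c : Fin N) (z : ℤ) :
    Relation.EqvGen (RZ (ppi hK M) (pnu hK M) (vl V l M)) (z, Sum.inl c)
      (z + (potA K V (K.nm c) + potB K V (K.nm c) * l), Sum.inl K.aT) := by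
  by_cases h0 : K.nm c = 0
  · rw [potA, potB, h0, if_pos rfl, if_pos rfl]
    simp only [zero_mul, add_zero]
    refine rz_cl (cl_of_name hK ?_) z
    show K.nm c = K.nm K.aT
    rw [h0, hK.nmaT]
  · obtain ⟨e1, e2, e3⟩ := hK.erc _ (hK.nm9 c) h0
    have a1 := rz_cl (ν := pnu hK M) (val := vl V l M) (cl_of_name hK (x := Sum.inl c)
      (y := Sum.inl (K.nu (K.er (K.nm c)))) e2.symm) z
    have a2 := rz_nu (π := ppi hK M) (ν := pnu hK M) (val := vl V l M)
      (Sum.inl (K.nu (K.er (K.nm c)))) z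
    have e4 : pnu hK M (Sum.inl (K.nu (K.er (K.nm c)))) = Sum.inl (K.er (K.nm c)) := by
      rw [pnu_apply, lnu_in (hK.nuin _ e3).1, hK.nu2]
    have e5 : vl V l M (Sum.inl (K.nu (K.er (K.nm c)))) =
        potA K V (K.nm c) + potB K V (K.nm c) * l := by
      simp only [vl, hV.nA _ e3, hV.nB _ e3, potA, potB, h0, if_false]
    rw [e4, e5] at a2
    have a3 := rz_cl (ν := pnu hK M) (val := vl V l M) (cl_of_name hK
      (x := Sum.inl (K.er (K.nm c))) (y := Sum.inl K.aT) (e1.trans hK.nmaT.symm))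
      (z + (potA K V (K.nm c) + potB K V (K.nm c) * l))
    exact (a1.trans _ _ _ a2).trans _ _ _ a3

include hV in
theorem hs_inner (y : Fin N) (hy : K.inner y) :
    Hs (ppi hK M) (pnu hK M) (vl V l M) (Sum.inl K.aT) (hA K V y + hB K V y * l) := by
  intro z
  have b1 := (to_pot hK hV (l := l) (M := M) y
    (z - (potA K V (K.nm y) + potB K V (K.nm y) * l))).symm
  have b2 := rz_nu (π := ppi hK M) (ν := pnu hK M) (val := vl V l M) (Sum.inl y)
    (z - (potA K V (K.nm y) + potB K V (K.nm y) * l))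
  have e4 : pnu hK M (Sum.inl y) = Sum.inl (K.nu y) := by
    rw [pnu_apply, lnu_in hy]
  rw [e4] at b2
  have b3 := to_pot hK hV (l := l) (M := M) (K.nu y)
    (z - (potA K V (K.nm y) + potB K V (K.nm y) * l) + vl V l M (Sum.inl y))
  have := (b1.trans _ _ _ b2).trans _ _ _ b3
  rw [sub_add_cancel] at this
  have e : z - (potA K V (K.nm y) + potB K V (K.nm y) * l) + vl V l M (Sum.inl y) +
      (potA K V (K.nm (K.nu y)) + potB K V (K.nm (K.nu y)) * l) =
      z + (hA K V y + hB K V y * l) := by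
    simp only [vl, hA, hB]; ring
  rwa [e] at this

include hV in
theorem hs_list (L : List (Fin N × ℤ)) (h : ∀ q ∈ L, K.inner q.1) :
    Hs (ppi hK M) (pnu hK M) (vl V l M) (Sum.inl K.aT)
      ((L.map (fun q => q.2 * hA K V q.1)).sum + (L.map (fun q => q.2 * hB K V q.1)).sum * l) := by
  induction L with
  | nil => simpa using Hs.zero
  | cons q L ih =>
    have h1 := (hs_inner hK hV (l := l) (M := M) q.1 (h q List.mem_cons_self)).mul q.2
    have h2 := h1.add (ih (fun q' hq' => h q' (List.mem_cons_of_mem _ hq')))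
    simp only [List.map_cons, List.sum_cons]
    have e : q.2 * (hA K V q.1 + hB K V q.1 * l) +
        ((L.map (fun q => q.2 * hA K V q.1)).sum + (L.map (fun q => q.2 * hB K V q.1)).sum * l) =
        q.2 * hA K V q.1 + (L.map (fun q => q.2 * hA K V q.1)).sum +
          (q.2 * hB K V q.1 + (L.map (fun q => q.2 * hB K V q.1)).sum) * l := by ring
    rwa [e] at h2

end hs

/-- an integral current graph on the differences `u` with `P u`, with `c` circuits, with two
consecutive arcs of values `v1`, `v2` -/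
structure CayU (P : ℕ → Prop) (s c : ℕ) (v1 v2 : ℤ) where
  Lab : Type
  fin : Fintype Lab
  dec : DecidableEq Lab
  τ : Perm Lab
  ν : Perm Lab
  val : Lab → ℤ
  tri : Tri val τ
  nu2 : ∀ x, ν (ν x) = x
  nune : ∀ x, ν x ≠ x
  nuval : ∀ x, val (ν x) = - val x
  cov : ∀ u : ℕ, P u → ∃ x, val x = u
  card : Fintype.card Lab = 6 * s
  ncyc : cyc (τ * ν) = c
  conn : ∀ p q : ℤ × Lab, Relation.EqvGen (RZ (τ * ν) ν val) p q
  t1 : Lab
  h1 : val t1 = v1
  h2 : val (τ t1) = v2

section mk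

variable {N J : ℕ} {K : Core N J} {V : CoreV N} {l M : ℕ}

theorem cayU_of (hK : K.Ok) (hV : Okv K V) (hM : M = 2 * l + V.e) (L : List (Fin N × ℤ))
    (hL : ∀ q ∈ L, K.inner q.1) (hL1 : (L.map (fun q => q.2 * hA K V q.1)).sum = 1)
    (hL0 : (L.map (fun q => q.2 * hB K V q.1)).sum = 0) (P : ℕ → Prop)
    (hP : ∀ u, P u → 1 ≤ u ∧ (u ≤ V.G → u ∈ V.sm) ∧ u ≤ 3 * (M + V.G + 1) + V.a + V.b + V.c + 2)
    (s c : ℕ) (hs : N + 6 * (M + 1) = 6 * s) (t : Perm (LL N M)) (ht : Tri (vl V l M) t)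
    (hc : cyc (t * pnu hK M) = c)
    (hco : ∀ x y, cl (ppi hK M) x = cl (ppi hK M) y → cl (t * pnu hK M) x = cl (t * pnu hK M) y)
    (o : Fin N) (ho : t (Sum.inl o) = Sum.inl (K.tau o)) :
    Nonempty (CayU P s c (V.A o + V.B o * l) (V.A (K.tau o) + V.B (K.tau o) * l)) := by
  have h1 : Hs (ppi hK M) (pnu hK M) (vl V l M) (Sum.inl K.aT) 1 := by
    have := hs_list hK hV (l := l) (M := M) L hL
    rw [hL1, hL0] at this
    simpa using this
  refine ⟨{
    Lab := LL N M, fin := inferInstance, dec := inferInstance, τ := t, ν := pnu hK M,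
    val := vl V l M
    tri := ht, nu2 := fun x => lnu_lnu hK x, nune := fun x => lnu_ne hK x
    nuval := fun x => vl_nu hK hV hM x
    cov := ?_, card := ?_, ncyc := hc, conn := ?_, t1 := Sum.inl o, h1 := rfl, h2 := ?_ }⟩
  · intro u hu
    obtain ⟨a1, a2, a3⟩ := hP u hu
    obtain ⟨x, hx | hx⟩ := vl_cov hV hM u a1 a2 a3
    · exact ⟨x, hx⟩
    · refine ⟨lnu K M x, ?_⟩
      rw [vl_nu hK hV hM, hx]; ring
  · rw [Fintype.card_sum, Fintype.card_prod, Fintype.card_fin, Fintype.card_fin]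
    have : Fintype.card K6 = 6 := rfl
    rw [this, ← hs]; ring
  · intro p q
    have h := conn_of h1 (to_base hK) p q
    induction h with
    | rel a b hr =>
      rcases hr with hr | hr
      · subst hr
        exact rz_cl (hco _ _ (cl_apply (ppi hK M) a.2).symm) a.1
      · subst hr; exact Relation.EqvGen.rel _ _ (Or.inr rfl)
    | refl a => exact Relation.EqvGen.refl _
    | symm a b _ ih => exact ih.symm
    | trans a b c _ _ ih1 ih2 => exact ih1.trans _ _ _ ih2
  · rw [ho]; rfl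

end mk

section ton

attribute [local instance] CayU.fin CayU.dec

/-- reduction modulo `n` -/
def CayU.toN {P : ℕ → Prop} {s c : ℕ} {v1 v2 : ℤ} (C : CayU P s c v1 v2) (n : ℕ) [NeZero n] (μ : ℤ)
    (hμ : ∀ x : ZMod n, ∃ z : ℤ, x = ((μ * z : ℤ) : ZMod n)) : CayN n (6 * s) c where
  Lab := C.Lab
  fin := C.fin
  dec := C.dec
  τ := C.τ
  ν := C.ν
  val x := ((μ * C.val x : ℤ) : ZMod n)
  cube := C.tri.cube
  sum x := by
    have := C.tri.sum x
    rw [← Int.cast_add, ← Int.cast_add, ← mul_add, ← mul_add, this]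
    simp
  nu2 := C.nu2
  nune x := Or.inl (C.nune x)
  nuval x := by rw [C.nuval, mul_neg, Int.cast_neg]
  card := C.card
  ncyc := C.ncyc
  conn := by
    rintro ⟨p, x⟩ ⟨q, y⟩
    obtain ⟨z, rfl⟩ := hμ p
    obtain ⟨w, rfl⟩ := hμ q
    have h := C.conn (z, x) (w, y)
    have key : ∀ a b : ℤ × C.Lab, Relation.EqvGen (RZ (C.τ * C.ν) C.ν C.val) a b →
        Relation.EqvGen (fun a b : ZMod n × C.Lab => b = (a.1, C.τ (C.ν a.2)) ∨
          b = (a.1 + ((μ * C.val a.2 : ℤ) : ZMod n), C.ν a.2))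
          (((μ * a.1 : ℤ) : ZMod n), a.2) (((μ * b.1 : ℤ) : ZMod n), b.2) := by
      intro a b h
      induction h with
      | rel a b hr =>
        refine Relation.EqvGen.rel _ _ ?_
        rcases hr with hr | hr
        · left; subst hr; rfl
        · right; subst hr
          refine Prod.ext ?_ rfl
          show ((μ * (a.1 + C.val a.2) : ℤ) : ZMod n) = _
          rw [mul_add, Int.cast_add]
      | refl a => exact Relation.EqvGen.refl _
      | symm a b _ ih => exact ih.symm
      | trans a b c _ _ ih1 ih2 => exact ih1.trans _ _ _ ih2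
    exact key _ _ h

end ton

end Run7.h243.G
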