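import Pool.Agent.Run7.h243.G.DirB

set_option linter.unusedSectionVars false
set_option linter.unusedSimpArgs false

/-! Tables with several large faces. -/

namespace Run7.h243

open Equiv Run7.B243 Run7.h243.G

/-- a bound on the number of cycles, several long cycles -/
theorem cyc_multi {D : Type} [DecidableEq D] [Fintype D] (f : Perm D) (L : List (Finset D))
    (big0 : Finset D) (δ : ℕ) (h1 : ∀ x, (∀ B ∈ L, x ∉ B) → f (f (f x)) = x)
    (h2 : ∀ B ∈ L, ∀ x ∈ B, f x ∈ B) (h3 : big0.card ≤ δ)
    (h4 : ∀ B ∈ L, (B \ big0).card ≤ 3) : Fintype.card D ≤ 3 * cyc f + δ := by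
  classical
  have hiff : ∀ B ∈ L, ∀ x, f x ∈ B ↔ x ∈ B := by
    intro B hB x
    refine ⟨fun h => ?_, h2 B hB x⟩
    have e : B.map f.toEmbedding = B := by
      refine Finset.eq_of_subset_of_card_le ?_ (by rw [Finset.card_map])
      intro y hy
      rw [Finset.mem_map] at hy
      obtain ⟨z, hz, rfl⟩ := hy
      exact h2 B hB z hz
    rw [← e, Finset.mem_map] at h
    obtain ⟨z, hz, hz'⟩ := h
    have : z = x := f.injective hz'
    rw [← this]; exact hz
  have hfind : ∀ x, L.find? (fun B => decide (f x ∈ B)) = L.find? (fun B => decide (x ∈ B)) := by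
    intro x
    have : ∀ M : List (Finset D), (∀ B ∈ M, B ∈ L) →
        M.find? (fun B => decide (f x ∈ B)) = M.find? (fun B => decide (x ∈ B)) := by
      intro M
      induction M with
      | nil => intro _; rfl
      | cons B M ih =>
        intro hM
        rw [List.find?_cons, List.find?_cons, ih (fun B' hB' => hM B' (List.mem_cons_of_mem _ hB'))]
        have := hiff B (hM B List.mem_cons_self) x
        by_cases hx : x ∈ B
        · rw [decide_eq_true hx, decide_eq_true (this.mpr hx)]
        · rw [decide_eq_false hx, decide_eq_false (fun h => hx (this.mp h))]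
    exact this L (fun _ h => h)
  have hnone : ∀ x, L.find? (fun B => decide (x ∈ B)) = none → f (f (f x)) = x := by
    intro x hx
    refine h1 x ?_
    intro B hB hxB
    rw [List.find?_eq_none] at hx
    exact hx B hB (by simpa using hxB)
  have key := cyc_weight f (fun y => if y ∈ big0 then 0 else 1)
    (fun x => (L.find? (fun B => decide (x ∈ B))).getD {x, f x, f (f x)}) (by
      intro x
      rw [hfind x]
      cases hc : L.find? (fun B => decide (x ∈ B)) with
      | some B => rfl
      | none =>
        simp only [Option.getD_none, hnone x hc]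
        ext y; simp only [Finset.mem_insert, Finset.mem_singleton]; tauto) (by
      intro x
      cases hc : L.find? (fun B => decide (x ∈ B)) with
      | some B =>
        have := List.find?_some hc
        simpa using this
      | none => simp) 3 (by
      intro x
      cases hc : L.find? (fun B => decide (x ∈ B)) with
      | some B =>
        have hB := List.mem_of_find?_eq_some hc
        simp only [Option.getD_some]
        have e : (∑ y ∈ B, if y ∈ big0 then 0 else 1) = (B \ big0).card := by
          rw [Finset.card_eq_sum_ones, ← Finset.filter_notMem_eq_sdiff, Finset.sum_filter]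
          apply Finset.sum_congr rfl
          intro y _
          by_cases hy : y ∈ big0 <;> simp [hy]
        rw [e]; exact h4 B hB
      | none =>
        simp only [Option.getD_none]
        refine le_trans (Finset.sum_le_card_nsmul _ _ 1 ?_) ?_
        · intro y _; by_cases hy : y ∈ big0 <;> simp [hy]
        · rw [nsmul_eq_mul, mul_one]; exact Finset.card_le_three)
  have e2 : (∑ y : D, if y ∈ big0 then 0 else 1) + big0.card = Fintype.card D := by
    have : (∑ y : D, if y ∈ big0 then 0 else 1) = (Finset.univ \ big0).card := by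
      rw [Finset.card_eq_sum_ones, ← Finset.filter_notMem_eq_sdiff, Finset.sum_filter]
      apply Finset.sum_congr rfl
      intro y _
      by_cases hy : y ∈ big0 <;> simp [hy]
    rw [this, Finset.card_sdiff_of_subset (Finset.subset_univ _), Finset.card_univ]
    have := Finset.card_le_univ big0
    omega
  omega

/-- the map from a table alone -/
theorem whole_optM {D : Dir} (ok : D.Ok) (hh : D.hole = false) (L : List (List (ℕ × ℕ)))
    (hL : D.big = L.flatten) (hc : ∀ l ∈ L, ∀ q ∈ l, D.nx q ∈ l)
    (hδ : (L.map (fun l => l.length - 3)).sum ≤ 5)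
    (hcov : ∀ g < D.n, g ≠ 0 → ∃ p < D.d, D.of p = g) (hcard : D.d + 1 = D.n) : Opt D.n D.c0 := by
  classical
  have := Dir.nne ok
  have hnc : ∀ x, D.nc x = D.c0 := by
    intro x
    rcases Dir.nc_cases (D := D) x with ⟨h, _⟩ | ⟨_, h⟩
    · rw [Dir.isH_iff, hh] at h; simp at h
    · exact h
  have hcyc : Run7.B243.cyc (Dir.sgD ok) = D.n * D.c0 := by
    have h1 : Run7.B243.cyc (Dir.sgD ok) = Nat.card (ZMod D.n × Fin D.c0) := by
      unfold cyc
      refine Nat.card_eq_of_bijective
        (Quot.lift (fun q => (q.1, (⟨Dir.cyz q, by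
          have := Dir.cyz_lt ok q; rwa [hnc] at this⟩ : Fin D.c0))) (by
          intro a b h; subst h
          refine Prod.ext rfl (Fin.ext ?_)
          obtain ⟨h1, h2, h3, h4, h5, _⟩ := ok.c _ _ (Dir.vlt ok a.1) a.2.isLt
          rw [Dir.sgD_apply]
          unfold Dir.cyz
          simp only
          rw [Dir.fz_val ok h1, h5])) ⟨?_, ?_⟩
      · intro q q' h
        induction q using Quot.ind with
        | mk l =>
        induction q' using Quot.ind with
        | mk l' =>
        exact Dir.cl_cyz' ok l l' (Prod.ext_iff.mp h).1 (congrArg Fin.val (Prod.ext_iff.mp h).2)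
      · rintro ⟨x, i⟩
        obtain ⟨h1, h2⟩ := ok.r x.val i.val (Dir.vlt ok x) (by rw [hnc]; exact i.isLt)
        refine ⟨Quot.mk _ (x, Dir.fz ok (D.rp x.val i)), ?_⟩
        refine Prod.ext rfl (Fin.ext ?_)
        show Dir.cyz (x, Dir.fz ok (D.rp x.val i)) = i
        unfold Dir.cyz
        simp only
        rw [Dir.fz_val ok h1, h2]
    rw [h1, Nat.card_prod]; simp
  have hconn : ∀ x y, Relation.EqvGen (fun a b => b = Dir.sgD ok a ∨ b = Dir.alD ok a) x y := by
    have hcle : ∀ {x y}, cl (Dir.sgD ok) x = cl (Dir.sgD ok) y →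
        Relation.EqvGen (fun a b => b = Dir.sgD ok a ∨ b = Dir.alD ok a) x y := by
      intro x y h
      exact Relation.EqvGen.mono (fun a b h => Or.inl h) _ _ (Quot.eqvGen_exact h)
    obtain ⟨r1, r2⟩ := ok.r 0 0 (by have := ok.hn; omega) (by
      rw [hnc]
      have h := Dir.cyz_lt ok ((0 : ZMod D.n), Dir.fz ok 0)
      rw [hnc] at h; omega)
    have base : ∀ N : ℕ, ∀ q : ZMod D.n × Fin D.d, Dir.rkz q < N →
        Relation.EqvGen (fun a b => b = Dir.sgD ok a ∨ b = Dir.alD ok a) q
          ((0 : ZMod D.n), Dir.fz ok (D.rp 0 0)) := by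
      intro N
      induction N with
      | zero => intro q h; omega
      | succ N ih =>
        intro q hq
        rcases Dir.desc_q ok q with h | h | ⟨q', h1, h2, h3⟩
        · exact absurd h.1 (by rw [hh]; simp)
        · refine hcle (Dir.cl_cyz' ok _ _ h.2.1 ?_)
          rw [h.2.2]
          unfold Dir.cyz
          simp only [ZMod.val_zero]
          rw [Dir.fz_val ok r1, r2]
        · have e1 := hcle (Dir.cl_cyz' ok q q' h1.symm h2.symm)
          have e2 : Relation.EqvGen (fun a b => b = Dir.sgD ok a ∨ b = Dir.alD ok a) q'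
            (Dir.alD ok q') := Relation.EqvGen.rel _ _ (Or.inr rfl)
          exact (e1.trans _ _ _ e2).trans _ _ _ (ih _ (by omega))
    intro x y
    exact (base _ x (Nat.lt_succ_self _)).trans _ _ _ (base _ y (Nat.lt_succ_self _)).symm
  let f : ZMod D.n ≃ Fin D.n := Fintype.equivFinOfCardEq (ZMod.card D.n)
  have hg := goodE_of_rot (Dir.sgD ok) (Dir.alD ok) ⟨(0, Dir.fz ok 0)⟩ (Dir.al2 ok) (Dir.alne ok)
    hconn D.n D.c0 (fun x => f x.1) (fun x => rfl) (by
      intro x
      refine exact_parts (Dir.sgD ok) (fun x => f x.1) (fun x => rfl) D.c0 ?_ ?_ x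
      · intro x
        refine le_trans ?_ (le_of_eq (Nat.card_fin D.c0))
        refine Nat.card_le_card_of_surjective (fun i : Fin D.c0 =>
          ⟨cl (Dir.sgD ok) (f.symm x, Dir.fz ok (D.rp (f.symm x).val i)), ⟨_, by simp, rfl⟩⟩) ?_
        rintro ⟨q, y, hy, rfl⟩
        have hy' : y.1 = f.symm x := by rw [← hy]; simp
        have hlt := Dir.cyz_lt ok y
        rw [hnc] at hlt
        refine ⟨⟨Dir.cyz y, hlt⟩, Subtype.ext ?_⟩
        show cl (Dir.sgD ok) (f.symm x, Dir.fz ok (D.rp (f.symm x).val (Dir.cyz y))) = _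
        refine Dir.cl_cyz' ok _ _ hy'.symm ?_
        obtain ⟨h1, h2⟩ := ok.r (f.symm x).val (Dir.cyz y) (Dir.vlt ok _) (by rw [hnc]; exact hlt)
        show D.cy (f.symm x).val (Dir.fz ok (D.rp (f.symm x).val (Dir.cyz y))).val = _
        rw [Dir.fz_val ok h1, h2]
      · rw [Fintype.card_fin, hcyc]) (by
      intro a b hab
      have hne : f.symm b - f.symm a ≠ 0 := by
        intro h; apply hab; exact f.symm.injective (sub_eq_zero.mp h).symm
      have hlt := ZMod.val_lt (f.symm b - f.symm a)
      have hne' : (f.symm b - f.symm a).val ≠ 0 := fun e => hne ((ZMod.val_eq_zero _).mp e)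
      obtain ⟨p, hp, hv⟩ := hcov _ hlt hne'
      refine ⟨(f.symm a, Dir.fz ok p), ?_, ?_⟩
      · show f (f.symm a) = a; simp
      · show f (f.symm a + Dir.off D (Dir.fz ok p).val) = b
        unfold Dir.off
        rw [Dir.fz_val ok hp, hv, ZMod.natCast_zmod_val]; simp)
  refine ⟨_, hg, ?_, ?_⟩
  · have h1 := even_euler (Dir.sgD ok) (Dir.alD ok) (Dir.al2 ok) (Dir.alne ok)
    obtain ⟨t, ht⟩ := h1
    refine ⟨(t : ℤ) - Run7.B243.cyc (Dir.alD ok), ?_⟩
    omega
  · have h1 := cyc_multi (Dir.sgD ok * Dir.alD ok) (L.map fun l => (l.map (Dir.q3 ok)).toFinset)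
      (((L.map fun l => l.drop 3).flatten.map (Dir.q3 ok)).toFinset) 5 (by
        intro x hx
        simp only [Perm.mul_apply]
        refine Dir.tri_q ok x ?_
        intro hm
        simp only [Dir.exL, hh, Bool.false_eq_true, if_false, List.nil_append, List.mem_map] at hm
        obtain ⟨t, ht, h⟩ := hm
        have hv := (ok.vbig t ht).1
        rw [hL, List.mem_flatten] at ht
        obtain ⟨l, hl, ht⟩ := ht
        refine hx _ (List.mem_map_of_mem hl) ?_
        simp only [List.mem_toFinset, List.mem_map]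
        exact ⟨t, ht, (Dir.q3_of_codz ok hv _ h).symm⟩) (by
        intro B hB q hq
        rw [List.mem_map] at hB
        obtain ⟨l, hl, rfl⟩ := hB
        simp only [List.mem_toFinset, List.mem_map] at hq ⊢
        obtain ⟨t, ht, rfl⟩ := hq
        refine ⟨D.nx t, hc l hl t ht, ?_⟩
        have hv : D.val t = true := (ok.vbig t (by rw [hL, List.mem_flatten]; exact ⟨l, hl, ht⟩)).1
        rw [Perm.mul_apply, Dir.ph_q3 ok hv]) (by
        refine le_trans (List.toFinset_card_le _) ?_
        rw [List.length_map, List.length_flatten, List.map_map]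
        refine le_trans (le_of_eq ?_) hδ
        congr 1
        refine List.map_congr_left ?_
        intro l _
        show (l.drop 3).length = l.length - 3
        rw [List.length_drop]) (by
        intro B hB
        rw [List.mem_map] at hB
        obtain ⟨l, hl, rfl⟩ := hB
        have hsub : (l.map (Dir.q3 ok)).toFinset \
            (((L.map fun l => l.drop 3).flatten.map (Dir.q3 ok)).toFinset) ⊆
            ((l.take 3).map (Dir.q3 ok)).toFinset := by
          intro x hx
          simp only [Finset.mem_sdiff, List.mem_toFinset, List.mem_map] at hx ⊢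
          obtain ⟨⟨t, ht, rfl⟩, h2⟩ := hx
          rw [← List.take_append_drop 3 l, List.mem_append] at ht
          rcases ht with ht | ht
          · exact ⟨t, ht, rfl⟩
          · refine absurd ⟨t, ?_, rfl⟩ h2
            rw [List.mem_flatten]
            exact ⟨l.drop 3, List.mem_map_of_mem hl, ht⟩
        refine le_trans (Finset.card_le_card hsub) (le_trans (List.toFinset_card_le _) ?_)
        rw [List.length_map, List.length_take]; omega)
    rw [cyc_comm] at h1
    have h2 := cyc_invol (Dir.alD ok) (Dir.al2 ok) (Dir.alne ok)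
    have h4 : Fintype.card (ZMod D.n × Fin D.d) = D.n * (D.n - 1) := by
      rw [Fintype.card_prod, ZMod.card, Fintype.card_fin]
      congr 1
      omega
    have h5 : (D.n : ℤ) * (D.n - 1) = (Fintype.card (ZMod D.n × Fin D.d) : ℕ) := by
      rw [h4]
      have : 1 ≤ D.n := by have := ok.hn; omega
      push_cast [this]; ring
    have h6 : (Run7.B243.cyc (Dir.sgD ok) : ℤ) = D.n * D.c0 := by rw [hcyc]; push_cast; ring
    have h7 : ((Fintype.card (ZMod D.n × Fin D.d) : ℕ) : ℤ) ≤
        3 * Run7.B243.cyc (Dir.alD ok * Dir.sgD ok) + (5 : ℕ) := by exact_mod_cast h1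
    have h8 : 2 * (Run7.B243.cyc (Dir.alD ok) : ℤ) = (Fintype.card (ZMod D.n × Fin D.d) : ℕ) := by
      exact_mod_cast h2
    have h9 : (D.n : ℤ) * (6 * (D.c0 : ℕ) + 1 - D.n) = 6 * (D.n * D.c0) - D.n * (D.n - 1) := by ring
    rw [h9]
    push_cast at h7
    linarith


/-- the map from a table alone -/
theorem whole_optMB {D : DirB} (ok : D.Ok) (hh : D.hole = false) (L : List (List (ℕ × ℕ)))
    (hL : D.big = L.flatten) (hc : ∀ l ∈ L, ∀ q ∈ l, D.nx q ∈ l)
    (hδ : (L.map (fun l => l.length - 3)).sum ≤ 5)
    (hcov : ∀ g < D.n, g ≠ 0 → ∃ p < D.d, D.of p = g) (hcard : D.d + 1 = D.n) : Opt D.n D.c0 := by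
  classical
  have := DirB.nne ok
  have hnc : ∀ x, D.nc x = D.c0 := by
    intro x
    rcases DirB.nc_cases (D := D) x with ⟨h, _⟩ | ⟨_, h⟩
    · rw [DirB.isH_iff, hh] at h; simp at h
    · exact h
  have hcyc : Run7.B243.cyc (DirB.sgD ok) = D.n * D.c0 := by
    have h1 : Run7.B243.cyc (DirB.sgD ok) = Nat.card (ZMod D.n × Fin D.c0) := by
      unfold cyc
      refine Nat.card_eq_of_bijective
        (Quot.lift (fun q => (q.1, (⟨DirB.cyz q, by
          have := DirB.cyz_lt ok q; rwa [hnc] at this⟩ : Fin D.c0))) (by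
          intro a b h; subst h
          refine Prod.ext rfl (Fin.ext ?_)
          obtain ⟨h1, h2, h3, h4, h5, _⟩ := ok.c _ _ (DirB.vlt ok a.1) a.2.isLt
          rw [DirB.sgD_apply]
          unfold DirB.cyz
          simp only
          rw [DirB.fz_val ok h1, h5])) ⟨?_, ?_⟩
      · intro q q' h
        induction q using Quot.ind with
        | mk l =>
        induction q' using Quot.ind with
        | mk l' =>
        exact DirB.cl_cyz' ok l l' (Prod.ext_iff.mp h).1 (congrArg Fin.val (Prod.ext_iff.mp h).2)
      · rintro ⟨x, i⟩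
        obtain ⟨h1, h2⟩ := ok.r x.val i.val (DirB.vlt ok x) (by rw [hnc]; exact i.isLt)
        refine ⟨Quot.mk _ (x, DirB.fz ok (D.rp x.val i)), ?_⟩
        refine Prod.ext rfl (Fin.ext ?_)
        show DirB.cyz (x, DirB.fz ok (D.rp x.val i)) = i
        unfold DirB.cyz
        simp only
        rw [DirB.fz_val ok h1, h2]
    rw [h1, Nat.card_prod]; simp
  have hconn : ∀ x y, Relation.EqvGen (fun a b => b = DirB.sgD ok a ∨ b = DirB.alD ok a) x y := by
    have hcle : ∀ {x y}, cl (DirB.sgD ok) x = cl (DirB.sgD ok) y →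
        Relation.EqvGen (fun a b => b = DirB.sgD ok a ∨ b = DirB.alD ok a) x y := by
      intro x y h
      exact Relation.EqvGen.mono (fun a b h => Or.inl h) _ _ (Quot.eqvGen_exact h)
    obtain ⟨r1, r2⟩ := ok.r 0 0 (by have := ok.hn; omega) (by
      rw [hnc]
      have h := DirB.cyz_lt ok ((0 : ZMod D.n), DirB.fz ok 0)
      rw [hnc] at h; omega)
    have base : ∀ N : ℕ, ∀ q : ZMod D.n × Fin D.d, DirB.rkz q < N →
        Relation.EqvGen (fun a b => b = DirB.sgD ok a ∨ b = DirB.alD ok a) q
          ((0 : ZMod D.n), DirB.fz ok (D.rp 0 0)) := by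
      intro N
      induction N with
      | zero => intro q h; omega
      | succ N ih =>
        intro q hq
        rcases DirB.desc_q ok q with h | h | ⟨q', h1, h2, h3⟩
        · exact absurd h.1 (by rw [hh]; simp)
        · refine hcle (DirB.cl_cyz' ok _ _ h.2.1 ?_)
          rw [h.2.2]
          unfold DirB.cyz
          simp only [ZMod.val_zero]
          rw [DirB.fz_val ok r1, r2]
        · have e1 := hcle (DirB.cl_cyz' ok q q' h1.symm h2.symm)
          have e2 : Relation.EqvGen (fun a b => b = DirB.sgD ok a ∨ b = DirB.alD ok a) q'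
            (DirB.alD ok q') := Relation.EqvGen.rel _ _ (Or.inr rfl)
          exact (e1.trans _ _ _ e2).trans _ _ _ (ih _ (by omega))
    intro x y
    exact (base _ x (Nat.lt_succ_self _)).trans _ _ _ (base _ y (Nat.lt_succ_self _)).symm
  let f : ZMod D.n ≃ Fin D.n := Fintype.equivFinOfCardEq (ZMod.card D.n)
  have hg := goodE_of_rot (DirB.sgD ok) (DirB.alD ok) ⟨(0, DirB.fz ok 0)⟩ (DirB.al2 ok) (DirB.alne ok)
    hconn D.n D.c0 (fun x => f x.1) (fun x => rfl) (by
      intro x
      refine exact_parts (DirB.sgD ok) (fun x => f x.1) (fun x => rfl) D.c0 ?_ ?_ x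
      · intro x
        refine le_trans ?_ (le_of_eq (Nat.card_fin D.c0))
        refine Nat.card_le_card_of_surjective (fun i : Fin D.c0 =>
          ⟨cl (DirB.sgD ok) (f.symm x, DirB.fz ok (D.rp (f.symm x).val i)), ⟨_, by simp, rfl⟩⟩) ?_
        rintro ⟨q, y, hy, rfl⟩
        have hy' : y.1 = f.symm x := by rw [← hy]; simp
        have hlt := DirB.cyz_lt ok y
        rw [hnc] at hlt
        refine ⟨⟨DirB.cyz y, hlt⟩, Subtype.ext ?_⟩
        show cl (DirB.sgD ok) (f.symm x, DirB.fz ok (D.rp (f.symm x).val (DirB.cyz y))) = _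
        refine DirB.cl_cyz' ok _ _ hy'.symm ?_
        obtain ⟨h1, h2⟩ := ok.r (f.symm x).val (DirB.cyz y) (DirB.vlt ok _) (by rw [hnc]; exact hlt)
        show D.cy (f.symm x).val (DirB.fz ok (D.rp (f.symm x).val (DirB.cyz y))).val = _
        rw [DirB.fz_val ok h1, h2]
      · rw [Fintype.card_fin, hcyc]) (by
      intro a b hab
      have hne : f.symm b - f.symm a ≠ 0 := by
        intro h; apply hab; exact f.symm.injective (sub_eq_zero.mp h).symm
      have hlt := ZMod.val_lt (f.symm b - f.symm a)
      have hne' : (f.symm b - f.symm a).val ≠ 0 := fun e => hne ((ZMod.val_eq_zero _).mp e)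
      obtain ⟨p, hp, hv⟩ := hcov _ hlt hne'
      refine ⟨(f.symm a, DirB.fz ok p), ?_, ?_⟩
      · show f (f.symm a) = a; simp
      · show f (f.symm a + DirB.off D (DirB.fz ok p).val) = b
        unfold DirB.off
        rw [DirB.fz_val ok hp, hv, ZMod.natCast_zmod_val]; simp)
  refine ⟨_, hg, ?_, ?_⟩
  · have h1 := even_euler (DirB.sgD ok) (DirB.alD ok) (DirB.al2 ok) (DirB.alne ok)
    obtain ⟨t, ht⟩ := h1
    refine ⟨(t : ℤ) - Run7.B243.cyc (DirB.alD ok), ?_⟩
    omega
  · have h1 := cyc_multi (DirB.sgD ok * DirB.alD ok) (L.map fun l => (l.map (DirB.q3 ok)).toFinset)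
      (((L.map fun l => l.drop 3).flatten.map (DirB.q3 ok)).toFinset) 5 (by
        intro x hx
        simp only [Perm.mul_apply]
        refine DirB.tri_q ok x ?_
        intro hm
        simp only [DirB.exL, hh, Bool.false_eq_true, if_false, List.nil_append, List.mem_map] at hm
        obtain ⟨t, ht, h⟩ := hm
        have hv := (ok.vbig t ht).1
        rw [hL, List.mem_flatten] at ht
        obtain ⟨l, hl, ht⟩ := ht
        refine hx _ (List.mem_map_of_mem hl) ?_
        simp only [List.mem_toFinset, List.mem_map]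
        exact ⟨t, ht, (DirB.q3_of_codz ok hv _ h).symm⟩) (by
        intro B hB q hq
        rw [List.mem_map] at hB
        obtain ⟨l, hl, rfl⟩ := hB
        simp only [List.mem_toFinset, List.mem_map] at hq ⊢
        obtain ⟨t, ht, rfl⟩ := hq
        refine ⟨D.nx t, hc l hl t ht, ?_⟩
        have hv : D.val t = true := (ok.vbig t (by rw [hL, List.mem_flatten]; exact ⟨l, hl, ht⟩)).1
        rw [Perm.mul_apply, DirB.ph_q3 ok hv]) (by
        refine le_trans (List.toFinset_card_le _) ?_
        rw [List.length_map, List.length_flatten, List.map_map]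
        refine le_trans (le_of_eq ?_) hδ
        congr 1
        refine List.map_congr_left ?_
        intro l _
        show (l.drop 3).length = l.length - 3
        rw [List.length_drop]) (by
        intro B hB
        rw [List.mem_map] at hB
        obtain ⟨l, hl, rfl⟩ := hB
        have hsub : (l.map (DirB.q3 ok)).toFinset \
            (((L.map fun l => l.drop 3).flatten.map (DirB.q3 ok)).toFinset) ⊆
            ((l.take 3).map (DirB.q3 ok)).toFinset := by
          intro x hx
          simp only [Finset.mem_sdiff, List.mem_toFinset, List.mem_map] at hx ⊢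
          obtain ⟨⟨t, ht, rfl⟩, h2⟩ := hx
          rw [← List.take_append_drop 3 l, List.mem_append] at ht
          rcases ht with ht | ht
          · exact ⟨t, ht, rfl⟩
          · refine absurd ⟨t, ?_, rfl⟩ h2
            rw [List.mem_flatten]
            exact ⟨l.drop 3, List.mem_map_of_mem hl, ht⟩
        refine le_trans (Finset.card_le_card hsub) (le_trans (List.toFinset_card_le _) ?_)
        rw [List.length_map, List.length_take]; omega)
    rw [cyc_comm] at h1
    have h2 := cyc_invol (DirB.alD ok) (DirB.al2 ok) (DirB.alne ok)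
    have h4 : Fintype.card (ZMod D.n × Fin D.d) = D.n * (D.n - 1) := by
      rw [Fintype.card_prod, ZMod.card, Fintype.card_fin]
      congr 1
      omega
    have h5 : (D.n : ℤ) * (D.n - 1) = (Fintype.card (ZMod D.n × Fin D.d) : ℕ) := by
      rw [h4]
      have : 1 ≤ D.n := by have := ok.hn; omega
      push_cast [this]; ring
    have h6 : (Run7.B243.cyc (DirB.sgD ok) : ℤ) = D.n * D.c0 := by rw [hcyc]; push_cast; ring
    have h7 : ((Fintype.card (ZMod D.n × Fin D.d) : ℕ) : ℤ) ≤
        3 * Run7.B243.cyc (DirB.alD ok * DirB.sgD ok) + (5 : ℕ) := by exact_mod_cast h1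
    have h8 : 2 * (Run7.B243.cyc (DirB.alD ok) : ℤ) = (Fintype.card (ZMod D.n × Fin D.d) : ℕ) := by
      exact_mod_cast h2
    have h9 : (D.n : ℤ) * (6 * (D.c0 : ℕ) + 1 - D.n) = 6 * (D.n * D.c0) - D.n * (D.n - 1) := by ring
    rw [h9]
    push_cast at h7
    linarith


end Run7.h243
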